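import Pool.Agent.Lib.MP_467d59_al.Defs

namespace Pool.Agent.Lib.MP_467d59_al

open CategoryTheory CategoryTheory.Limits

universe u v w

variable {P : Type u} [PartialOrder P] {k : Type w} [Field k]

section conv

open Classical in
/-- the scalar of an element of `k_S` at `p` -/
noncomputable def evS {P : Type u} (k : Type w) [Field k] (S : Set P) (p : P) : (PLift (p ∈ S) → k) →ₗ[k] k where
  toFun a := if hp : p ∈ S then a ⟨hp⟩ else 0
  map_add' a b := by
    by_cases hp : p ∈ S <;> simp [hp]
  map_smul' c a := by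
    by_cases hp : p ∈ S <;> simp [hp]

omit [PartialOrder P] in
theorem evS_of_mem {S : Set P} {p : P} (hp : p ∈ S) (a : PLift (p ∈ S) → k) :
    evS k S p a = a ⟨hp⟩ := by simp [evS, hp]

omit [PartialOrder P] in
theorem evS_of_notMem {S : Set P} {p : P} (hp : p ∉ S) (a : PLift (p ∈ S) → k) :
    evS k S p a = 0 := by simp [evS, hp]

omit [PartialOrder P] in
theorem evS_injective {S : Set P} {p : P} {a b : PLift (p ∈ S) → k}
    (h : evS k S p a = evS k S p b) : a = b := by
  funext t
  rw [evS_of_mem t.down, evS_of_mem t.down] at h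
  exact h

theorem convRep_map_apply {S : Set P} (hS : IsConvex S) {p q : P} (f : p ⟶ q)
    (a : PLift (p ∈ S) → k) (h : PLift (q ∈ S)) :
    (((convRep k S hS).map f).hom a : PLift (q ∈ S) → k) h = evS k S p a := rfl

theorem evS_map {S : Set P} (hS : IsConvex S) {p q : P} (f : p ⟶ q)
    (a : PLift (p ∈ S) → k) (hq : q ∈ S) :
    evS k S q (((convRep k S hS).map f).hom a) = evS k S p a := by
  rw [evS_of_mem hq]
  exact convRep_map_apply hS f a ⟨hq⟩

/-- Sections of a representation over a set. -/
def IsSec (S : Set P) (M : PRep k P) (x : ∀ p, M.obj p) : Prop :=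
  (∀ p, p ∉ S → x p = 0) ∧ ∀ p q (h : p ⟶ q), p ∈ S → (M.map h).hom (x p) = x q

variable {S : Set P} (hS : IsConvex S) {M N : PRep k P}

/-- morphism attached to a section -/
noncomputable def mkHom (x : ∀ p, M.obj p) (hx : IsSec S M x) : convRep k S hS ⟶ M where
  app p := ModuleCat.ofHom ((LinearMap.toSpanSingleton k (M.obj p) (x p)).comp (evS k S p))
  naturality p q f := by
    refine ModuleCat.hom_ext (LinearMap.ext fun a => ?_)
    show evS k S q (((convRep k S hS).map f).hom a) • x q = (M.map f).hom (evS k S p a • x p)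
    rw [map_smul]
    by_cases hp : p ∈ S
    · rw [hx.2 p q f hp]
      by_cases hq : q ∈ S
      · rw [evS_map hS f a hq]
      · rw [hx.1 q hq, smul_zero, smul_zero]
    · rw [hx.1 p hp, map_zero, smul_zero]
      by_cases hq : q ∈ S
      · rw [evS_map hS f a hq, evS_of_notMem hp, zero_smul]
      · rw [hx.1 q hq, smul_zero]

variable {hS}

/-- section attached to a morphism -/
noncomputable def secOf (f : convRep k S hS ⟶ M) (p : P) : M.obj p :=
  (f.app p).hom (show PLift (p ∈ S) → k from fun _ => 1)

theorem app_eq (f : convRep k S hS ⟶ M) (p : P) (a : PLift (p ∈ S) → k) :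
    (f.app p).hom a = evS k S p a • secOf f p := by
  have : a = evS k S p a • (show PLift (p ∈ S) → k from fun _ => 1) := by
    funext t
    rw [evS_of_mem t.down]
    show _ = a _ * 1
    rw [mul_one]
  conv_lhs => rw [this]
  exact map_smul (f.app p).hom _ _

theorem secOf_isSec (f : convRep k S hS ⟶ M) : IsSec S M (secOf f) := by
  constructor
  · intro p hp
    have h : (show PLift (p ∈ S) → k from fun _ => 1) = 0 := by
      funext t; exact absurd t.down hp
    rw [secOf, h]
    exact map_zero (f.app p).hom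
  · intro p q h hp
    have e := congrArg (fun t => (ModuleCat.Hom.hom t) (show PLift (p ∈ S) → k from fun _ => 1))
      (f.naturality h)
    have e1 : (((convRep k S hS).map h).hom (show PLift (p ∈ S) → k from fun _ => 1)) =
        (show PLift (q ∈ S) → k from fun _ => 1) := by
      funext t
      rw [convRep_map_apply, evS_of_mem hp]
    have e2 : (f.app q).hom (((convRep k S hS).map h).hom
      (show PLift (p ∈ S) → k from fun _ => 1)) = (M.map h).hom (secOf f p) := e
    rw [← e2, e1]
    rfl

theorem secOf_mkHom (x : ∀ p, M.obj p) (hx : IsSec S M x) (p : P) :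
    secOf (mkHom hS x hx) p = x p := by
  show evS k S p (fun _ => 1) • x p = x p
  by_cases hp : p ∈ S
  · rw [evS_of_mem hp, one_smul]
  · rw [hx.1 p hp, smul_zero]

theorem conv_hom_ext {f g : convRep k S hS ⟶ M} (h : ∀ p, p ∈ S → secOf f p = secOf g p) : f = g := by
  refine NatTrans.ext (funext fun p => ModuleCat.hom_ext (LinearMap.ext fun a => ?_))
  rw [app_eq f p a, app_eq g p a]
  by_cases hp : p ∈ S
  · rw [h p hp]
  · rw [evS_of_notMem hp, zero_smul, zero_smul]

theorem secOf_comp (f : convRep k S hS ⟶ M) (g : M ⟶ N) (p : P) :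
    secOf (f ≫ g) p = (g.app p).hom (secOf f p) := rfl

theorem secOf_add (f g : convRep k S hS ⟶ M) (p : P) : secOf (f + g) p = secOf f p + secOf g p := rfl

theorem secOf_zero (p : P) : secOf (0 : convRep k S hS ⟶ M) p = 0 := rfl

theorem secOf_smul (c : k) (f : convRep k S hS ⟶ M) (p : P) : secOf (c • f) p = c • secOf f p := rfl

end conv

section coef

variable {S S' S'' : Set P} {hS : IsConvex S} {hS' : IsConvex S'} {hS'' : IsConvex S''}

/-- the scalar of a morphism between convex representations -/
noncomputable def coef (f : convRep k S hS ⟶ convRep k S' hS') (p : P) : k :=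
  evS k S' p (secOf f p)

theorem coef_ext {f g : convRep k S hS ⟶ convRep k S' hS'} (h : ∀ p, coef f p = coef g p) : f = g :=
  conv_hom_ext fun p _ => evS_injective (h p)

theorem coef_left {f : convRep k S hS ⟶ convRep k S' hS'} {p : P} (h : coef f p ≠ 0) : p ∈ S := by
  by_contra hp
  apply h
  rw [coef, (secOf_isSec f).1 p hp]
  exact map_zero _

theorem coef_right {f : convRep k S hS ⟶ convRep k S' hS'} {p : P} (h : coef f p ≠ 0) : p ∈ S' := by
  by_contra hp
  exact h (evS_of_notMem hp _)

theorem coef_eq (f : convRep k S hS ⟶ convRep k S' hS') {p q : P} (hpq : p ≤ q) (hp : p ∈ S)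
    (hq : q ∈ S') : coef f p = coef f q := by
  have h := (secOf_isSec f).2 p q (homOfLE hpq) hp
  rw [coef, coef, ← h]
  exact (evS_map hS' (homOfLE hpq) _ hq).symm

theorem coef_comp (f : convRep k S hS ⟶ convRep k S' hS') (g : convRep k S' hS' ⟶ convRep k S'' hS'')
    (p : P) : coef (f ≫ g) p = coef f p * coef g p := by
  rw [coef, secOf_comp, app_eq]
  exact map_smul (evS k S'' p) (evS k S' p (secOf f p)) (secOf g p)

theorem coef_add (f g : convRep k S hS ⟶ convRep k S' hS') (p : P) :
    coef (f + g) p = coef f p + coef g p := by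
  rw [coef, secOf_add]; exact map_add _ _ _

theorem coef_zero (p : P) : coef (0 : convRep k S hS ⟶ convRep k S' hS') p = 0 := by
  rw [coef, secOf_zero]; exact map_zero _

theorem coef_smul (c : k) (f : convRep k S hS ⟶ convRep k S' hS') (p : P) :
    coef (c • f) p = c * coef f p := by
  rw [coef, secOf_smul]; exact map_smul _ _ _

theorem coef_id (p : P) (hp : p ∈ S) : coef (𝟙 (convRep k S hS)) p = 1 := by
  show evS k S p (fun _ => 1) = 1
  rw [evS_of_mem hp]

/-- the section of a convex representation with prescribed scalars -/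
noncomputable def cSec (S' : Set P) (hS' : IsConvex S') (a : P → k) (p : P) :
    (convRep k S' hS').obj p := (show PLift (p ∈ S') → k from fun _ => a p)

theorem cSec_isSec (a : P → k) (h0 : ∀ p, p ∉ S → p ∈ S' → a p = 0)
    (h1 : ∀ p q, p ≤ q → p ∈ S → q ∈ S' → p ∈ S' → a p = a q)
    (h2 : ∀ p q, p ≤ q → p ∈ S → q ∈ S' → p ∉ S' → a q = 0) :
    IsSec S (convRep k S' hS') (cSec S' hS' a) := by
  constructor
  · intro p hp
    funext t
    exact h0 p hp t.down
  · intro p q h hp
    funext t
    have e := convRep_map_apply hS' h (cSec S' hS' a p) t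
    refine e.trans ?_
    show _ = a q
    by_cases hp' : p ∈ S'
    · rw [evS_of_mem hp']
      exact h1 p q (leOfHom h) hp t.down hp'
    · rw [evS_of_notMem hp', h2 p q (leOfHom h) hp t.down hp']

/-- morphism of convex representations with prescribed scalars -/
noncomputable def cHom (a : P → k) (h0 : ∀ p, p ∉ S → p ∈ S' → a p = 0)
    (h1 : ∀ p q, p ≤ q → p ∈ S → q ∈ S' → p ∈ S' → a p = a q)
    (h2 : ∀ p q, p ≤ q → p ∈ S → q ∈ S' → p ∉ S' → a q = 0) :
    convRep k S hS ⟶ convRep k S' hS' :=
  mkHom hS (cSec S' hS' a) (cSec_isSec a h0 h1 h2)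

theorem coef_cHom (a : P → k) (h0 : ∀ p, p ∉ S → p ∈ S' → a p = 0)
    (h1 : ∀ p q, p ≤ q → p ∈ S → q ∈ S' → p ∈ S' → a p = a q)
    (h2 : ∀ p q, p ≤ q → p ∈ S → q ∈ S' → p ∉ S' → a q = 0) {p : P} (hp : p ∈ S') :
    coef (cHom (hS := hS) (hS' := hS') a h0 h1 h2) p = a p := by
  rw [coef, cHom, secOf_mkHom]
  exact evS_of_mem hp _

end coef

section sums

/-- explicit finite direct sum -/
def sumRep {J : Type} (Y : J → PRep k P) : PRep k P where
  obj p := ModuleCat.of k (∀ j, (Y j).obj p)
  map f := ModuleCat.ofHom (LinearMap.pi fun j => ((Y j).map f).hom.comp (LinearMap.proj j))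
  map_id p := by
    refine ModuleCat.hom_ext (LinearMap.ext fun a => ?_)
    funext j
    simp
  map_comp f g := by
    refine ModuleCat.hom_ext (LinearMap.ext fun a => ?_)
    funext j
    simp

variable {J : Type} (Y : J → PRep k P)

/-- projections -/
def sumπ (j : J) : sumRep Y ⟶ Y j where
  app p := ModuleCat.ofHom (LinearMap.proj j)
  naturality _ _ _ := rfl

open Classical in
/-- injections -/
noncomputable def sumι (j : J) : Y j ⟶ sumRep Y where
  app p := ModuleCat.ofHom (LinearMap.single k (fun j => (Y j).obj p) j)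
  naturality p q f := by
    refine ModuleCat.hom_ext (LinearMap.ext fun a => ?_)
    funext i
    show (Pi.single j (((Y j).map f).hom a) : ∀ j, (Y j).obj q) i =
      ((Y i).map f).hom ((Pi.single j a : ∀ j, (Y j).obj p) i)
    by_cases h : i = j
    · subst h; simp
    · rw [Pi.single_eq_of_ne h, Pi.single_eq_of_ne h, map_zero]

variable {Y}

/-- pairing -/
def sumLift {M : PRep k P} (f : ∀ j, M ⟶ Y j) : M ⟶ sumRep Y where
  app p := ModuleCat.ofHom (LinearMap.pi fun j => ((f j).app p).hom)
  naturality p q g := by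
    refine ModuleCat.hom_ext (LinearMap.ext fun a => ?_)
    funext j
    exact congrArg (fun t => ModuleCat.Hom.hom t a) ((f j).naturality g)

/-- copairing -/
def sumDesc [Fintype J] {M : PRep k P} (f : ∀ j, Y j ⟶ M) : sumRep Y ⟶ M := ∑ j, sumπ Y j ≫ f j

theorem sumLift_π {M : PRep k P} (f : ∀ j, M ⟶ Y j) (j : J) : sumLift f ≫ sumπ Y j = f j := rfl

theorem sumι_π_self (j : J) : sumι Y j ≫ sumπ Y j = 𝟙 _ := by
  classical
  refine NatTrans.ext (funext fun p => ModuleCat.hom_ext (LinearMap.ext fun a => ?_))
  show (Pi.single j a : ∀ j, (Y j).obj p) j = a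
  simp

theorem sumι_π_ne {i j : J} (h : i ≠ j) : sumι Y i ≫ sumπ Y j = 0 := by
  classical
  refine NatTrans.ext (funext fun p => ModuleCat.hom_ext (LinearMap.ext fun a => ?_))
  show (Pi.single i a : ∀ j, (Y j).obj p) j = 0
  rw [Pi.single_eq_of_ne h.symm]

theorem sum_hom_ext {M : PRep k P} {f g : M ⟶ sumRep Y} (h : ∀ j, f ≫ sumπ Y j = g ≫ sumπ Y j) :
    f = g := by
  refine NatTrans.ext (funext fun p => ModuleCat.hom_ext (LinearMap.ext fun a => ?_))
  funext j
  exact congrArg (fun t : M ⟶ Y j => (t.app p).hom a) (h j)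

theorem app_sum {M N : PRep k P} {J : Type} (s : Finset J) (f : J → (M ⟶ N)) (p : P) :
    (∑ j ∈ s, f j).app p = ∑ j ∈ s, (f j).app p := by
  classical
  induction s using Finset.induction_on with
  | empty => simp
  | insert a s ha ih => rw [Finset.sum_insert ha, Finset.sum_insert ha, NatTrans.app_add, ih]

theorem sum_total [Fintype J] : ∑ j, sumπ Y j ≫ sumι Y j = 𝟙 (sumRep Y) := by
  classical
  apply sum_hom_ext
  intro i
  rw [Preadditive.sum_comp, Finset.sum_eq_single i]
  · rw [Category.assoc, sumι_π_self, Category.comp_id, Category.id_comp]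
  · intro j _ hj
    rw [Category.assoc, sumι_π_ne hj, comp_zero]
  · intro h; exact absurd (Finset.mem_univ i) h

theorem sumι_desc [Fintype J] {M : PRep k P} (f : ∀ j, Y j ⟶ M) (i : J) :
    sumι Y i ≫ sumDesc f = f i := by
  classical
  rw [sumDesc, Preadditive.comp_sum, Finset.sum_eq_single i]
  · rw [← Category.assoc, sumι_π_self, Category.id_comp]
  · intro j _ hj
    rw [← Category.assoc, sumι_π_ne hj.symm, zero_comp]
  · intro h; exact absurd (Finset.mem_univ i) h

theorem sum_desc_ext [Fintype J] {M : PRep k P} {f g : sumRep Y ⟶ M}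
    (h : ∀ j, sumι Y j ≫ f = sumι Y j ≫ g) : f = g := by
  rw [← Category.id_comp f, ← Category.id_comp g, ← sum_total, Preadditive.sum_comp,
    Preadditive.sum_comp]
  refine Finset.sum_congr rfl fun j _ => ?_
  rw [Category.assoc, Category.assoc, h]

/-- comparison with the categorical biproduct -/
noncomputable def sumIso [Fintype J] (Y : J → PRep k P) : sumRep Y ≅ ⨁ Y where
  hom := biproduct.lift fun j => sumπ Y j
  inv := biproduct.desc fun j => sumι Y j
  hom_inv_id := by
    rw [biproduct.lift_desc, sum_total]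
  inv_hom_id := by
    classical
    refine biproduct.hom_ext' _ _ fun i => ?_
    refine biproduct.hom_ext _ _ fun j => ?_
    rw [← Category.assoc, biproduct.ι_desc, Category.assoc, biproduct.lift_π, Category.comp_id]
    by_cases h : i = j
    · subst h
      rw [sumι_π_self, biproduct.ι_π_self]
    · rw [sumι_π_ne h, biproduct.ι_π_ne _ h]

end sums

section kernels

/-- explicit kernel -/
def kerRep {M N : PRep k P} (g : M ⟶ N) : PRep k P where
  obj p := ModuleCat.of k (LinearMap.ker (g.app p).hom)
  map {p q} f := ModuleCat.ofHom ((M.map f).hom.restrict (fun x hx => by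
    rw [LinearMap.mem_ker] at hx ⊢
    have e := congrArg (fun t => ModuleCat.Hom.hom t x) (g.naturality f)
    have e' : (g.app q).hom ((M.map f).hom x) = (N.map f).hom ((g.app p).hom x) := e
    rw [e', hx, map_zero]))
  map_id p := by
    refine ModuleCat.hom_ext (LinearMap.ext fun a => ?_)
    apply Subtype.ext
    show (M.map (𝟙 p)).hom a.1 = a.1
    rw [M.map_id]; rfl
  map_comp f g := by
    refine ModuleCat.hom_ext (LinearMap.ext fun a => ?_)
    apply Subtype.ext
    show (M.map (f ≫ g)).hom a.1 = (M.map g).hom ((M.map f).hom a.1)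
    rw [M.map_comp]; rfl

/-- kernel inclusion -/
def kerι {M N : PRep k P} (g : M ⟶ N) : kerRep g ⟶ M where
  app p := ModuleCat.ofHom (LinearMap.ker (g.app p).hom).subtype
  naturality _ _ _ := rfl

theorem kerι_comp {M N : PRep k P} (g : M ⟶ N) : kerι g ≫ g = 0 := by
  refine NatTrans.ext (funext fun p => ModuleCat.hom_ext (LinearMap.ext fun a => ?_))
  exact a.2

/-- `K` is a pointwise kernel of `g` -/
structure IsKer {K M N : PRep k P} (i : K ⟶ M) (g : M ⟶ N) : Prop where
  inj : ∀ p, Function.Injective (i.app p).hom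
  exact : ∀ p, Function.Exact (i.app p).hom (g.app p).hom

theorem isKer_kerι {M N : PRep k P} (g : M ⟶ N) : IsKer (kerι g) g := by
  constructor
  · intro p x y h
    exact Subtype.ext h
  · intro p x
    constructor
    · intro h; exact ⟨⟨x, h⟩, rfl⟩
    · rintro ⟨y, rfl⟩; exact y.2

theorem nat_apply {M N : PRep k P} (g : M ⟶ N) {p q : P} (f : p ⟶ q) (x : M.obj p) :
    (g.app q).hom ((M.map f).hom x) = (N.map f).hom ((g.app p).hom x) :=
  congrArg (fun t => ModuleCat.Hom.hom t x) (g.naturality f)

theorem IsKer.comp {K M N : PRep k P} {i : K ⟶ M} {g : M ⟶ N} (h : IsKer i g) : i ≫ g = 0 := by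
  refine NatTrans.ext (funext fun p => ModuleCat.hom_ext (LinearMap.ext fun a => ?_))
  exact (h.exact p _).2 ⟨a, rfl⟩

theorem IsKer.lift {K M N : PRep k P} {i : K ⟶ M} {g : M ⟶ N} (h : IsKer i g) {X : PRep k P}
    (f : X ⟶ M) (hf : f ≫ g = 0) : ∃ f' : X ⟶ K, f' ≫ i = f := by
  have h1 : ∀ p (x : X.obj p), ∃ y, (i.app p).hom y = (f.app p).hom x := by
    intro p x
    have := congrArg (fun t : X ⟶ N => (t.app p).hom x) hf
    exact (h.exact p _).1 this
  choose c hc using h1
  refine ⟨{ app := fun p => ModuleCat.ofHom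
              { toFun := c p
                map_add' := ?_
                map_smul' := ?_ }
            naturality := ?_ }, ?_⟩
  · intro x y
    apply h.inj p
    rw [hc, map_add, map_add, hc, hc]
  · intro r x
    apply h.inj p
    rw [hc, map_smul, RingHom.id_apply, map_smul, hc]
  · intro p q g'
    refine ModuleCat.hom_ext (LinearMap.ext fun a => ?_)
    apply h.inj q
    show (i.app q).hom (c q ((X.map g').hom a)) = (i.app q).hom ((K.map g').hom (c p a))
    rw [hc, nat_apply, nat_apply, hc]
  · refine NatTrans.ext (funext fun p => ModuleCat.hom_ext (LinearMap.ext fun a => ?_))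
    exact hc p a

theorem IsKer.hom_ext {K M N : PRep k P} {i : K ⟶ M} {g : M ⟶ N} (h : IsKer i g) {X : PRep k P}
    {f f' : X ⟶ K} (hf : f ≫ i = f' ≫ i) : f = f' := by
  refine NatTrans.ext (funext fun p => ModuleCat.hom_ext (LinearMap.ext fun a => ?_))
  apply h.inj p
  exact congrArg (fun t : X ⟶ M => (t.app p).hom a) hf

end kernels

section isos

theorem isIso_of_bijective {M N : PRep k P} (g : M ⟶ N) (h : ∀ p, Function.Bijective (g.app p).hom) :
    IsIso g := by
  rw [NatTrans.isIso_iff_isIso_app]
  intro p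
  rw [ConcreteCategory.isIso_iff_bijective]
  exact h p

theorem bijective_of_isIso {M N : PRep k P} (g : M ≅ N) (p : P) :
    Function.Bijective (g.hom.app p).hom := by
  have := (ConcreteCategory.isIso_iff_bijective (g.hom.app p)).1 inferInstance
  exact this

end isos

end Pool.Agent.Lib.MP_467d59_al
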