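import Pool.Agent.Lib.MP_467d59_al.Lift

namespace Pool.Agent.Lib.MP_467d59_al

open CategoryTheory CategoryTheory.Limits

attribute [-instance] CategoryTheory.prod CategoryTheory.prod'

universe u v w

variable {k : Type w} [Field k]

section closed

variable {T : Type u} [LinearOrder T] {Q : Type v} [PartialOrder Q] {n : ℕ} (c : Fin (n + 1) ↪o T)

/-- restriction to the grid -/
def resG (M : PRep k (T × Q)) : PRep k (Fin (n + 1) × Q) where
  obj r := M.obj (sg c r)
  map f := M.map (homOfLE (sg_mono c (leOfHom f)))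
  map_id r := by
    have : homOfLE (sg_mono c (leOfHom (𝟙 r))) = 𝟙 (sg c r) := Subsingleton.elim _ _
    rw [this, M.map_id]
  map_comp f g := by
    rw [← M.map_comp]
    congr 1

/-- representations that come from the grid -/
structure ClosedR (M : PRep k (T × Q)) : Prop where
  zero : ∀ p : T × Q, ¬ c 0 ≤ p.1 → ∀ x : M.obj p, x = 0
  bij : ∀ (p : T × Q) (h : c 0 ≤ p.1), Function.Bijective (M.map (homOfLE (sg_ph_le c h))).hom

variable {c}

theorem closed_iso {M : PRep k (T × Q)} (hM : ClosedR c M) : Nonempty (EE c (resG c M) ≅ M) := by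
  classical
  let a : ∀ p : T × Q, (EE c (resG c M)).obj p →ₗ[k] M.obj p := fun p =>
    if h : c 0 ≤ p.1 then (M.map (homOfLE (sg_ph_le c h))).hom.comp
      (evE (resG c M) p : (EE c (resG c M)).obj p →ₗ[k] M.obj (sg c (ph c p))) else 0
  have ha : ∀ (p : T × Q) (h : c 0 ≤ p.1) (x : (EE c (resG c M)).obj p), a p x =
      (M.map (homOfLE (sg_ph_le c h))).hom (evE (resG c M) p x) := by
    intro p h x
    have : a p = (M.map (homOfLE (sg_ph_le c h))).hom.comp
      (evE (resG c M) p : (EE c (resG c M)).obj p →ₗ[k] M.obj (sg c (ph c p))) := dif_pos h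
    rw [this]; rfl
  let g : EE c (resG c M) ⟶ M :=
    { app := fun p => ModuleCat.ofHom (a p)
      naturality := by
        intro p q f
        refine ModuleCat.hom_ext (LinearMap.ext fun x => ?_)
        show a q (((EE c (resG c M)).map f).hom x) = (M.map f).hom (a p x)
        by_cases hp : c 0 ≤ p.1
        · have hq : c 0 ≤ q.1 := hp.trans (leOfHom f).1
          rw [ha p hp, ha q hq, evE_map f (homOfLE (ph_mono c (leOfHom f)))]
          have e1 : (M.map f).hom ((M.map (homOfLE (sg_ph_le c hp))).hom (evE (resG c M) p x)) =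
              (M.map (homOfLE (sg_ph_le c hp) ≫ f)).hom (evE (resG c M) p x) := by
            rw [M.map_comp]; rfl
          have e2 : (M.map (homOfLE (sg_ph_le c hq))).hom
              (((resG c M).map (homOfLE (ph_mono c (leOfHom f)))).hom (evE (resG c M) p x)) =
              (M.map (homOfLE (sg_mono c (ph_mono c (leOfHom f))) ≫ homOfLE (sg_ph_le c hq))).hom
                (evE (resG c M) p x) := by
            rw [M.map_comp]; rfl
          rw [e1, e2]
          congr 1
        · have hx : x = 0 := by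
            apply evE_injective
            rw [evE_neg hp, evE_neg hp]
          rw [hx, map_zero, map_zero, map_zero, map_zero] }
  have hg : IsIso g := by
    apply isIso_of_bijective
    intro p
    show Function.Bijective (a p)
    by_cases hp : c 0 ≤ p.1
    · constructor
      · intro x y hxy
        rw [ha p hp, ha p hp] at hxy
        exact evE_injective ((hM.bij p hp).1 hxy)
      · intro y
        obtain ⟨z, hz⟩ := (hM.bij p hp).2 y
        obtain ⟨x, hx⟩ := evE_surj (N := resG c M) hp z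
        exact ⟨x, by rw [ha p hp, hx, hz]⟩
    · constructor
      · intro x y _
        apply evE_injective
        rw [evE_neg hp, evE_neg hp]
      · intro y
        exact ⟨0, by rw [map_zero, hM.zero p hp y]⟩
  exact ⟨asIso g⟩

theorem FD_res {M : PRep k (T × Q)} (hM : FD M) : FD (resG c M) := fun r => hM (sg c r)

variable (c)

/-- closed sets -/
def CSet (A : Set (T × Q)) : Prop := ∀ p : T × Q, p ∈ A ↔ c 0 ≤ p.1 ∧ sg c (ph c p) ∈ A

variable {c}

theorem closed_conv {A : Set (T × Q)} (hA : IsConvex A) (h : CSet c A) :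
    ClosedR c (convRep k A hA) where
  zero p hp x := by
    funext t
    exact absurd ((h p).1 t.down).1 hp
  bij p hp := by
    constructor
    · intro x y hxy
      apply evS_injective
      by_cases hpA : p ∈ A
      · have e := congrArg (evS k A p) hxy
        rw [evS_map hA _ _ hpA, evS_map hA _ _ hpA] at e
        exact e
      · have hs : sg c (ph c p) ∉ A := fun h' => hpA ((h p).2 ⟨hp, h'⟩)
        rw [evS_of_notMem hs, evS_of_notMem hs]
    · intro y
      by_cases hpA : p ∈ A
      · have hs : sg c (ph c p) ∈ A := ((h p).1 hpA).2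
        refine ⟨(show PLift (sg c (ph c p) ∈ A) → k from fun _ =>
          (y : PLift (p ∈ A) → k) ⟨hpA⟩), ?_⟩
        apply evS_injective
        rw [evS_map hA _ _ hpA, evS_of_mem hs, evS_of_mem hpA]
      · exact ⟨0, by funext t; exact absurd t.down hpA⟩

theorem closed_sum {J : Type} {Y : J → PRep k (T × Q)} (h : ∀ j, ClosedR c (Y j)) :
    ClosedR c (sumRep Y) where
  zero p hp x := by
    funext j
    exact (h j).zero p hp (x j)
  bij p hp := by
    constructor
    · intro x y hxy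
      funext j
      apply ((h j).bij p hp).1
      exact congrFun hxy j
    · intro y
      choose x hx using fun j => ((h j).bij p hp).2 (y j)
      exact ⟨x, funext hx⟩

theorem closed_of_iso {M N : PRep k (T × Q)} (e : M ≅ N) (h : ClosedR c M) : ClosedR c N where
  zero p hp x := by
    obtain ⟨y, hy⟩ := (bijective_of_isIso e p).2 x
    rw [← hy, h.zero p hp y, map_zero]
  bij p hp := by
    constructor
    · intro x y hxy
      obtain ⟨x, rfl⟩ := (bijective_of_isIso e _).2 x
      obtain ⟨y, rfl⟩ := (bijective_of_isIso e _).2 y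
      rw [← nat_apply, ← nat_apply] at hxy
      have := (h.bij p hp).1 ((bijective_of_isIso e p).1 hxy)
      rw [this]
    · intro y
      obtain ⟨y, rfl⟩ := (bijective_of_isIso e _).2 y
      obtain ⟨x, rfl⟩ := (h.bij p hp).2 y
      exact ⟨(e.hom.app _).hom x, by rw [nat_apply]⟩

theorem closed_ker {K M N : PRep k (T × Q)} {i : K ⟶ M} {g : M ⟶ N} (hK : IsKer i g)
    (hM : ClosedR c M) (hN : ClosedR c N) : ClosedR c K where
  zero p hp x := by
    apply hK.inj p
    rw [map_zero]
    exact hM.zero p hp _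
  bij p hp := by
    constructor
    · intro x y hxy
      apply hK.inj
      apply (hM.bij p hp).1
      rw [← nat_apply, ← nat_apply, hxy]
    · intro y
      obtain ⟨x, hx⟩ := (hM.bij p hp).2 ((i.app p).hom y)
      have h1 : (g.app _).hom x = 0 := by
        apply (hN.bij p hp).1
        rw [← nat_apply, hx, map_zero]
        exact (hK.exact p _).2 ⟨y, rfl⟩
      obtain ⟨z, hz⟩ := (hK.exact _ _).1 h1
      refine ⟨z, ?_⟩
      apply hK.inj
      rw [nat_apply, hz, hx]

theorem closed_coker {Y₁ Y₀ M : PRep k (T × Q)} {f : Y₁ ⟶ Y₀} {π : Y₀ ⟶ M}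
    (hex : ∀ p, Function.Exact (f.app p).hom (π.app p).hom)
    (hs : ∀ p, Function.Surjective (π.app p).hom) (h1 : ClosedR c Y₁) (h0 : ClosedR c Y₀) :
    ClosedR c M where
  zero p hp x := by
    obtain ⟨y, rfl⟩ := hs p x
    rw [h0.zero p hp y, map_zero]
  bij p hp := by
    constructor
    · rw [injective_iff_map_eq_zero]
      intro x hx
      obtain ⟨y, rfl⟩ := hs _ x
      rw [← nat_apply] at hx
      obtain ⟨z, hz⟩ := (hex p _).1 hx
      obtain ⟨z', rfl⟩ := (h1.bij p hp).2 z
      rw [nat_apply] at hz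
      have := (h0.bij p hp).1 hz
      exact (hex _ _).2 ⟨z', this⟩
    · intro x
      obtain ⟨y, rfl⟩ := hs p x
      obtain ⟨z, rfl⟩ := (h0.bij p hp).2 y
      exact ⟨(π.app _).hom z, by rw [nat_apply]⟩

end closed

section fp

variable {P : Type u} [PartialOrder P]

/-- sums of representables over arbitrary finite index types -/
def RepSum (Y : PRep k P) : Prop :=
  ∃ (J : Type) (_ : Finite J) (p : J → P),
    Nonempty (Y ≅ sumRep fun j => convRep k (Set.Ici (p j)) (isConvex_Ici (p j)))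

/-- pointwise form of finite presentation -/
def IsFP' (M : PRep k P) : Prop :=
  ∃ (Y₁ Y₀ : PRep k P) (f : Y₁ ⟶ Y₀) (π : Y₀ ⟶ M), RepSum Y₁ ∧ RepSum Y₀ ∧
    (∀ p, Function.Exact (f.app p).hom (π.app p).hom) ∧ ∀ p, Function.Surjective (π.app p).hom

/-- reindexing of finite sums -/
theorem sum_reindex {J J' : Type} (e : J ≃ J') (Y : J' → PRep k P) :
    Nonempty (sumRep Y ≅ sumRep fun j => Y (e j)) := by
  let g : sumRep Y ⟶ sumRep fun j => Y (e j) := sumLift fun j => sumπ Y (e j)
  have hg : IsIso g := by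
    apply isIso_of_bijective
    intro p
    constructor
    · intro a b hab
      funext j
      obtain ⟨i, rfl⟩ := e.surjective j
      exact congrFun hab i
    · intro b
      refine ⟨(Equiv.piCongrLeft (fun j => (Y j).obj p) e) b, ?_⟩
      funext j
      exact Equiv.piCongrLeft_apply_apply (fun j => (Y j).obj p) e b j
  exact ⟨asIso g⟩

theorem repSum_iff (Y : PRep k P) : RepSum Y ↔ IsRepresentableSum Y := by
  constructor
  · rintro ⟨J, hJ, p, ⟨e⟩⟩
    obtain ⟨n, ⟨e1⟩⟩ := Finite.exists_equiv_fin J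
    obtain ⟨e2⟩ := sum_reindex e1.symm (fun j => convRep k (Set.Ici (p j)) (isConvex_Ici (p j)))
    exact ⟨n, fun i => p (e1.symm i), ⟨e.trans (e2.trans (sumIso _))⟩⟩
  · rintro ⟨n, p, ⟨e⟩⟩
    exact ⟨Fin n, inferInstance, p, ⟨e.trans (sumIso _).symm⟩⟩

theorem isSum'_to {Y : PRep k P} (h : IsSum' Y) : IsSpreadSum Y := by
  obtain ⟨J, hJ, S, hS, ⟨e⟩⟩ := h
  obtain ⟨n, ⟨e1⟩⟩ := Finite.exists_equiv_fin J
  obtain ⟨e2⟩ := sum_reindex e1.symm (fun j => convRep k (S j) (hS j).convex)
  exact ⟨n, fun i => S (e1.symm i), fun i => hS (e1.symm i), ⟨e.trans (e2.trans (sumIso _))⟩⟩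

/-- explicit cokernel -/
def cokRep {M N : PRep k P} (g : M ⟶ N) : PRep k P where
  obj p := ModuleCat.of k (N.obj p ⧸ LinearMap.range (g.app p).hom)
  map {p q} f := ModuleCat.ofHom (Submodule.mapQ _ _ (N.map f).hom (by
    rintro _ ⟨x, rfl⟩
    exact ⟨(M.map f).hom x, nat_apply g f x⟩))
  map_id p := by
    refine ModuleCat.hom_ext (LinearMap.ext fun a => ?_)
    obtain ⟨a, rfl⟩ := Submodule.Quotient.mk_surjective _ a
    show Submodule.Quotient.mk ((N.map (𝟙 p)).hom a) = _
    rw [N.map_id]; rfl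
  map_comp f g := by
    refine ModuleCat.hom_ext (LinearMap.ext fun a => ?_)
    obtain ⟨a, rfl⟩ := Submodule.Quotient.mk_surjective _ a
    show Submodule.Quotient.mk ((N.map (f ≫ g)).hom a) = _
    rw [N.map_comp]; rfl

/-- projection to the explicit cokernel -/
def cokπ {M N : PRep k P} (g : M ⟶ N) : N ⟶ cokRep g where
  app p := ModuleCat.ofHom (Submodule.mkQ _)
  naturality _ _ _ := rfl

theorem cok_comp {M N : PRep k P} (g : M ⟶ N) : g ≫ cokπ g = 0 := by
  refine NatTrans.ext (funext fun p => ModuleCat.hom_ext (LinearMap.ext fun a => ?_))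
  exact (Submodule.Quotient.mk_eq_zero _).2 ⟨a, rfl⟩

theorem cokernel_exact {M N : PRep k P} (g : M ⟶ N) (p : P) :
    Function.Exact (g.app p).hom ((cokernel.π g).app p).hom := by
  intro y
  constructor
  · intro hy
    have h1 : cokernel.π g ≫ cokernel.desc g (cokπ g) (cok_comp g) = cokπ g :=
      cokernel.π_desc _ _ _
    have h2 : ((cokπ g).app p).hom y = 0 := by
      rw [← h1]
      show ((cokernel.desc g (cokπ g) (cok_comp g)).app p).hom (((cokernel.π g).app p).hom y) = 0
      rw [hy, map_zero]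
    exact (Submodule.Quotient.mk_eq_zero _).1 h2
  · rintro ⟨x, rfl⟩
    exact congrArg (fun t : M ⟶ cokernel g => (t.app p).hom x) (cokernel.condition g)

theorem cokernel_surj {M N : PRep k P} (g : M ⟶ N) (p : P) :
    Function.Surjective ((cokernel.π g).app p).hom := by
  have h1 : Epi ((cokernel.π g).app p) := inferInstance
  exact (ModuleCat.epi_iff_surjective _).1 h1

theorem isFP'_of_isFP {M : PRep k P} (h : IsFP M) : IsFP' M := by
  obtain ⟨Y₁, Y₀, f, h1, h0, ⟨e⟩⟩ := h
  refine ⟨Y₁, Y₀, f, cokernel.π f ≫ e.inv, (repSum_iff _).2 h1, (repSum_iff _).2 h0, ?_, ?_⟩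
  · intro p y
    have he := bijective_of_isIso e.symm p
    constructor
    · intro hy
      have hy' : (e.symm.hom.app p).hom (((cokernel.π f).app p).hom y) = 0 := hy
      rw [← map_zero (e.symm.hom.app p).hom] at hy'
      exact (cokernel_exact f p y).1 (he.1 hy')
    · intro hy
      have := (cokernel_exact f p y).2 hy
      show (e.inv.app p).hom (((cokernel.π f).app p).hom y) = 0
      rw [this, map_zero]
  · intro p x
    obtain ⟨y, hy⟩ := (bijective_of_isIso e.symm p).2 x
    obtain ⟨z, hz⟩ := cokernel_surj f p y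
    refine ⟨z, ?_⟩
    show (e.symm.hom.app p).hom (((cokernel.π f).app p).hom z) = x
    rw [hz, hy]

theorem isFP_of_isFP' {M : PRep k P} (h : IsFP' M) : IsFP M := by
  obtain ⟨Y₁, Y₀, f, π, h1, h0, hex, hs⟩ := h
  refine ⟨Y₁, Y₀, f, (repSum_iff _).1 h1, (repSum_iff _).1 h0, ?_⟩
  have hw : f ≫ π = 0 := by
    refine NatTrans.ext (funext fun p => ModuleCat.hom_ext (LinearMap.ext fun a => ?_))
    exact (hex p _).2 ⟨a, rfl⟩
  have hcomp : ∀ p y, ((cokernel.desc f π hw).app p).hom (((cokernel.π f).app p).hom y) =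
      (π.app p).hom y := by
    intro p y
    exact congrArg (fun t : Y₀ ⟶ M => (t.app p).hom y) (cokernel.π_desc f π hw)
  have hiso : IsIso (cokernel.desc f π hw) := by
    apply isIso_of_bijective
    intro p
    constructor
    · rw [injective_iff_map_eq_zero]
      intro x hx
      obtain ⟨y, rfl⟩ := cokernel_surj f p x
      rw [hcomp] at hx
      exact (cokernel_exact f p y).2 ((hex p y).1 hx)
    · intro x
      obtain ⟨y, rfl⟩ := hs p x
      exact ⟨((cokernel.π f).app p).hom y, hcomp p y⟩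
  exact ⟨(asIso (cokernel.desc f π hw)).symm⟩

theorem RepSum.fd {Y : PRep k P} (h : RepSum Y) : FD Y := by
  obtain ⟨J, hJ, p, ⟨e⟩⟩ := h
  exact (FD_sum fun j => FD_conv _).of_iso e.symm

theorem IsFP'.fd {M : PRep k P} (h : IsFP' M) : FD M := by
  obtain ⟨Y₁, Y₀, f, π, h1, h0, hex, hs⟩ := h
  intro p
  have := h0.fd p
  exact Module.Finite.of_surjective _ (hs p)

/-- covers over a finite poset -/
theorem exists_cover [Finite P] {M : PRep k P} (hM : FD M) :
    ∃ (Y : PRep k P) (π : Y ⟶ M), RepSum Y ∧ ∀ p, Function.Surjective (π.app p).hom := by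
  obtain ⟨m, ⟨e⟩⟩ := Finite.exists_equiv_fin P
  have hgen : ∀ p, ∃ (d : ℕ) (s : Fin d → M.obj p), Submodule.span k (Set.range s) = ⊤ := by
    intro p
    have := hM p
    exact Module.Finite.exists_fin
  choose d s hs using hgen
  let J := Σ i : Fin m, Fin (d (e.symm i))
  let pt : J → P := fun j => e.symm j.1
  let el : ∀ j : J, M.obj (pt j) := fun j => s (e.symm j.1) j.2
  refine ⟨sumRep fun j => convRep k (Set.Ici (pt j)) (isConvex_Ici (pt j)),
    sumDesc fun j => eltHom M (pt j) (el j), ⟨J, inferInstance, pt, ⟨Iso.refl _⟩⟩, ?_⟩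
  intro p
  rw [← LinearMap.range_eq_top, eq_top_iff, ← hs p, Submodule.span_le]
  rintro _ ⟨a, rfl⟩
  -- the generator number `a` at `p`
  have key : ∀ (i : Fin m) (a : Fin (d (e.symm i))), s (e.symm i) a ∈
      LinearMap.range ((sumDesc fun j => eltHom M (pt j) (el j)).app (e.symm i)).hom := by
    intro i a
    refine ⟨((sumι (fun j : J => convRep k (Set.Ici (pt j)) (isConvex_Ici (pt j))) ⟨i, a⟩).app
      (e.symm i)).hom (show PLift (e.symm i ∈ Set.Ici (pt ⟨i, a⟩)) → k from fun _ => 1), ?_⟩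
    have h1 := sumι_desc (fun j : J => eltHom M (pt j) (el j)) ⟨i, a⟩
    have h2 := congrArg (fun t => secOf t (e.symm i)) h1
    refine Eq.trans ?_ (h2.trans (secOf_eltHom_self M (pt ⟨i, a⟩) (el ⟨i, a⟩)))
    rfl
  obtain ⟨i, rfl⟩ := e.symm.surjective p
  exact key i a

theorem isFP'_of_finite [Finite P] {M : PRep k P} (hM : FD M) : IsFP' M := by
  obtain ⟨Y₀, π, h0, hs⟩ := exists_cover hM
  obtain ⟨Y₁, π', h1, hs'⟩ := exists_cover (FD_ker (isKer_kerι π) h0.fd)
  refine ⟨Y₁, Y₀, π' ≫ kerι π, π, h1, h0, ?_, hs⟩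
  intro p y
  constructor
  · intro hy
    obtain ⟨z, hz⟩ := ((isKer_kerι π).exact p y).1 hy
    obtain ⟨x, rfl⟩ := hs' p z
    exact ⟨x, hz⟩
  · rintro ⟨x, rfl⟩
    exact ((isKer_kerι π).exact p _).2 ⟨(π'.app p).hom x, rfl⟩

end fp

section fpE

variable {T : Type u} [LinearOrder T] {Q : Type v} [PartialOrder Q] {n : ℕ} {c : Fin (n + 1) ↪o T}

theorem pre_Ici (r : Fin (n + 1) × Q) : pre c (Set.Ici r) = Set.Ici (sg c r) := by
  ext p
  constructor
  · rintro ⟨h1, h2⟩
    have h3 : r.1 ≤ fl c p.1 := h2.1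
    exact ⟨(c.le_iff_le.2 h3).trans (fl_le c h1), h2.2⟩
  · rintro ⟨h1, h2⟩
    have h3 : c r.1 ≤ p.1 := h1
    exact ⟨(c.le_iff_le.2 (Fin.zero_le _)).trans h3, le_fl c h3, h2⟩

theorem conv_congr {P : Type u} [PartialOrder P] {A B : Set P} (h : A = B) (hA : IsConvex A)
    (hB : IsConvex B) : Nonempty (convRep k A hA ≅ convRep k B hB) := by
  subst h
  exact ⟨Iso.refl _⟩

theorem EE_repSum {Y : PRep k (Fin (n + 1) × Q)} (h : RepSum Y) : RepSum (EE c Y) := by
  obtain ⟨J, hJ, p, ⟨e⟩⟩ := h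
  obtain ⟨e1⟩ := EE_iso (c := c) e
  obtain ⟨e2⟩ := EE_sum (c := c) (fun j => convRep k (Set.Ici (p j)) (isConvex_Ici (p j)))
  obtain ⟨e3⟩ := sum_iso (k := k) (Y := fun j => EE c (convRep k (Set.Ici (p j)) (isConvex_Ici (p j))))
    (Y' := fun j => convRep k (Set.Ici (sg c (p j))) (isConvex_Ici (sg c (p j)))) (fun j => by
      obtain ⟨a⟩ := EE_conv (c := c) (k := k) (isConvex_Ici (p j))
      obtain ⟨b⟩ := conv_congr (k := k) (pre_Ici (c := c) (p j)) (pre_convex (isConvex_Ici (p j)))
        (isConvex_Ici (sg c (p j)))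
      exact ⟨a.trans b⟩)
  exact ⟨J, hJ, fun j => sg c (p j), ⟨e1.trans (e2.trans e3)⟩⟩

theorem isFP_EE [Finite Q] {N : PRep k (Fin (n + 1) × Q)} (hN : FD N) : IsFP (EE c N) := by
  apply isFP_of_isFP'
  obtain ⟨Y₁, Y₀, f, π, h1, h0, hex, hs⟩ := isFP'_of_finite hN
  refine ⟨EE c Y₁, EE c Y₀, Emap c f, Emap c π, EE_repSum h1, EE_repSum h0, ?_, ?_⟩
  · intro p y
    constructor
    · intro hy
      by_cases hp : c 0 ≤ p.1
      · have h2 : (π.app (ph c p)).hom (evE Y₀ p y) = 0 := by rw [← evE_Emap, hy, map_zero]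
        obtain ⟨x, hx⟩ := (hex _ _).1 h2
        obtain ⟨x', hx'⟩ := evE_surj (N := Y₁) hp x
        exact ⟨x', evE_injective (by rw [evE_Emap, hx', hx])⟩
      · exact ⟨0, evE_injective (by rw [evE_neg hp, evE_neg hp])⟩
    · rintro ⟨x, rfl⟩
      apply evE_injective
      rw [evE_Emap, evE_Emap, map_zero]
      exact (hex _ _).2 ⟨_, rfl⟩
  · intro p x
    by_cases hp : c 0 ≤ p.1
    · obtain ⟨y, hy⟩ := hs (ph c p) (evE N p x)
      obtain ⟨y', hy'⟩ := evE_surj (N := Y₀) hp y
      exact ⟨y', evE_injective (by rw [evE_Emap, hy', hy])⟩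
    · exact ⟨0, evE_injective (by rw [evE_neg hp, evE_neg hp])⟩

theorem cset_Ici {p : T × Q} (hp : p.1 ∈ Set.range c) : CSet c (Set.Ici p) := by
  obtain ⟨i, hi⟩ := hp
  intro x
  constructor
  · rintro ⟨h1, h2⟩
    rw [← hi] at h1
    refine ⟨(c.le_iff_le.2 (Fin.zero_le _)).trans h1, ?_, h2⟩
    rw [← hi]
    exact c.le_iff_le.2 (le_fl c h1)
  · rintro ⟨h0, h1, h2⟩
    exact ⟨h1.trans (fl_le c h0), h2⟩

/-- every finitely presented representation comes from a finite grid -/
theorem exists_grid [Nonempty T] {M : PRep k (T × Q)} (hM : IsFP' M) :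
    ∃ (n : ℕ) (c : Fin (n + 1) ↪o T) (N : PRep k (Fin (n + 1) × Q)), FD N ∧ Nonempty (EE c N ≅ M) := by
  classical
  have hfd := hM.fd
  obtain ⟨Y₁, Y₀, f, π, ⟨J₁, hJ₁, p₁, ⟨e₁⟩⟩, ⟨J₀, hJ₀, p₀, ⟨e₀⟩⟩, hex, hs⟩ := hM
  have := Fintype.ofFinite J₁
  have := Fintype.ofFinite J₀
  let C : Finset T := insert (Classical.arbitrary T)
    (Finset.univ.image (fun j => (p₁ j).1) ∪ Finset.univ.image (fun j => (p₀ j).1))
  have hC : C.Nonempty := ⟨_, Finset.mem_insert_self _ _⟩
  obtain ⟨n, hn⟩ : ∃ n, C.card = n + 1 := ⟨C.card - 1, by have := hC.card_pos; omega⟩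
  let c : Fin (n + 1) ↪o T := C.orderEmbOfFin hn
  have hr : ∀ t ∈ C, t ∈ Set.range c := by
    intro t ht
    rw [Finset.range_orderEmbOfFin]
    exact ht
  have hc1 : ClosedR c Y₁ := closed_of_iso e₁.symm (closed_sum fun j =>
    closed_conv _ (cset_Ici (hr _ (by simp [C]))))
  have hc0 : ClosedR c Y₀ := closed_of_iso e₀.symm (closed_sum fun j =>
    closed_conv _ (cset_Ici (hr _ (by simp [C]))))
  have hcM := closed_coker hex hs hc1 hc0
  exact ⟨n, c, resG c M, FD_res hfd, closed_iso hcM⟩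

end fpE

end Pool.Agent.Lib.MP_467d59_al
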