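import Mathlib

/-!
Definitions for representations of partially ordered sets and spread resolutions.
-/

namespace Pool.Agent.Lib.MP_467d59_al

open CategoryTheory CategoryTheory.Limits

universe u v w

/-- Representations of a partially ordered set `P` over a field `k`: functors from `P` (seen as a
category) to `k`-vector spaces. -/
abbrev PRep (k : Type w) [Field k] (P : Type u) [PartialOrder P] := P ⥤ ModuleCat.{w} k

variable {P : Type u} [PartialOrder P]

/-- A set is convex if it contains every element lying between two of its elements. -/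
def IsConvex (S : Set P) : Prop := ∀ x ∈ S, ∀ y ∈ S, ∀ p, x ≤ p → p ≤ y → p ∈ S

/-- A spread: a nonempty convex set in which any two elements are joined by a zigzag. -/
structure IsSpread (S : Set P) : Prop where
  convex : IsConvex S
  nonempty : S.Nonempty
  connected : ∀ x ∈ S, ∀ y ∈ S, Relation.ReflTransGen (fun a b => b ∈ S ∧ (a ≤ b ∨ b ≤ a)) x y

open Classical in
/-- The representation `k_S` of a convex set `S`: it is `k` on `S` (functions from the proofs of
`p ∈ S` to `k`), zero elsewhere, and all maps inside `S` are identities. -/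
noncomputable def convRep (k : Type w) [Field k] (S : Set P) (hS : IsConvex S) : PRep k P where
  obj p := ModuleCat.of k (PLift (p ∈ S) → k)
  map {p q} _ := ModuleCat.ofHom
    { toFun := fun a _ => if hp : p ∈ S then a ⟨hp⟩ else 0
      map_add' := fun a b => by
        funext _
        by_cases hp : p ∈ S
        · simp [hp]
        · simp [hp]
      map_smul' := fun c a => by
        funext _
        by_cases hp : p ∈ S
        · simp [hp]
        · simp [hp] }
  map_id p := by
    refine ModuleCat.hom_ext (LinearMap.ext fun a => ?_)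
    funext h
    simp [h.down]
  map_comp {p q r} f g := by
    refine ModuleCat.hom_ext (LinearMap.ext fun a => ?_)
    funext h
    by_cases hp : p ∈ S
    · have hq : q ∈ S := hS p hp r h.down q (leOfHom f) (leOfHom g)
      simp [hp, hq]
    · simp [hp]

theorem isConvex_Ici (p : P) : IsConvex (Set.Ici p) := fun _ hx _ _ _ hxp _ => le_trans hx hxp

instance hasFiniteBiproducts_PRep (k : Type w) [Field k] : HasFiniteBiproducts (PRep k P) :=
  Abelian.hasFiniteBiproducts

/-- Finite direct sums of representables `k_{↑ p}`. -/
def IsRepresentableSum {k : Type w} [Field k] (Y : PRep k P) : Prop :=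
  ∃ (n : ℕ) (p : Fin n → P), Nonempty (Y ≅ ⨁ fun i => convRep k (Set.Ici (p i)) (isConvex_Ici _))

/-- Finitely presented representations: cokernels of morphisms between finite direct sums of
representables. -/
def IsFP {k : Type w} [Field k] (M : PRep k P) : Prop :=
  ∃ (Y₁ Y₀ : PRep k P) (f : Y₁ ⟶ Y₀), IsRepresentableSum Y₁ ∧ IsRepresentableSum Y₀ ∧
    Nonempty (M ≅ cokernel f)

/-- Finite direct sums of spread representations. -/
def IsSpreadSum {k : Type w} [Field k] (Y : PRep k P) : Prop :=
  ∃ (n : ℕ) (S : Fin n → Set P) (hS : ∀ i, IsSpread (S i)),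
    Nonempty (Y ≅ ⨁ fun i => convRep k (S i) (hS i).convex)

/-- A finite spread-resolution of `M` of length at most `n`: an exact sequence
`⋯ → X₁ → X₀ → M → 0` of finitely presented representations with `Xᵢ = 0` for `i > n`,
each `Xᵢ` a finite direct sum of spread representations, which stays exact under `Hom(k_S, -)` for
every spread `S`. -/
structure SpreadResolution {k : Type w} [Field k] (M : PRep k P) (n : ℕ) where
  /-- the terms -/
  X : ℕ → PRep k P
  /-- the differentials -/
  d : ∀ i, X (i + 1) ⟶ X i
  /-- the augmentation -/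
  ε : X 0 ⟶ M
  fp : ∀ i, IsFP (X i)
  sum : ∀ i, IsSpreadSum (X i)
  zero : ∀ i, n < i → IsZero (X i)
  surj : ∀ p, Function.Surjective ((ε.app p).hom)
  exact_zero : ∀ p, Function.Exact ((d 0).app p).hom (ε.app p).hom
  exact_succ : ∀ i p, Function.Exact ((d (i + 1)).app p).hom ((d i).app p).hom
  hom_surj : ∀ (S : Set P) (hS : IsSpread S),
    Function.Surjective (fun f : convRep k S hS.convex ⟶ X 0 => f ≫ ε)
  hom_exact_zero : ∀ (S : Set P) (hS : IsSpread S),
    Function.Exact (fun f : convRep k S hS.convex ⟶ X 1 => f ≫ d 0) (fun f => f ≫ ε)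
  hom_exact_succ : ∀ (i : ℕ) (S : Set P) (hS : IsSpread S),
    Function.Exact (fun f : convRep k S hS.convex ⟶ X (i + 2) => f ≫ d (i + 1)) (fun f => f ≫ d i)

end Pool.Agent.Lib.MP_467d59_al
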