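import Pool.Agent.Lib.MP_467d59_al.Layers

namespace Pool.Agent.Lib.MP_467d59_al

open CategoryTheory CategoryTheory.Limits

attribute [-instance] CategoryTheory.prod CategoryTheory.prod'

universe u v w u'

variable {k : Type w} [Field k]

section floor

variable {T : Type u} [LinearOrder T] {n : ℕ} (c : Fin (n + 1) ↪o T)

/-- index of the block of `t` -/
noncomputable def fl (t : T) : Fin (n + 1) := (Finset.univ.filter (fun i => c i ≤ t)).sup id

theorem le_fl {i : Fin (n + 1)} {t : T} (h : c i ≤ t) : i ≤ fl c t :=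
  Finset.le_sup (f := id) (Finset.mem_filter.2 ⟨Finset.mem_univ i, h⟩)

theorem fl_le {t : T} (h : c 0 ≤ t) : c (fl c t) ≤ t := by
  have hne : (Finset.univ.filter (fun i => c i ≤ t)).Nonempty :=
    ⟨0, Finset.mem_filter.2 ⟨Finset.mem_univ _, h⟩⟩
  obtain ⟨i, hi, he⟩ := Finset.exists_mem_eq_sup _ hne id
  have : fl c t = i := he
  rw [this]
  exact (Finset.mem_filter.1 hi).2

theorem fl_mono {t t' : T} (h : t ≤ t') : fl c t ≤ fl c t' :=
  Finset.sup_mono (Finset.monotone_filter_right _ fun _ _ hi => le_trans hi h)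

theorem fl_c (i : Fin (n + 1)) : fl c (c i) = i := by
  apply le_antisymm
  · refine Finset.sup_le fun j hj => ?_
    exact c.le_iff_le.1 (Finset.mem_filter.1 hj).2
  · exact le_fl c le_rfl

theorem lt_of_fl_lt {t t' : T} (h : fl c t < fl c t') : t < t' := by
  by_contra hc
  push Not at hc
  exact absurd (fl_mono c hc) (not_le.2 h)

theorem fl_max (t t' : T) : fl c (max t t') = max (fl c t) (fl c t') := by
  rcases le_total t t' with h | h
  · rw [max_eq_right h, max_eq_right (fl_mono c h)]
  · rw [max_eq_left h, max_eq_left (fl_mono c h)]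

end floor

section functor

variable {T : Type u} [LinearOrder T] {Q : Type v} [PartialOrder Q] {n : ℕ} (c : Fin (n + 1) ↪o T)

/-- the block map -/
noncomputable def ph (p : T × Q) : Fin (n + 1) × Q := (fl c p.1, p.2)

/-- the section -/
def sg (r : Fin (n + 1) × Q) : T × Q := (c r.1, r.2)

theorem ph_mono {p q : T × Q} (h : p ≤ q) : ph c p ≤ ph c q := ⟨fl_mono c h.1, h.2⟩

theorem sg_mono {r s : Fin (n + 1) × Q} (h : r ≤ s) : sg c r ≤ sg c s :=
  ⟨c.le_iff_le.2 h.1, h.2⟩

omit [PartialOrder Q] in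
theorem ph_sg (r : Fin (n + 1) × Q) : ph c (sg c r) = r := by
  simp [ph, sg, fl_c]

theorem sg_ph_le {p : T × Q} (h : c 0 ≤ p.1) : sg c (ph c p) ≤ p := ⟨fl_le c h, le_rfl⟩

variable {c}

open Classical in
/-- evaluation used in the definition of the extension -/
noncomputable def evF (N : PRep k (Fin (n + 1) × Q)) (p : T × Q) :
    (PLift (c 0 ≤ p.1) → N.obj (ph c p)) →ₗ[k] N.obj (ph c p) where
  toFun a := if h : c 0 ≤ p.1 then a ⟨h⟩ else 0
  map_add' a b := by by_cases h : c 0 ≤ p.1 <;> simp [h]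
  map_smul' r a := by by_cases h : c 0 ≤ p.1 <;> simp [h]

theorem evF_pos {N : PRep k (Fin (n + 1) × Q)} {p : T × Q} (h : c 0 ≤ p.1)
    (a : PLift (c 0 ≤ p.1) → N.obj (ph c p)) : evF N p a = a ⟨h⟩ := by
  simp [evF, h]

theorem evF_neg {N : PRep k (Fin (n + 1) × Q)} {p : T × Q} (h : ¬ c 0 ≤ p.1)
    (a : PLift (c 0 ≤ p.1) → N.obj (ph c p)) : evF N p a = 0 := by
  simp [evF, h]

theorem evF_injective {N : PRep k (Fin (n + 1) × Q)} {p : T × Q}
    {a b : PLift (c 0 ≤ p.1) → N.obj (ph c p)} (h : evF N p a = evF N p b) : a = b := by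
  funext t
  rw [evF_pos t.down, evF_pos t.down] at h
  exact h

variable (c)

/-- the extension of a representation of the grid to the whole poset -/
noncomputable def EE (N : PRep k (Fin (n + 1) × Q)) : PRep k (T × Q) where
  obj p := ModuleCat.of k (PLift (c 0 ≤ p.1) → N.obj (ph c p))
  map {p q} f := ModuleCat.ofHom (LinearMap.pi fun _ =>
    (N.map (homOfLE (ph_mono c (leOfHom f)))).hom.comp (evF N p))
  map_id p := by
    refine ModuleCat.hom_ext (LinearMap.ext fun a => ?_)
    funext t
    show (N.map _).hom (evF N p a) = a t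
    rw [evF_pos t.down]
    have : homOfLE (ph_mono c (leOfHom (𝟙 p))) = 𝟙 (ph c p) := Subsingleton.elim _ _
    rw [this, N.map_id]
    rfl
  map_comp {p q r} f g := by
    refine ModuleCat.hom_ext (LinearMap.ext fun a => ?_)
    funext t
    show (N.map _).hom (evF N p a) = (N.map _).hom (evF N q (fun _ => (N.map _).hom (evF N p a)))
    have e : homOfLE (ph_mono c (leOfHom (f ≫ g))) =
        homOfLE (ph_mono c (leOfHom f)) ≫ homOfLE (ph_mono c (leOfHom g)) := Subsingleton.elim _ _
    rw [e, N.map_comp]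
    by_cases hq : c 0 ≤ q.1
    · rw [evF_pos hq]; rfl
    · have hp : ¬ c 0 ≤ p.1 := fun h => hq (h.trans (leOfHom f).1)
      rw [evF_neg hq, evF_neg hp, map_zero, map_zero]

variable {c}

/-- evaluation -/
noncomputable def evE (N : PRep k (Fin (n + 1) × Q)) (p : T × Q) :
    (EE c N).obj p →ₗ[k] N.obj (ph c p) := evF N p

theorem evE_injective {N : PRep k (Fin (n + 1) × Q)} {p : T × Q} {a b : (EE c N).obj p}
    (h : evE N p a = evE N p b) : a = b := evF_injective h

theorem evE_neg {N : PRep k (Fin (n + 1) × Q)} {p : T × Q} (h : ¬ c 0 ≤ p.1)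
    (a : (EE c N).obj p) : evE N p a = 0 := evF_neg h a

theorem evE_surj {N : PRep k (Fin (n + 1) × Q)} {p : T × Q} (h : c 0 ≤ p.1)
    (b : N.obj (ph c p)) : ∃ a : (EE c N).obj p, evE N p a = b :=
  ⟨fun _ => b, evF_pos h _⟩

theorem evE_map {N : PRep k (Fin (n + 1) × Q)} {p q : T × Q} (f : p ⟶ q) (g : ph c p ⟶ ph c q)
    (a : (EE c N).obj p) : evE N q (((EE c N).map f).hom a) = (N.map g).hom (evE N p a) := by
  have hg : g = homOfLE (ph_mono c (leOfHom f)) := Subsingleton.elim _ _
  subst hg
  by_cases hq : c 0 ≤ q.1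
  · exact evF_pos hq _
  · have hp : ¬ c 0 ≤ p.1 := fun h => hq (h.trans (leOfHom f).1)
    rw [evE_neg hq, evE_neg hp, map_zero]

variable (c)

/-- extension of morphisms -/
noncomputable def Emap {N N' : PRep k (Fin (n + 1) × Q)} (g : N ⟶ N') : EE c N ⟶ EE c N' where
  app p := ModuleCat.ofHom (LinearMap.pi fun t => (g.app (ph c p)).hom.comp (LinearMap.proj t))
  naturality p q f := by
    refine ModuleCat.hom_ext (LinearMap.ext fun a => ?_)
    funext t
    show (g.app (ph c q)).hom ((N.map _).hom (evF N p a)) =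
      (N'.map _).hom (evF N' p (fun t => (g.app (ph c p)).hom (a t)))
    rw [nat_apply]
    by_cases hp : c 0 ≤ p.1
    · rw [evF_pos hp, evF_pos hp]
    · rw [evF_neg hp, evF_neg hp, map_zero]

variable {c}

theorem evE_Emap {N N' : PRep k (Fin (n + 1) × Q)} (g : N ⟶ N') (p : T × Q) (a : (EE c N).obj p) :
    evE N' p (((Emap c g).app p).hom a) = (g.app (ph c p)).hom (evE N p a) := by
  by_cases hp : c 0 ≤ p.1
  · have h1 : evE N p a = a ⟨hp⟩ := evF_pos hp a
    rw [h1]
    exact evF_pos hp _
  · rw [evE_neg hp, evE_neg hp, map_zero]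

theorem Emap_isKer {K M N : PRep k (Fin (n + 1) × Q)} {i : K ⟶ M} {g : M ⟶ N} (h : IsKer i g) :
    IsKer (Emap c i : EE c K ⟶ EE c M) (Emap c g : EE c M ⟶ EE c N) where
  inj p := by
    intro a b hab
    apply evE_injective
    apply h.inj (ph c p)
    rw [← evE_Emap, ← evE_Emap, hab]
  exact p := by
    intro a
    constructor
    · intro ha
      by_cases hp : c 0 ≤ p.1
      · have h1 : (g.app (ph c p)).hom (evE M p a) = 0 := by
          rw [← evE_Emap, ha, map_zero]
        obtain ⟨b, hb⟩ := (h.exact (ph c p) _).1 h1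
        obtain ⟨b', hb'⟩ := evE_surj (N := K) hp b
        refine ⟨b', ?_⟩
        apply evE_injective
        rw [evE_Emap, hb', hb]
      · refine ⟨0, ?_⟩
        apply evE_injective
        rw [evE_neg hp, evE_neg hp]
    · rintro ⟨b, rfl⟩
      apply evE_injective
      rw [evE_Emap, evE_Emap, map_zero]
      exact (h.exact (ph c p) _).2 ⟨_, rfl⟩

/-- preimage of a set of the grid -/
def pre (c : Fin (n + 1) ↪o T) (S : Set (Fin (n + 1) × Q)) : Set (T × Q) :=
  {p | c 0 ≤ p.1 ∧ ph c p ∈ S}

theorem pre_convex {S : Set (Fin (n + 1) × Q)} (hS : IsConvex S) : IsConvex (pre c S) := by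
  rintro x ⟨hx1, hx2⟩ y ⟨hy1, hy2⟩ p hxp hpy
  exact ⟨hx1.trans hxp.1, hS _ hx2 _ hy2 _ (ph_mono c hxp) (ph_mono c hpy)⟩

theorem pre_spread {S : Set (Fin (n + 1) × Q)} (hS : IsSpread S) : IsSpread (pre c S) where
  convex := pre_convex hS.convex
  nonempty := by
    obtain ⟨r, hr⟩ := hS.nonempty
    refine ⟨sg c r, c.le_iff_le.2 (Fin.zero_le _), ?_⟩
    rw [ph_sg]; exact hr
  connected := by
    have hsg : ∀ r ∈ S, sg c r ∈ pre c S := by
      intro r hr
      refine ⟨c.le_iff_le.2 (Fin.zero_le _), ?_⟩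
      rw [ph_sg]; exact hr
    have key : ∀ r s, Zig S r s → Zig (pre c S) (sg c r) (sg c s) := by
      intro r s h
      induction h with
      | refl => exact Relation.ReflTransGen.refl
      | tail _ hbc ih =>
        exact ih.tail ⟨hsg _ hbc.1, hbc.2.imp (sg_mono c) (sg_mono c)⟩
    intro x hx y hy
    have h1 : Zig (pre c S) x (sg c (ph c x)) :=
      Relation.ReflTransGen.single ⟨hsg _ hx.2, Or.inr (sg_ph_le c hx.1)⟩
    have h2 : Zig (pre c S) (sg c (ph c y)) y :=
      Relation.ReflTransGen.single ⟨hy, Or.inl (sg_ph_le c hy.1)⟩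
    exact (h1.trans (key _ _ (hS.connected _ hx.2 _ hy.2))).trans h2

/-- typed version of `evS` -/
noncomputable def evC {P : Type*} [PartialOrder P] {S : Set P} (hS : IsConvex S) (p : P) :
    (convRep k S hS).obj p →ₗ[k] k := evS k S p

theorem EE_conv {S : Set (Fin (n + 1) × Q)} (hS : IsConvex S) :
    Nonempty (EE c (convRep k S hS) ≅ convRep k (pre c S) (pre_convex hS)) := by
  let g : EE c (convRep k S hS) ⟶ convRep k (pre c S) (pre_convex hS) :=
    { app := fun p => ModuleCat.ofHom (LinearMap.pi fun _ : PLift (p ∈ pre c S) =>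
        (evC hS (ph c p)).comp (evE (convRep k S hS) p))
      naturality := by
        intro p q f
        refine ModuleCat.hom_ext (LinearMap.ext fun a => ?_)
        funext t
        show evS k S (ph c q) (evE _ q (((EE c (convRep k S hS)).map f).hom a)) =
          evS k (pre c S) p (fun _ => evS k S (ph c p) (evE _ p a))
        rw [evE_map f (homOfLE (ph_mono c (leOfHom f))) a]
        refine (evS_map hS _ _ t.down.2).trans ?_
        by_cases hp : p ∈ pre c S
        · rw [evS_of_mem hp]
        · rw [evS_of_notMem hp]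
          by_cases hp1 : c 0 ≤ p.1
          · exact evS_of_notMem (fun h => hp ⟨hp1, h⟩) _
          · rw [evE_neg hp1]; exact map_zero _ }
  have hg : IsIso g := by
    apply isIso_of_bijective
    intro p
    constructor
    · intro a b hab
      apply evE_injective
      by_cases hp : c 0 ≤ p.1
      · by_cases hp2 : ph c p ∈ S
        · exact evS_injective (congrFun hab ⟨⟨hp, hp2⟩⟩)
        · funext t; exact absurd t.down hp2
      · rw [evE_neg hp, evE_neg hp]
    · intro b
      by_cases hp : p ∈ pre c S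
      · obtain ⟨a, ha⟩ := evE_surj (N := convRep k S hS) hp.1
          (show PLift (ph c p ∈ S) → k from fun _ => (b : PLift (p ∈ pre c S) → k) ⟨hp⟩)
        refine ⟨a, ?_⟩
        funext t
        show evS k S (ph c p) (evE _ p a) = _
        rw [ha]
        exact evS_of_mem hp.2 _
      · exact ⟨0, by funext t; exact absurd t.down hp⟩
  exact ⟨asIso g⟩

theorem EE_sum {J : Type} (Y : J → PRep k (Fin (n + 1) × Q)) :
    Nonempty (EE c (sumRep Y) ≅ sumRep (fun j => EE c (Y j))) := by
  let g : EE c (sumRep Y) ⟶ sumRep (fun j => EE c (Y j)) := sumLift fun j => Emap c (sumπ Y j)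
  have hg : IsIso g := by
    apply isIso_of_bijective
    intro p
    constructor
    · intro a b hab
      funext t
      funext j
      exact congrFun (congrFun hab j) t
    · intro b
      exact ⟨fun t j => b j t, rfl⟩
  exact ⟨asIso g⟩

/-- extension of isomorphisms -/
theorem EE_iso {N N' : PRep k (Fin (n + 1) × Q)} (e : N ≅ N') : Nonempty (EE c N ≅ EE c N') := by
  have hg : IsIso (Emap c e.hom) := by
    apply isIso_of_bijective
    intro p
    constructor
    · intro a b hab
      apply evE_injective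
      apply (bijective_of_isIso e (ph c p)).1
      rw [← evE_Emap, ← evE_Emap, hab]
    · intro b
      by_cases hp : c 0 ≤ p.1
      · obtain ⟨a, ha⟩ := (bijective_of_isIso e (ph c p)).2 (evE _ p b)
        obtain ⟨a', ha'⟩ := evE_surj (N := N) hp a
        exact ⟨a', evE_injective (by rw [evE_Emap, ha', ha])⟩
      · exact ⟨0, evE_injective (by rw [evE_neg hp, evE_neg hp])⟩
  exact ⟨asIso (Emap c e.hom)⟩

/-- sums of isomorphic representations -/
theorem sum_iso {P : Type u} [PartialOrder P] {J : Type} {Y Y' : J → PRep k P}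
    (e : ∀ j, Nonempty (Y j ≅ Y' j)) : Nonempty (sumRep Y ≅ sumRep Y') := by
  let g : sumRep Y ⟶ sumRep Y' := sumLift fun j => sumπ Y j ≫ (e j).some.hom
  have hg : IsIso g := by
    apply isIso_of_bijective
    intro p
    constructor
    · intro a b hab
      funext j
      apply (bijective_of_isIso (e j).some p).1
      exact congrFun hab j
    · intro b
      choose a ha using fun j => (bijective_of_isIso (e j).some p).2 (b j)
      exact ⟨a, funext ha⟩
  exact ⟨asIso g⟩

theorem EE_isSum' {N : PRep k (Fin (n + 1) × Q)} (h : IsSum' N) : IsSum' (EE c N) := by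
  obtain ⟨J, hJ, S, hS, ⟨e⟩⟩ := h
  obtain ⟨e1⟩ := EE_iso (c := c) e
  obtain ⟨e2⟩ := EE_sum (c := c) (fun j => convRep k (S j) (hS j).convex)
  obtain ⟨e3⟩ := sum_iso (fun j => EE_conv (c := c) (k := k) (hS j).convex)
  exact ⟨J, hJ, fun j => pre c (S j), fun j => pre_spread (hS j), ⟨e1.trans (e2.trans e3)⟩⟩

theorem FD_EE {N : PRep k (Fin (n + 1) × Q)} (h : FD N) : FD (EE c N) := by
  intro p
  have := h (ph c p)
  exact inferInstanceAs (Module.Finite k (PLift (c 0 ≤ p.1) → N.obj (ph c p)))

end functor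

end Pool.Agent.Lib.MP_467d59_al
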