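import Pool.Agent.Lib.MP_467d59_al.Grid

namespace Pool.Agent.Lib.MP_467d59_al

open CategoryTheory CategoryTheory.Limits

attribute [-instance] CategoryTheory.prod CategoryTheory.prod'

universe u v w

variable {k : Type w} [Field k] {P : Type u} [PartialOrder P]

/-- the zero representation -/
noncomputable def ZR (k : Type w) [Field k] (P : Type u) [PartialOrder P] : PRep k P :=
  sumRep (J := Empty) fun e => e.elim

theorem ZR_elt (p : P) (x y : (ZR k P).obj p) : x = y := by
  funext e; exact e.elim

theorem isZero_ZR : IsZero (ZR k P) := by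
  rw [IsZero.iff_id_eq_zero]
  refine NatTrans.ext (funext fun p => ModuleCat.hom_ext (LinearMap.ext fun a => ?_))
  exact ZR_elt p _ _

theorem repSum_ZR : RepSum (ZR k P) := by
  refine ⟨Empty, inferInstance, fun e => e.elim, ?_⟩
  have h : (fun e : Empty => (e.elim : PRep k P)) =
      fun e : Empty => convRep k (Set.Ici (e.elim : P)) (isConvex_Ici _) := by
    funext e; exact e.elim
  exact ⟨eqToIso (congrArg sumRep h)⟩

theorem isSum'_ZR : IsSum' (ZR k P) := by
  refine ⟨Empty, inferInstance, fun e => e.elim, fun e => e.elim, ?_⟩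
  have h : (fun e : Empty => (e.elim : PRep k P)) =
      fun e : Empty => convRep k (e.elim : Set P) (e.elim : IsConvex (e.elim : Set P)) := by
    funext e; exact e.elim
  exact ⟨eqToIso (congrArg sumRep h)⟩

theorem isFP_ZR : IsFP (ZR k P) := by
  apply isFP_of_isFP'
  refine ⟨ZR k P, ZR k P, 0, 𝟙 _, repSum_ZR, repSum_ZR, ?_, ?_⟩
  · intro p y
    exact ⟨fun _ => ⟨0, ZR_elt p _ _⟩, fun _ => ZR_elt p _ _⟩
  · intro p y
    exact ⟨0, ZR_elt p _ _⟩

theorem exists_resolution (n : ℕ) : ∀ M : PRep k P, SpRes IsFP n M →
    Nonempty (SpreadResolution M n) := by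
  induction n with
  | zero =>
    rintro M ⟨hs, hf⟩
    have hzero : ∀ {Z Y : PRep k P} (f : Z ⟶ Y) (p : P) (x : Z.obj p), IsZero Z → x = 0 := by
      intro Z Y f p x hZ
      have h1 : 𝟙 Z = 0 := hZ.eq_of_src _ _
      have h2 := congrArg (fun t : Z ⟶ Z => (t.app p).hom x) h1
      exact h2
    refine ⟨{
      X := fun i => match i with
        | 0 => M
        | _ + 1 => ZR k P
      d := fun i => 0
      ε := 𝟙 M
      fp := fun i => match i with
        | 0 => hf
        | _ + 1 => isFP_ZR
      sum := fun i => match i with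
        | 0 => isSum'_to hs
        | _ + 1 => isSum'_to isSum'_ZR
      zero := fun i hi => match i, hi with
        | _ + 1, _ => isZero_ZR
      surj := fun p x => ⟨x, rfl⟩
      exact_zero := ?_
      exact_succ := ?_
      hom_surj := ?_
      hom_exact_zero := ?_
      hom_exact_succ := ?_ }⟩
    · intro p y
      constructor
      · intro h
        have h' : y = 0 := h
        exact ⟨0, by rw [map_zero]; exact h'.symm⟩
      · rintro ⟨x, rfl⟩
        rfl
    · intro i p y
      exact ⟨fun _ => ⟨0, ZR_elt p _ _⟩, fun _ => rfl⟩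
    · intro S hS f
      exact ⟨f, Category.comp_id f⟩
    · intro S hS f
      constructor
      · intro h
        have h' : f ≫ 𝟙 M = 0 := h
        rw [Category.comp_id] at h'
        exact ⟨0, by rw [h']; exact comp_zero⟩
      · rintro ⟨x, rfl⟩
        show (x ≫ (0 : ZR k P ⟶ M)) ≫ 𝟙 M = 0
        rw [comp_zero, zero_comp]
    · intro i S hS f
      constructor
      · intro _
        exact ⟨0, isZero_ZR.eq_of_tgt _ _⟩
      · intro _
        exact comp_zero
  | succ n ih =>
    rintro M ⟨Y, K, ι, g, hY, hYf, hK, hg, hKn⟩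
    obtain ⟨R⟩ := ih K hKn
    refine ⟨{
      X := fun i => match i with
        | 0 => Y
        | j + 1 => R.X j
      d := fun i => match i with
        | 0 => R.ε ≫ ι
        | j + 1 => R.d j
      ε := g
      fp := fun i => match i with
        | 0 => hYf
        | j + 1 => R.fp j
      sum := fun i => match i with
        | 0 => isSum'_to hY
        | j + 1 => R.sum j
      zero := fun i hi => match i, hi with
        | j + 1, hi => R.zero j (by omega)
      surj := hg.surjective
      exact_zero := ?_
      exact_succ := ?_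
      hom_surj := fun S hS f => hg S hS f
      hom_exact_zero := ?_
      hom_exact_succ := ?_ }⟩
    · intro p y
      constructor
      · intro h
        obtain ⟨z, hz⟩ := (hK.exact p y).1 h
        obtain ⟨x, rfl⟩ := R.surj p z
        exact ⟨x, hz⟩
      · rintro ⟨x, rfl⟩
        exact (hK.exact p _).2 ⟨(R.ε.app p).hom x, rfl⟩
    · intro i p
      match i with
      | 0 =>
        intro y
        have h1 : ((ι.app p).hom ((R.ε.app p).hom y) = 0) ↔ (R.ε.app p).hom y = 0 := by
          constructor
          · intro h
            apply hK.inj p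
            rw [h, map_zero]
          · intro h; rw [h, map_zero]
        exact h1.trans (R.exact_zero p y)
      | j + 1 => exact R.exact_succ j p
    · intro S hS f
      constructor
      · intro h
        obtain ⟨f', hf'⟩ := hK.lift f h
        obtain ⟨f'', hf''⟩ := R.hom_surj S hS f'
        refine ⟨f'', ?_⟩
        have h2 : f'' ≫ R.ε = f' := hf''
        show f'' ≫ R.ε ≫ ι = f
        rw [← Category.assoc, h2, hf']
      · rintro ⟨x, rfl⟩
        show (x ≫ R.ε ≫ ι) ≫ g = 0
        rw [Category.assoc, Category.assoc, hK.comp, comp_zero, comp_zero]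
    · intro i S hS
      match i with
      | 0 =>
        intro f
        have h1 : f ≫ (R.ε ≫ ι) = 0 ↔ f ≫ R.ε = 0 := by
          constructor
          · intro h
            apply hK.hom_ext
            rw [Category.assoc, h, zero_comp]
          · intro h
            rw [← Category.assoc, h, zero_comp]
        exact h1.trans (R.hom_exact_zero S hS f)
      | j + 1 => exact R.hom_exact_succ j S hS

theorem empty_case [IsEmpty P] (n : ℕ) (M : PRep k P) (hM : IsFP M) : SpRes IsFP n M := by
  have hs : IsSum' M := by
    obtain ⟨J, hJ, S, hS, ⟨e⟩⟩ := isSum'_ZR (k := k) (P := P)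
    have hiso : IsIso (0 : M ⟶ ZR k P) := isIso_of_bijective _ fun p => isEmptyElim p
    exact ⟨J, hJ, S, hS, ⟨(asIso (0 : M ⟶ ZR k P)).trans e⟩⟩
  induction n with
  | zero => exact ⟨hs, hM⟩
  | succ n ih =>
    exact ⟨M, M, 0, 0, hs, hM, ⟨fun p => isEmptyElim p, fun p => isEmptyElim p⟩,
      fun S hS => isEmptyElim hS.nonempty.some, ih⟩

theorem main (Q : Type v) [PartialOrder Q] [Finite Q] :
    ∃ N : ℕ, ∀ (k : Type w) [Field k] (T : Type u) [LinearOrder T] (M : PRep k (T × Q)),
      IsFP M → Nonempty (SpreadResolution M N) := by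
  obtain ⟨m, hm⟩ := main_spRes.{u, v, w} Q
  refine ⟨m, fun k _ T _ M hM => exists_resolution m M ?_⟩
  cases isEmpty_or_nonempty T with
  | inl h => exact empty_case m M hM
  | inr h => exact hm k T M hM

end Pool.Agent.Lib.MP_467d59_al
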