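import Mathlib

/-!
Resolutions of modules by finite products of members of a given family of projective modules.
-/

namespace Pool.Agent.Lib.MP_467d59_al

open Function

universe v u w

section

variable {Γ : Type u} [Ring Γ] {ι : Type w} (P : ι → Type v) [∀ i, AddCommGroup (P i)]
  [∀ i, Module Γ (P i)]

/-- `HasRes P n F`: the module `F` has a resolution of length at most `n` by finite products of
members of the family `P`. -/
def HasRes : ℕ → ModuleCat.{v} Γ → Prop
  | 0, F => ∃ (J : Type) (_ : Finite J) (s : J → ι), Nonempty (F ≃ₗ[Γ] (∀ j, P (s j)))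
  | n + 1, F => ∃ (J : Type) (_ : Finite J) (s : J → ι) (π : (∀ j, P (s j)) →ₗ[Γ] F),
      Function.Surjective π ∧ HasRes n (ModuleCat.of Γ (LinearMap.ker π))

variable {P}

theorem HasRes.congr {n : ℕ} : ∀ {F F' : Type v} [AddCommGroup F] [Module Γ F] [AddCommGroup F']
    [Module Γ F'] (_ : F ≃ₗ[Γ] F'), HasRes P n (ModuleCat.of Γ F) →
      HasRes P n (ModuleCat.of Γ F') := by
  induction n with
  | zero =>
    rintro F F' _ _ _ _ e ⟨J, hJ, s, ⟨f⟩⟩
    exact ⟨J, hJ, s, ⟨e.symm.trans f⟩⟩
  | succ n ih =>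
    rintro F F' _ _ _ _ e ⟨J, hJ, s, π, hπ, h⟩
    refine ⟨J, hJ, s, e.toLinearMap.comp π, e.surjective.comp hπ, ?_⟩
    have hk : LinearMap.ker (e.toLinearMap.comp π) = LinearMap.ker π := by
      rw [LinearMap.ker_comp]
      ext x
      simp
    exact ih (LinearEquiv.ofEq _ _ hk.symm) h

theorem HasRes.of_subsingleton (F : Type v) [AddCommGroup F] [Module Γ F] [Subsingleton F] :
    HasRes P 0 (ModuleCat.of Γ F) := by
  refine ⟨Empty, inferInstance, fun e => e.elim, ⟨?_⟩⟩
  exact { toFun := fun _ e => e.elim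
          invFun := fun _ => 0
          map_add' := fun _ _ => by ext e; exact e.elim
          map_smul' := fun _ _ => by ext e; exact e.elim
          left_inv := fun _ => Subsingleton.elim _ _
          right_inv := fun _ => by ext e; exact e.elim }

theorem HasRes.succ {n : ℕ} : ∀ {F : Type v} [AddCommGroup F] [Module Γ F],
    HasRes P n (ModuleCat.of Γ F) → HasRes P (n + 1) (ModuleCat.of Γ F) := by
  induction n with
  | zero =>
    rintro F _ _ ⟨J, hJ, s, ⟨f⟩⟩
    refine ⟨J, hJ, s, f.symm.toLinearMap, f.symm.surjective, ?_⟩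
    have hk : LinearMap.ker f.symm.toLinearMap = ⊥ := f.symm.ker
    have : Subsingleton (LinearMap.ker f.symm.toLinearMap) := by
      rw [hk]; infer_instance
    exact HasRes.of_subsingleton _
  | succ n ih =>
    rintro F _ _ ⟨J, hJ, s, π, hπ, h⟩
    exact ⟨J, hJ, s, π, hπ, ih h⟩

theorem HasRes.mono {n m : ℕ} (hnm : n ≤ m) {F : Type v} [AddCommGroup F] [Module Γ F]
    (h : HasRes P n (ModuleCat.of Γ F)) : HasRes P m (ModuleCat.of Γ F) := by
  induction hnm with
  | refl => exact h
  | step _ ih => exact ih.succ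

theorem proj_pi {J : Type} [Finite J] {Q : J → Type v} [∀ j, AddCommGroup (Q j)]
    [∀ j, Module Γ (Q j)] (h : ∀ j, Module.Projective Γ (Q j)) : Module.Projective Γ (∀ j, Q j) := by
  classical
  have := Fintype.ofFinite J
  exact Module.Projective.of_equiv (DirectSum.linearEquivFunOnFintype Γ J Q)

/-- products over a sum type -/
def sumPi {J J' : Type} (s : J → ι) (s' : J' → ι) :
    (∀ j, P (Sum.elim s s' j)) ≃ₗ[Γ] (∀ j, P (s j)) × (∀ j, P (s' j)) where
  toFun f := (fun j => f (Sum.inl j), fun j => f (Sum.inr j))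
  invFun f := fun j => match j with
    | Sum.inl j => f.1 j
    | Sum.inr j => f.2 j
  map_add' _ _ := rfl
  map_smul' _ _ := rfl
  left_inv f := by funext j; cases j <;> rfl
  right_inv _ := rfl

theorem horseshoe (hP : ∀ i, Module.Projective Γ (P i)) (n : ℕ) :
    ∀ {F' F F'' : Type v} [AddCommGroup F'] [Module Γ F'] [AddCommGroup F] [Module Γ F]
      [AddCommGroup F''] [Module Γ F''] (f : F' →ₗ[Γ] F) (g : F →ₗ[Γ] F'') (_ : Injective f)
      (_ : Surjective g) (_ : ∀ x, g x = 0 ↔ ∃ y, f y = x), HasRes P n (ModuleCat.of Γ F') →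
      HasRes P n (ModuleCat.of Γ F'') → HasRes P n (ModuleCat.of Γ F) := by
  induction n with
  | zero =>
    rintro F' F F'' _ _ _ _ _ _ f g hf hg hfg ⟨J', hJ', s', ⟨e'⟩⟩ ⟨J'', hJ'', s'', ⟨e''⟩⟩
    have : Module.Projective Γ (∀ j, P (s'' j)) := proj_pi fun j => hP _
    have hF'' : Module.Projective Γ F'' := Module.Projective.of_equiv e''.symm
    obtain ⟨σ, hσ⟩ := Module.projective_lifting_property g LinearMap.id hg
    have hσ' : ∀ x, g (σ x) = x := fun x => LinearMap.congr_fun hσ x
    have hbij : Bijective (LinearMap.coprod f σ) := by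
      constructor
      · rw [injective_iff_map_eq_zero]
        rintro ⟨x, y⟩ h
        simp only [LinearMap.coprod_apply] at h
        have h1 : g (f x + σ y) = 0 := by rw [h, map_zero]
        rw [map_add, hσ', (hfg (f x)).2 ⟨x, rfl⟩, zero_add] at h1
        rw [h1, map_zero, add_zero] at h
        rw [(injective_iff_map_eq_zero f).1 hf x h, h1]
        rfl
      · intro x
        obtain ⟨y, hy⟩ := (hfg (x - σ (g x))).1 (by rw [map_sub, hσ', sub_self])
        exact ⟨(y, g x), by simp only [LinearMap.coprod_apply]; rw [hy]; abel⟩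
    have e1 : (F' × F'') ≃ₗ[Γ] F := LinearEquiv.ofBijective _ hbij
    have e2 : (F' × F'') ≃ₗ[Γ] (∀ j, P (s' j)) × (∀ j, P (s'' j)) := LinearEquiv.prodCongr e' e''
    exact ⟨J' ⊕ J'', inferInstance, Sum.elim s' s'', ⟨e1.symm.trans (e2.trans (sumPi s' s'').symm)⟩⟩
  | succ n ih =>
    rintro F' F F'' _ _ _ _ _ _ f g hf hg hfg ⟨J', hJ', s', π', hπ', h'⟩ ⟨J'', hJ'', s'', π'', hπ'', h''⟩
    have : Module.Projective Γ (∀ j, P (s'' j)) := proj_pi fun j => hP _
    obtain ⟨ρ, hρ⟩ := Module.projective_lifting_property g π'' hg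
    have hρ' : ∀ x, g (ρ x) = π'' x := fun x => LinearMap.congr_fun hρ x
    set π0 : ((∀ j, P (s' j)) × (∀ j, P (s'' j))) →ₗ[Γ] F :=
      LinearMap.coprod (f.comp π') ρ with hπ0
    have hπ0a : ∀ x, π0 x = f (π' x.1) + ρ x.2 := fun x => rfl
    have hsurj : Surjective π0 := by
      intro x
      obtain ⟨y, hy⟩ := hπ'' (g x)
      obtain ⟨z, hz⟩ := (hfg (x - ρ y)).1 (by rw [map_sub, hρ', hy, sub_self])
      obtain ⟨t, rfl⟩ := hπ' z
      exact ⟨(t, y), by rw [hπ0a, hz]; abel⟩
    refine ⟨J' ⊕ J'', inferInstance, Sum.elim s' s'', π0.comp (sumPi s' s'').toLinearMap,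
      hsurj.comp (sumPi s' s'').surjective, ?_⟩
    -- the kernel
    let fK : LinearMap.ker π' →ₗ[Γ] LinearMap.ker π0 :=
      LinearMap.codRestrict _ ((LinearMap.inl Γ _ _).comp (LinearMap.ker π').subtype) (by
        rintro ⟨x, hx⟩
        rw [LinearMap.mem_ker] at hx ⊢
        rw [hπ0a]
        simp only [LinearMap.comp_apply, Submodule.subtype_apply, LinearMap.inl_apply, hx, map_zero,
          add_zero])
    let gK : LinearMap.ker π0 →ₗ[Γ] LinearMap.ker π'' :=
      LinearMap.codRestrict _ ((LinearMap.snd Γ _ _).comp (LinearMap.ker π0).subtype) (by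
        rintro ⟨x, hx⟩
        rw [LinearMap.mem_ker, hπ0a] at hx
        rw [LinearMap.mem_ker]
        simp only [LinearMap.comp_apply, Submodule.subtype_apply, LinearMap.snd_apply]
        have := congrArg g hx
        rw [map_add, hρ', (hfg (f (π' x.1))).2 ⟨_, rfl⟩, zero_add, map_zero] at this
        exact this)
    have hK : HasRes P n (ModuleCat.of Γ (LinearMap.ker π0)) := by
      refine ih fK gK ?_ ?_ ?_ h' h''
      · intro x y hxy
        have := congrArg (fun t : LinearMap.ker π0 => t.1.1) hxy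
        exact Subtype.ext this
      · rintro ⟨y, hy⟩
        rw [LinearMap.mem_ker] at hy
        obtain ⟨z, hz⟩ := (hfg (- ρ y)).1 (by rw [map_neg, hρ', hy, neg_zero])
        obtain ⟨t, rfl⟩ := hπ' z
        exact ⟨⟨(t, y), by rw [LinearMap.mem_ker, hπ0a, hz]; abel⟩, rfl⟩
      · rintro ⟨⟨x, y⟩, hxy⟩
        constructor
        · intro h
          have hy : y = 0 := congrArg Subtype.val h
          subst hy
          rw [LinearMap.mem_ker, hπ0a, map_zero, add_zero] at hxy
          refine ⟨⟨x, ?_⟩, rfl⟩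
          rw [LinearMap.mem_ker]
          exact (injective_iff_map_eq_zero f).1 hf _ hxy
        · rintro ⟨z, hz⟩
          apply Subtype.ext
          show y = 0
          exact (congrArg (fun t : LinearMap.ker π0 => t.1.2) hz).symm
    refine hK.congr ?_
    refine (LinearEquiv.ofSubmodules (sumPi s' s'') _ _ ?_).symm
    ext x
    rw [Submodule.mem_map]
    constructor
    · rintro ⟨y, hy, rfl⟩
      exact hy
    · intro hx
      refine ⟨(sumPi s' s'').symm x, ?_, (sumPi s' s'').apply_symm_apply x⟩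
      rw [LinearMap.mem_ker, LinearMap.comp_apply]
      have : (sumPi s' s'').toLinearMap ((sumPi s' s'').symm x) = x :=
        (sumPi (P := P) (Γ := Γ) s' s'').apply_symm_apply x
      rw [this]
      exact hx

theorem cone (hP : ∀ i, Module.Projective Γ (P i)) (n : ℕ)
    {F' F F'' : Type v} [AddCommGroup F'] [Module Γ F'] [AddCommGroup F] [Module Γ F]
      [AddCommGroup F''] [Module Γ F''] (f : F' →ₗ[Γ] F) (g : F →ₗ[Γ] F'') (hf : Injective f)
      (hg : Surjective g) (hfg : ∀ x, g x = 0 ↔ ∃ y, f y = x) (h' : HasRes P n (ModuleCat.of Γ F'))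
      (h : HasRes P (n + 1) (ModuleCat.of Γ F)) : HasRes P (n + 1) (ModuleCat.of Γ F'') := by
  obtain ⟨J, hJ, s, π, hπ, hK⟩ := h
  refine ⟨J, hJ, s, g.comp π, hg.comp hπ, ?_⟩
  have hle : LinearMap.ker π ≤ LinearMap.ker (g.comp π) := by
    intro x hx
    rw [LinearMap.mem_ker] at hx ⊢
    rw [LinearMap.comp_apply, hx, map_zero]
  have hmem : ∀ x : LinearMap.ker (g.comp π), ∃ y, f y = π x.1 := by
    rintro ⟨x, hx⟩
    exact (hfg (π x)).1 hx
  choose c hc using hmem
  let gK : LinearMap.ker (g.comp π) →ₗ[Γ] F' :=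
    { toFun := c
      map_add' := by
        intro x y
        apply hf
        rw [hc, map_add, hc, hc]
        simp
      map_smul' := by
        intro r x
        apply hf
        rw [hc, RingHom.id_apply, map_smul, hc]
        simp }
  have hgK : ∀ x, f (gK x) = π x.1 := hc
  refine horseshoe hP n (Submodule.inclusion hle) gK (Submodule.inclusion_injective hle) ?_ ?_ hK h'
  · intro y
    obtain ⟨x, hx⟩ := hπ (f y)
    refine ⟨⟨x, ?_⟩, ?_⟩
    · rw [LinearMap.mem_ker, LinearMap.comp_apply, hx]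
      exact (hfg _).2 ⟨y, rfl⟩
    · apply hf
      rw [hgK, hx]
  · intro x
    constructor
    · intro h
      have : π x.1 = 0 := by rw [← hgK, h, map_zero]
      exact ⟨⟨x.1, this⟩, rfl⟩
    · rintro ⟨y, rfl⟩
      apply hf
      rw [hgK, map_zero]
      exact y.2

/-- properties of a family of local projective modules generating all modules -/
structure GoodFam (P : ι → Type v) [∀ i, AddCommGroup (P i)]
    [∀ i, Module Γ (P i)] (rad : ∀ i, Submodule Γ (P i)) : Prop where
  proj : ∀ i, Module.Projective Γ (P i)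
  gen : ∀ (F : Type v) [AddCommGroup F] [Module Γ F], Nontrivial F → ∃ i, ∃ f : P i →ₗ[Γ] F, f ≠ 0
  max : ∀ i (N : Submodule Γ (P i)), N ≠ ⊤ → N ≤ rad i
  proper : ∀ i, rad i ≠ ⊤

variable {rad : ∀ i, Submodule Γ (P i)}

theorem GoodFam.simple (hG : GoodFam P rad) (F : Type v) [AddCommGroup F] [Module Γ F]
    [IsSimpleModule Γ F] : ∃ i, (∃ f : P i →ₗ[Γ] F, f ≠ 0) ∧ Nonempty ((P i ⧸ rad i) ≃ₗ[Γ] F) := by
  have : Nontrivial F := IsSimpleModule.nontrivial Γ F
  obtain ⟨i, f, hf⟩ := hG.gen F this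
  refine ⟨i, ⟨f, hf⟩, ?_⟩
  have hs : Function.Surjective f := by
    rcases eq_bot_or_eq_top (LinearMap.range f) with h | h
    · exact absurd (LinearMap.range_eq_bot.1 h) hf
    · exact LinearMap.range_eq_top.1 h
  have hk : LinearMap.ker f = rad i := by
    have h1 : LinearMap.ker f ≠ ⊤ := by
      intro h; exact hf (LinearMap.ker_eq_top.1 h)
    have h2 := hG.max i _ h1
    have h3 : IsCoatom (LinearMap.ker f) := by
      have e := f.quotKerEquivOfSurjective hs
      have : IsSimpleModule Γ (P i ⧸ LinearMap.ker f) := IsSimpleModule.congr e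
      exact isSimpleModule_iff_isCoatom.1 this
    exact h3.le_iff.1 h2 |>.resolve_left (hG.proper i) |>.symm
  rw [← hk]
  exact ⟨f.quotKerEquivOfSurjective hs⟩

theorem filtration (hG : GoodFam P rad) (I : Set ι) (n : ℕ)
    (hI : ∀ i ∈ I, HasRes P n (ModuleCat.of Γ (P i ⧸ rad i))) {F : Type v} [AddCommGroup F]
    [Module Γ F] (hfl : IsFiniteLength Γ F) (hF : ∀ i ∉ I, ∀ f : P i →ₗ[Γ] F, f = 0) :
    HasRes P n (ModuleCat.of Γ F) := by
  induction hfl with
  | of_subsingleton => exact (HasRes.of_subsingleton _).mono (Nat.zero_le _)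
  | @of_simple_quotient M _ _ N _ _ ih =>
    refine horseshoe hG.proj n N.subtype N.mkQ N.injective_subtype N.mkQ_surjective ?_ (ih ?_) ?_
    · intro x
      rw [Submodule.mkQ_apply, Submodule.Quotient.mk_eq_zero]
      exact ⟨fun h => ⟨⟨x, h⟩, rfl⟩, fun ⟨y, hy⟩ => hy ▸ y.2⟩
    · intro i hi f
      have := hF i hi (N.subtype.comp f)
      ext x
      have h2 := LinearMap.congr_fun this x
      simpa using h2
    · obtain ⟨i, ⟨f, hf⟩, ⟨e⟩⟩ := hG.simple (M ⧸ N)
      by_cases hi : i ∈ I
      · exact (hI i hi).congr e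
      · exfalso
        apply hf
        have := hG.proj i
        obtain ⟨g, hg⟩ := Module.projective_lifting_property N.mkQ f N.mkQ_surjective
        rw [← hg, hF i hi g, LinearMap.comp_zero]

/-- The step in the layering argument. -/
theorem layer_step (hG : GoodFam P rad) (I : Set ι) (n : ℕ)
    (hI : ∀ i ∈ I, HasRes P n (ModuleCat.of Γ (P i ⧸ rad i))) (i : ι)
    (hfl : IsFiniteLength Γ (P i)) (W : Submodule Γ (P i)) (hW : W ≤ rad i)
    (hW0 : HasRes P 0 (ModuleCat.of Γ W))
    (hv : ∀ j ∉ I, ∀ f : P j →ₗ[Γ] P i, (∀ x, f x ∈ rad i) → ∀ x, f x ∈ W) :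
    HasRes P (n + 1) (ModuleCat.of Γ (P i ⧸ rad i)) := by
  have hQ : HasRes P 1 (ModuleCat.of Γ (P i ⧸ W)) := by
    refine cone hG.proj 0 W.subtype W.mkQ W.injective_subtype W.mkQ_surjective ?_ hW0 ?_
    · intro x
      rw [Submodule.mkQ_apply, Submodule.Quotient.mk_eq_zero]
      exact ⟨fun h => ⟨⟨x, h⟩, rfl⟩, fun ⟨y, hy⟩ => hy ▸ y.2⟩
    · apply HasRes.succ
      exact ⟨Unit, inferInstance, fun _ => i, ⟨(LinearEquiv.funUnique Unit Γ (P i)).symm⟩⟩
  -- the radical modulo `W`
  set R := Submodule.map W.mkQ (rad i) with hR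
  have hRn : HasRes P n (ModuleCat.of Γ R) := by
    refine filtration hG I n hI ?_ ?_
    · rw [isFiniteLength_iff_isNoetherian_isArtinian] at hfl ⊢
      obtain ⟨h1, h2⟩ := hfl
      exact ⟨inferInstance, inferInstance⟩
    · intro j hj f
      have := hG.proj j
      have hsurj : Surjective (W.mkQ.restrict (p := rad i) (q := R)
          (fun x hx => Submodule.mem_map_of_mem hx)) := by
        rintro ⟨y, hy⟩
        obtain ⟨x, hx, rfl⟩ := (Submodule.mem_map).1 hy
        exact ⟨⟨x, hx⟩, rfl⟩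
      obtain ⟨g, hg⟩ := Module.projective_lifting_property _ f hsurj
      ext x
      have h1 := hv j hj ((rad i).subtype.comp g) (fun x => (g x).2) x
      rw [← hg]
      have h2 : W.mkQ ((g x : P i)) = 0 := by
        rw [Submodule.mkQ_apply, Submodule.Quotient.mk_eq_zero]; exact h1
      exact h2
  refine cone hG.proj n R.subtype (W.mapQ (rad i) LinearMap.id (by simpa using hW))
    R.injective_subtype ?_ ?_ hRn (hQ.mono (by omega))
  · intro x
    induction x using Submodule.Quotient.induction_on with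
    | _ y => exact ⟨Submodule.Quotient.mk y, rfl⟩
  · intro x
    induction x using Submodule.Quotient.induction_on with
    | _ y =>
      rw [Submodule.mapQ_apply, LinearMap.id_apply, Submodule.Quotient.mk_eq_zero]
      constructor
      · intro hy
        exact ⟨⟨W.mkQ y, Submodule.mem_map_of_mem hy⟩, rfl⟩
      · rintro ⟨⟨z, hz⟩, hzy⟩
        obtain ⟨t, ht, rfl⟩ := (Submodule.mem_map).1 hz
        have hzy' : W.mkQ t = W.mkQ y := hzy
        rw [Submodule.mkQ_apply, Submodule.mkQ_apply, Submodule.Quotient.eq] at hzy'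
        have := hW hzy'
        have h3 : y = t - (t - y) := by abel
        rw [h3]
        exact (rad i).sub_mem ht this

end

end Pool.Agent.Lib.MP_467d59_al
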