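import Pool.Agent.Lib.MP_467d59_al.Basic
import Pool.Agent.Lib.MP_467d59_al.ModRes

namespace Pool.Agent.Lib.MP_467d59_al

open CategoryTheory CategoryTheory.Limits MulOpposite

universe u v w

variable {P : Type u} [PartialOrder P] {k : Type w} [Field k]

/-- pointwise finite dimensional -/
def FD (M : PRep k P) : Prop := ∀ p, Module.Finite k (M.obj p)

/-- sums of spread representations over arbitrary finite index types -/
def IsSum' (Y : PRep k P) : Prop :=
  ∃ (J : Type) (_ : Finite J) (S : J → Set P) (hS : ∀ j, IsSpread (S j)),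
    Nonempty (Y ≅ sumRep fun j => convRep k (S j) (hS j).convex)

/-- every morphism from a spread lifts -/
def SpSurj {Y M : PRep k P} (g : Y ⟶ M) : Prop :=
  ∀ (S : Set P) (hS : IsSpread S) (f : convRep k S hS.convex ⟶ M),
    ∃ f' : convRep k S hS.convex ⟶ Y, f' ≫ g = f

/-- inductive form of spread resolutions -/
def SpRes (good : PRep k P → Prop) : ℕ → PRep k P → Prop
  | 0, M => IsSum' M ∧ good M
  | n + 1, M => ∃ (Y K : PRep k P) (i : K ⟶ Y) (g : Y ⟶ M), IsSum' Y ∧ good Y ∧ IsKer i g ∧
      SpSurj g ∧ SpRes good n K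

theorem isSpread_Ici (p : P) : IsSpread (Set.Ici p) where
  convex := isConvex_Ici p
  nonempty := ⟨p, le_refl p⟩
  connected := by
    intro x hx y hy
    exact (Relation.ReflTransGen.single ⟨le_refl p, Or.inr hx⟩).tail ⟨hy, Or.inl hy⟩

/-- section of an element -/
noncomputable def eltHom (M : PRep k P) (p : P) (m : M.obj p) :
    convRep k (Set.Ici p) (isConvex_Ici p) ⟶ M := by
  classical
  exact mkHom (isConvex_Ici p) (fun q => if h : p ≤ q then (M.map (homOfLE h)).hom m else 0) (by
    constructor
    · intro q hq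
      have : ¬ p ≤ q := hq
      simp [this]
    · intro q r h hq
      have h1 : p ≤ q := hq
      have h2 : p ≤ r := h1.trans (leOfHom h)
      simp only [h1, h2, dif_pos]
      have : homOfLE h2 = homOfLE h1 ≫ h := Subsingleton.elim _ _
      rw [this, M.map_comp]
      rfl)

theorem secOf_eltHom (M : PRep k P) (p : P) (m : M.obj p) (q : P) (h : p ≤ q) :
    secOf (eltHom M p m) q = (M.map (homOfLE h)).hom m := by
  classical
  rw [eltHom, secOf_mkHom]
  simp [h]

theorem secOf_eltHom_self (M : PRep k P) (p : P) (m : M.obj p) :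
    secOf (eltHom M p m) p = m := by
  rw [secOf_eltHom M p m p (le_refl p)]
  have : homOfLE (le_refl p) = 𝟙 p := Subsingleton.elim _ _
  rw [this, M.map_id]
  rfl

theorem SpSurj.surjective {Y M : PRep k P} {g : Y ⟶ M} (h : SpSurj g) (p : P) :
    Function.Surjective (g.app p).hom := by
  intro m
  obtain ⟨f', hf'⟩ := h (Set.Ici p) (isSpread_Ici p) (eltHom M p m)
  refine ⟨secOf f' p, ?_⟩
  rw [← secOf_comp, hf', secOf_eltHom_self]

/-! bricks -/

theorem coef_const {S : Set P} (hS : IsSpread S)
    (f : convRep k S hS.convex ⟶ convRep k S hS.convex) {p q : P} (hp : p ∈ S) (hq : q ∈ S) :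
    coef f p = coef f q := by
  have h := hS.connected p hp q hq
  have : q ∈ S ∧ coef f p = coef f q := by
    induction h with
    | refl => exact ⟨hp, rfl⟩
    | tail _ hbc ih =>
      obtain ⟨hc, hbc⟩ := hbc
      rename_i b c hab
      -- the intermediate point lies in `S`
      have hb : b ∈ S := by
        rcases Relation.ReflTransGen.cases_tail hab with h | ⟨d, _, h⟩
        · rw [h]; exact hp
        · exact h.1
      obtain ⟨_, ih⟩ := ih hb
      refine ⟨hc, ih.trans ?_⟩
      rcases hbc with h | h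
      · exact coef_eq f h hb hc
      · exact (coef_eq f h hc hb).symm
  exact this.2

theorem retract {S T : Set P} (hS : IsSpread S) (hT : IsSpread T)
    (f : convRep k S hS.convex ⟶ convRep k T hT.convex)
    (g : convRep k T hT.convex ⟶ convRep k S hS.convex) {x : P} (hf : coef f x ≠ 0)
    (hg : coef g x ≠ 0) : S = T := by
  apply Set.Subset.antisymm
  · intro p hp
    have h1 : coef (f ≫ g) p = coef (f ≫ g) x := coef_const hS _ hp (coef_left hf)
    rw [coef_comp, coef_comp] at h1
    have h2 : coef f p ≠ 0 := by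
      intro h
      rw [h, zero_mul] at h1
      exact (mul_ne_zero hf hg) h1.symm
    exact coef_right h2
  · intro p hp
    have h1 : coef (g ≫ f) p = coef (g ≫ f) x := coef_const hT _ hp (coef_left hg)
    rw [coef_comp, coef_comp] at h1
    have h2 : coef g p ≠ 0 := by
      intro h
      rw [h, zero_mul] at h1
      exact (mul_ne_zero hg hf) h1.symm
    exact coef_right h2

/-- an enumeration of all spreads -/
structure SpFam (P : Type u) [PartialOrder P] where
  m : ℕ
  S : Fin m → Set P
  spread : ∀ i, IsSpread (S i)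
  inj : Function.Injective S
  surj : ∀ T : Set P, IsSpread T → ∃ i, S i = T

variable (k) (F : SpFam P)

/-- the spread representations of the family -/
noncomputable abbrev Kr (i : Fin F.m) : PRep k P := convRep k (F.S i) (F.spread i).convex

/-- the sum of all spread representations -/
noncomputable def XX : PRep k P := sumRep (Kr k F)

/-- its endomorphism ring -/
abbrev GA := (End (XX k F))ᵐᵒᵖ

variable {k F}

/-- the projection and the injection -/
noncomputable def pr (i : Fin F.m) : XX k F ⟶ Kr k F i := sumπ (Kr k F) i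
noncomputable def inj (i : Fin F.m) : Kr k F i ⟶ XX k F := sumι (Kr k F) i

theorem inj_pr (i : Fin F.m) : inj (k := k) i ≫ pr i = 𝟙 _ := sumι_π_self i
theorem total : ∑ i, pr (k := k) i ≫ inj i = 𝟙 (XX k F) := sum_total

theorem smul_def2 {M : PRep k P} (γ : End (XX k F)) (h : XX k F ⟶ M) : (op γ : GA k F) • h = γ ≫ h := rfl
theorem smul_def3 {M : PRep k P} (γ : GA k F) (h : XX k F ⟶ M) : γ • h = (unop γ : XX k F ⟶ XX k F) ≫ h := rfl

theorem Kr_hom_zero {i : Fin F.m} (f : Kr k F i ⟶ Kr k F i) (h : f ≠ 0) :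
    ∃ c : k, c ≠ 0 ∧ f = c • 𝟙 _ := by
  have h1 : ∃ p, coef f p ≠ 0 := by
    by_contra hc
    push Not at hc
    apply h
    apply coef_ext
    intro p
    rw [hc p, coef_zero]
  obtain ⟨p, hp⟩ := h1
  refine ⟨coef f p, hp, ?_⟩
  apply coef_ext
  intro q
  rw [coef_smul]
  by_cases hq : q ∈ F.S i
  · rw [coef_id q hq, mul_one]
    exact coef_const (F.spread i) f hq (coef_left hp)
  · have h2 : coef f q = 0 := by
      by_contra hc; exact hq (coef_left hc)
    have h3 : coef (𝟙 (Kr k F i)) q = 0 := by
      by_contra hc; exact hq (coef_left hc)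
    rw [h2, h3, mul_zero]

/-- the radical of the projective modules -/
noncomputable def radY (i : Fin F.m) : Submodule (GA k F) (XX k F ⟶ Kr k F i) where
  carrier := {h | inj i ≫ h = 0}
  add_mem' := by
    intro a b ha hb
    show inj i ≫ (a + b) = 0
    have ha' : inj i ≫ a = 0 := ha
    have hb' : inj i ≫ b = 0 := hb
    rw [Preadditive.comp_add, ha', hb', add_zero]
  zero_mem' := comp_zero
  smul_mem' := by
    intro γ h hh
    have hh' : inj i ≫ h = 0 := hh
    show inj i ≫ ((unop γ : XX k F ⟶ XX k F) ≫ h) = 0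
    have e : inj i ≫ ((unop γ : XX k F ⟶ XX k F) ≫ h) =
        ∑ j, (inj i ≫ (unop γ : XX k F ⟶ XX k F) ≫ pr j) ≫ (inj j ≫ h) := by
      calc _ = inj i ≫ (unop γ : XX k F ⟶ XX k F) ≫ 𝟙 _ ≫ h := by rw [Category.id_comp]
        _ = _ := by
          rw [← total, Preadditive.sum_comp, Preadditive.comp_sum, Preadditive.comp_sum]
          refine Finset.sum_congr rfl fun j _ => ?_
          simp only [Category.assoc]
    rw [e]
    apply Finset.sum_eq_zero
    intro j _
    apply coef_ext
    intro x
    rw [coef_comp, coef_zero]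
    by_contra hc
    have h1 := left_ne_zero_of_mul hc
    have h2 := right_ne_zero_of_mul hc
    have h3 := F.inj (retract (F.spread i) (F.spread j) _ _ h1 h2)
    subst h3
    rw [hh', coef_zero] at h2
    exact h2 rfl

theorem mem_radY {i : Fin F.m} {h : XX k F ⟶ Kr k F i} : h ∈ radY i ↔ inj i ≫ h = 0 := Iff.rfl

theorem yproj (i : Fin F.m) : Module.Projective (GA k F) (XX k F ⟶ Kr k F i) := by
  let a : (XX k F ⟶ Kr k F i) →ₗ[GA k F] GA k F :=
    { toFun := fun h => op (h ≫ inj i)
      map_add' := by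
        intro x y
        rw [Preadditive.add_comp]; rfl
      map_smul' := by
        intro γ h
        rw [smul_def3, Category.assoc]
        rfl }
  let b : GA k F →ₗ[GA k F] (XX k F ⟶ Kr k F i) :=
    { toFun := fun γ => (unop γ : XX k F ⟶ XX k F) ≫ pr i
      map_add' := by
        intro x y
        rw [← Preadditive.add_comp]; rfl
      map_smul' := by
        intro γ h
        rw [smul_def3, ← Category.assoc]
        rfl }
  refine Module.Projective.of_split a b (LinearMap.ext fun h => ?_)
  show (h ≫ inj i) ≫ pr i = h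
  rw [Category.assoc, inj_pr, Category.comp_id]

theorem goodFam (k : Type w) [Field k] (F : SpFam P) :
    GoodFam (Γ := GA k F) (fun i => XX k F ⟶ Kr k F i) (fun i => radY i) where
  proj := yproj
  gen := by
    intro M _ _ _
    obtain ⟨x, hx⟩ := exists_ne (0 : M)
    have h1 : ∃ i, (op (pr i ≫ inj i) : GA k F) • x ≠ 0 := by
      by_contra hc
      push Not at hc
      apply hx
      have h2 : (1 : GA k F) = ∑ i, op (pr i ≫ inj i) := by
        show op (𝟙 (XX k F)) = _
        rw [← total]
        exact map_sum (opAddEquiv : End (XX k F) ≃+ (End (XX k F))ᵐᵒᵖ) _ _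
      rw [← one_smul (GA k F) x, h2, Finset.sum_smul]
      exact Finset.sum_eq_zero fun i _ => hc i
    obtain ⟨i, hi⟩ := h1
    refine ⟨i, { toFun := fun h => (op (h ≫ inj i) : GA k F) • x
                 map_add' := ?_
                 map_smul' := ?_ }, ?_⟩
    · intro a b
      rw [← add_smul, Preadditive.add_comp]; rfl
    · intro γ h
      rw [RingHom.id_apply, smul_smul, smul_def3, Category.assoc]
      rfl
    · intro h
      apply hi
      exact LinearMap.congr_fun h (pr i)
  max := by
    intro i N hN h hh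
    rw [mem_radY]
    by_contra hc
    obtain ⟨c, hc0, hc1⟩ := Kr_hom_zero _ hc
    apply hN
    rw [Submodule.eq_top_iff']
    have h1 : pr i ∈ N := by
      have h2 := N.smul_mem (op (c⁻¹ • (pr i ≫ inj i)) : GA k F) hh
      rw [smul_def2, Linear.smul_comp, Category.assoc, hc1, Linear.comp_smul, Category.comp_id,
        smul_smul, inv_mul_cancel₀ hc0, one_smul] at h2
      exact h2
    intro h'
    have h2 := N.smul_mem (op (h' ≫ inj i) : GA k F) h1
    rw [smul_def2, Category.assoc, inj_pr, Category.comp_id] at h2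
    exact h2
  proper := by
    intro i h
    have h1 : pr (k := k) i ∈ radY i := by rw [h]; trivial
    rw [mem_radY, inj_pr] at h1
    obtain ⟨p, hp⟩ := (F.spread i).nonempty
    have h2 := coef_id (k := k) (hS := (F.spread i).convex) p hp
    rw [h1, coef_zero] at h2
    exact zero_ne_one h2

/-- post-composition as a linear map -/
noncomputable def yMap {M N : PRep k P} (g : M ⟶ N) : (XX k F ⟶ M) →ₗ[GA k F] (XX k F ⟶ N) where
  toFun h := h ≫ g
  map_add' a b := Preadditive.add_comp _ _ _ _ _ _
  map_smul' γ h := Category.assoc _ _ _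

/-- an isomorphism induces a linear equivalence -/
noncomputable def yIso {M N : PRep k P} (g : M ≅ N) : (XX k F ⟶ M) ≃ₗ[GA k F] (XX k F ⟶ N) where
  toFun h := h ≫ g.hom
  invFun h := h ≫ g.inv
  map_add' a b := Preadditive.add_comp _ _ _ _ _ _
  map_smul' γ h := Category.assoc _ _ _
  left_inv h := by simp
  right_inv h := by simp

/-- sums -/
noncomputable def ySum {J : Type} (Y : J → PRep k P) : (XX k F ⟶ sumRep Y) ≃ₗ[GA k F] (∀ j, XX k F ⟶ Y j) where
  toFun h j := h ≫ sumπ Y j
  invFun h := sumLift h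
  map_add' a b := by funext j; exact Preadditive.add_comp _ _ _ _ _ _
  map_smul' γ h := by funext j; exact Category.assoc _ _ _
  left_inv h := sum_hom_ext fun j => sumLift_π _ j
  right_inv h := rfl

theorem full {i : Fin F.m} {M : PRep k P} (φ : (XX k F ⟶ Kr k F i) →ₗ[GA k F] (XX k F ⟶ M)) :
    ∃ g : Kr k F i ⟶ M, ∀ h, φ h = h ≫ g := by
  refine ⟨inj i ≫ φ (pr i), fun h => ?_⟩
  have h1 : h = (op (h ≫ inj i) : GA k F) • pr i := by
    rw [smul_def2, Category.assoc, inj_pr, Category.comp_id]
  conv_lhs => rw [h1]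
  rw [map_smul, smul_def2, Category.assoc]

theorem full_sum {J : Type} [Finite J] {s : J → Fin F.m} {M : PRep k P}
    (φ : (∀ j, XX k F ⟶ Kr k F (s j)) →ₗ[GA k F] (XX k F ⟶ M)) :
    ∃ g : sumRep (fun j => Kr k F (s j)) ⟶ M, ∀ h : XX k F ⟶ sumRep (fun j => Kr k F (s j)),
      φ (fun j => h ≫ sumπ _ j) = h ≫ g := by
  classical
  have := Fintype.ofFinite J
  have h1 : ∀ j, ∃ g : Kr k F (s j) ⟶ M, ∀ h, φ (Pi.single j h) = h ≫ g := by
    intro j
    exact full (φ.comp (LinearMap.single (GA k F) (fun j => XX k F ⟶ Kr k F (s j)) j))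
  choose g hg using h1
  refine ⟨sumDesc g, fun h => ?_⟩
  have h2 : (fun j => h ≫ sumπ (fun j => Kr k F (s j)) j) =
      ∑ j, Pi.single j (h ≫ sumπ (fun j => Kr k F (s j)) j) := by
    rw [Finset.univ_sum_single (fun j => h ≫ sumπ (fun j => Kr k F (s j)) j)]
  rw [h2, map_sum, sumDesc, Preadditive.comp_sum]
  refine Finset.sum_congr rfl fun j _ => ?_
  rw [hg, Category.assoc]

/-- lifting from the generator versus lifting from each spread -/
theorem spSurj_iff (F : SpFam P) {Y M : PRep k P} (g : Y ⟶ M) :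
    SpSurj g ↔ Function.Surjective (yMap (F := F) g) := by
  constructor
  · intro h f
    have h1 : ∀ i : Fin F.m, ∃ f' : Kr k F i ⟶ Y, f' ≫ g = inj i ≫ f := fun i =>
      h (F.S i) (F.spread i) (inj i ≫ f)
    choose f' hf' using h1
    refine ⟨∑ i, pr i ≫ f' i, ?_⟩
    show (∑ i, pr i ≫ f' i) ≫ g = f
    rw [Preadditive.sum_comp]
    calc _ = ∑ i, (pr i ≫ inj i) ≫ f := Finset.sum_congr rfl fun i _ => by
            rw [Category.assoc, hf', Category.assoc]
      _ = f := by rw [← Preadditive.sum_comp, total, Category.id_comp]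
  · intro h S hS f
    obtain ⟨i, rfl⟩ := F.surj S hS
    obtain ⟨f', hf'⟩ := h (pr i ≫ f)
    refine ⟨inj i ≫ f', ?_⟩
    have : f' ≫ g = pr i ≫ f := hf'
    rw [Category.assoc, this, ← Category.assoc, inj_pr, Category.id_comp]

theorem isSum'_Kr {J : Type} [Finite J] (s : J → Fin F.m) :
    IsSum' (sumRep fun j => Kr k F (s j)) :=
  ⟨J, inferInstance, fun j => F.S (s j), fun j => F.spread (s j), ⟨Iso.refl _⟩⟩

theorem FD.of_iso {M N : PRep k P} (e : M ≅ N) (h : FD M) : FD N := by
  intro p
  have := h p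
  exact Module.Finite.of_surjective (e.hom.app p).hom (bijective_of_isIso e p).2

theorem FD_sum {J : Type} [Finite J] {Y : J → PRep k P} (h : ∀ j, FD (Y j)) : FD (sumRep Y) := by
  intro p
  have := fun j => h j p
  exact inferInstanceAs (Module.Finite k (∀ j, (Y j).obj p))

theorem FD_conv {S : Set P} (hS : IsConvex S) : FD (convRep k S hS) := by
  intro p
  exact inferInstanceAs (Module.Finite k (PLift (p ∈ S) → k))

theorem FD_of_isSum' {M : PRep k P} (h : IsSum' M) : FD M := by
  obtain ⟨J, hJ, S, hS, ⟨e⟩⟩ := h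
  exact (FD_sum fun j => FD_conv _).of_iso e.symm

theorem FD_ker {K M N : PRep k P} {i : K ⟶ M} {g : M ⟶ N} (h : IsKer i g) (hM : FD M) : FD K := by
  intro p
  have := hM p
  exact Module.Finite.of_injective (i.app p).hom (h.inj p)

theorem yKer {K M N : PRep k P} {i : K ⟶ M} {g : M ⟶ N} (h : IsKer i g) :
    Nonempty ((XX k F ⟶ K) ≃ₗ[GA k F] LinearMap.ker (yMap (F := F) g)) := by
  refine ⟨LinearEquiv.ofBijective (LinearMap.codRestrict _ (yMap i) ?_) ⟨?_, ?_⟩⟩
  · intro f
    rw [LinearMap.mem_ker]
    show (f ≫ i) ≫ g = 0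
    rw [Category.assoc, h.comp, comp_zero]
  · intro a b hab
    exact h.hom_ext (congrArg Subtype.val hab)
  · rintro ⟨f, hf⟩
    obtain ⟨f', hf'⟩ := h.lift f hf
    exact ⟨f', Subtype.ext hf'⟩

theorem iso_of_yMap (F : SpFam P) {Y M : PRep k P} (g : Y ⟶ M)
    (h : Function.Bijective (yMap (F := F) g)) : IsIso g := by
  apply isIso_of_bijective
  intro p
  constructor
  · intro a b hab
    obtain ⟨i, hi⟩ := F.surj (Set.Ici p) (isSpread_Ici p)
    have key : ∀ (S : Set P) (hS : IsSpread S) (f f' : convRep k S hS.convex ⟶ Y),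
        f ≫ g = f' ≫ g → f = f' := by
      intro S hS f f' hff
      obtain ⟨i, rfl⟩ := F.surj S hS
      have h1 : yMap (F := F) g (pr i ≫ f) = yMap (F := F) g (pr i ≫ f') := by
        show (pr i ≫ f) ≫ g = (pr i ≫ f') ≫ g
        rw [Category.assoc, hff, Category.assoc]
      have h2 := h.1 h1
      have h3 := congrArg (fun t => inj i ≫ t) h2
      simp only [← Category.assoc, inj_pr, Category.id_comp] at h3
      exact h3
    have h1 : eltHom Y p a = eltHom Y p b := by
      apply key (Set.Ici p) (isSpread_Ici p)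
      apply conv_hom_ext
      intro q hq
      rw [secOf_comp, secOf_comp, secOf_eltHom _ _ _ q hq, secOf_eltHom _ _ _ q hq, nat_apply,
        nat_apply]
      exact congrArg (M.map (homOfLE hq)).hom hab
    rw [← secOf_eltHom_self Y p a, h1, secOf_eltHom_self]
  · exact ((spSurj_iff F g).2 h.2).surjective p

theorem hasRes_to_spRes (n : ℕ) : ∀ M : PRep k P,
    HasRes (fun i => XX k F ⟶ Kr k F i) n (ModuleCat.of (GA k F) (XX k F ⟶ M)) → SpRes FD n M := by
  induction n with
  | zero =>
    rintro M ⟨J, hJ, s, ⟨e⟩⟩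
    obtain ⟨g, hg⟩ := full_sum e.symm.toLinearMap
    have hiso : IsIso g := by
      apply iso_of_yMap F
      have : (yMap (F := F) g) = e.symm.toLinearMap.comp (ySum (F := F) (fun j => Kr k F (s j))).toLinearMap := by
        exact LinearMap.ext fun h => (hg h).symm
      rw [this]
      exact e.symm.bijective.comp (LinearEquiv.bijective _)
    have hs : IsSum' M := ⟨J, hJ, fun j => F.S (s j), fun j => F.spread (s j), ⟨(asIso g).symm⟩⟩
    exact ⟨hs, FD_of_isSum' hs⟩
  | succ n ih =>
    rintro M ⟨J, hJ, s, π, hπ, hK⟩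
    obtain ⟨g, hg⟩ := full_sum π
    have he : (yMap (F := F) g) = π.comp (ySum (F := F) (fun j => Kr k F (s j))).toLinearMap := by
      exact LinearMap.ext fun h => (hg h).symm
    refine ⟨_, kerRep g, kerι g, g, isSum'_Kr s, FD_of_isSum' (isSum'_Kr s), isKer_kerι g, ?_, ?_⟩
    · rw [spSurj_iff F, he]
      exact hπ.comp (LinearEquiv.surjective _)
    · apply ih
      obtain ⟨e⟩ := yKer (F := F) (isKer_kerι g)
      have hmap : Submodule.map (ySum (F := F) (fun j => Kr k F (s j))).toLinearMap
          (LinearMap.ker (yMap (F := F) g)) = LinearMap.ker π := by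
        ext x
        rw [Submodule.mem_map, he]
        constructor
        · rintro ⟨y, hy, rfl⟩
          exact hy
        · intro hx
          exact ⟨(ySum (F := F) (fun j => Kr k F (s j))).symm x, by
            rw [LinearMap.mem_ker, LinearMap.comp_apply]
            have : (ySum (F := F) (fun j => Kr k F (s j))).toLinearMap
                ((ySum (F := F) (fun j => Kr k F (s j))).symm x) = x :=
              LinearEquiv.apply_symm_apply _ _
            rw [this]; exact hx, LinearEquiv.apply_symm_apply _ _⟩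
      have e2 : LinearMap.ker (yMap (F := F) g) ≃ₗ[GA k F] LinearMap.ker π :=
        LinearEquiv.ofSubmodules (ySum (F := F) (fun j => Kr k F (s j))) _ _ hmap
      exact HasRes.congr (e2.symm.trans e.symm) hK

theorem hasRes_sum (F : SpFam P) {M : PRep k P} (h : IsSum' M) :
    HasRes (fun i => XX k F ⟶ Kr k F i) 0 (ModuleCat.of (GA k F) (XX k F ⟶ M)) := by
  obtain ⟨J, hJ, S, hS, ⟨e⟩⟩ := h
  have h1 : ∀ j, ∃ i, F.S i = S j := fun j => F.surj (S j) (hS j)
  choose s hs using h1
  have h2 : (fun j => F.S (s j)) = S := funext hs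
  subst h2
  exact ⟨J, hJ, s, ⟨(yIso e).trans (ySum _)⟩⟩

theorem spRes_to_hasRes (F : SpFam P) {good : PRep k P → Prop} (n : ℕ) : ∀ M : PRep k P,
    SpRes good n M →
      HasRes (fun i => XX k F ⟶ Kr k F i) n (ModuleCat.of (GA k F) (XX k F ⟶ M)) := by
  induction n with
  | zero =>
    rintro M ⟨h, -⟩
    exact hasRes_sum F h
  | succ n ih =>
    rintro M ⟨Y, K, i, g, hY, -, hK, hg, hKn⟩
    obtain ⟨J, hJ, s, ⟨e⟩⟩ := hasRes_sum F hY
    refine ⟨J, hJ, s, (yMap (F := F) g).comp e.symm.toLinearMap,
      ((spSurj_iff F g).1 hg).comp e.symm.surjective, ?_⟩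
    obtain ⟨e'⟩ := yKer (F := F) hK
    refine HasRes.congr ?_ (ih K hKn)
    refine e'.trans (LinearEquiv.ofSubmodules e _ _ ?_)
    ext x
    rw [Submodule.mem_map]
    constructor
    · rintro ⟨y, hy, rfl⟩
      rw [LinearMap.mem_ker] at hy ⊢
      rw [LinearMap.comp_apply]
      have : e.symm.toLinearMap (e y) = y := e.symm_apply_apply y
      have h2 : (e : (XX k F ⟶ Y) →ₗ[GA k F] _) y = e y := rfl
      rw [h2, this]; exact hy
    · intro hx
      exact ⟨e.symm x, hx, e.apply_symm_apply x⟩

theorem finiteLength [Finite P] (F : SpFam P) {M : PRep k P} (hM : FD M) :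
    IsFiniteLength (GA k F) (XX k F ⟶ M) := by
  have hX : FD (XX k F) := FD_sum fun j => FD_conv _
  have h1 : ∀ p, Module.Finite k ((XX k F).obj p →ₗ[k] M.obj p) := by
    intro p
    have := hX p
    have := hM p
    infer_instance
  let L : (XX k F ⟶ M) →ₗ[k] (∀ p, (XX k F).obj p →ₗ[k] M.obj p) :=
    { toFun := fun f p => (f.app p).hom
      map_add' := fun _ _ => rfl
      map_smul' := fun _ _ => rfl }
  have hL : Function.Injective L := by
    intro a b hab
    refine NatTrans.ext (funext fun p => ModuleCat.hom_ext ?_)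
    exact congrFun hab p
  have h2 : Module.Finite k (XX k F ⟶ M) := Module.Finite.of_injective L hL
  have h3 : IsScalarTower k (GA k F) (XX k F ⟶ M) := by
    constructor
    intro c γ h
    exact Linear.smul_comp _ _ _ _ _ _
  rw [isFiniteLength_iff_isNoetherian_isArtinian]
  exact ⟨isNoetherian_of_tower k inferInstance, isArtinian_of_tower k inferInstance⟩

end Pool.Agent.Lib.MP_467d59_al
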