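import Pool.Agent.Lib.MP_467d59_al.Sink

namespace Pool.Agent.Lib.MP_467d59_al

open CategoryTheory CategoryTheory.Limits

attribute [-instance] CategoryTheory.prod CategoryTheory.prod'

universe u v w

section breaks

variable {Q : Type v} [PartialOrder Q] {N : ℕ}

/-- first element of a column -/
def InP (A : Set (Fin (N + 1) × Q)) (q : Q) (t : Fin (N + 1)) : Prop :=
  (t, q) ∈ A ∧ ∀ t' < t, (t', q) ∉ A

/-- first element after a column -/
def OutP (A : Set (Fin (N + 1) × Q)) (q : Q) (t : Fin (N + 1)) : Prop :=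
  (t, q) ∉ A ∧ ∃ t' : Fin (N + 1), t'.val + 1 = t.val ∧ (t', q) ∈ A

open Classical in
/-- break points -/
noncomputable def brk [Fintype Q] (A : Set (Fin (N + 1) × Q)) : Finset (Fin (N + 1)) :=
  Finset.univ.biUnion fun q => Finset.univ.filter (InP A q) ∪ Finset.univ.filter (OutP A q)

theorem brk_card [Fintype Q] {A : Set (Fin (N + 1) × Q)} (hA : IsConvex A) :
    (brk A).card ≤ 2 * Fintype.card Q := by
  classical
  unfold brk
  refine Finset.card_biUnion_le.trans ?_
  have : ∀ q ∈ (Finset.univ : Finset Q), (Finset.univ.filter (InP A q) ∪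
      Finset.univ.filter (OutP A q)).card ≤ 2 := by
    intro q _
    refine (Finset.card_union_le _ _).trans ?_
    have h1 : (Finset.univ.filter (InP A q)).card ≤ 1 := by
      rw [Finset.card_le_one]
      intro a ha b hb
      have ha' := (Finset.mem_filter.1 ha).2
      have hb' := (Finset.mem_filter.1 hb).2
      rcases lt_trichotomy a b with h | h | h
      · exact absurd ha'.1 (hb'.2 a h)
      · exact h
      · exact absurd hb'.1 (ha'.2 b h)
    have key : ∀ a b, OutP A q a → OutP A q b → ¬ a < b := by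
      rintro a b ⟨ha, a', ha', haA⟩ ⟨hb, b', hb', hbA⟩ hab
      have h1 : a.val < b.val := hab
      have h2 : ((a', q) : Fin (N + 1) × Q) ≤ (a, q) := ⟨by
        show a'.val ≤ a.val; omega, le_rfl⟩
      have h3 : ((a, q) : Fin (N + 1) × Q) ≤ (b', q) := ⟨by
        show a.val ≤ b'.val; omega, le_rfl⟩
      exact ha (hA _ haA _ hbA _ h2 h3)
    have h2 : (Finset.univ.filter (OutP A q)).card ≤ 1 := by
      rw [Finset.card_le_one]
      intro a ha b hb
      have ha' := (Finset.mem_filter.1 ha).2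
      have hb' := (Finset.mem_filter.1 hb).2
      exact le_antisymm (not_lt.1 (key b a hb' ha')) (not_lt.1 (key a b ha' hb'))
    omega
  calc _ ≤ ∑ _q : Q, 2 := Finset.sum_le_sum this
    _ = 2 * Fintype.card Q := by rw [Finset.sum_const, Finset.card_univ, smul_eq_mul, mul_comm]

theorem cset_of_brk [Fintype Q] {A : Set (Fin (N + 1) × Q)} (hA : IsConvex A) {n : ℕ}
    (c : Fin (n + 1) ↪o Fin (N + 1)) (h0 : c 0 = 0) (h : ∀ t ∈ brk A, t ∈ Set.range c) :
    CSet c A := by
  classical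
  have hbot : ∀ t, c 0 ≤ t := fun t => by rw [h0]; exact Fin.zero_le _
  rintro ⟨t, q⟩
  have hle := fl_le c (hbot t)
  constructor
  · intro htA
    refine ⟨hbot _, ?_⟩
    -- first element of the column
    have hne : (Finset.univ.filter (fun s : Fin (N + 1) => (s, q) ∈ A)).Nonempty :=
      ⟨t, Finset.mem_filter.2 ⟨Finset.mem_univ _, htA⟩⟩
    set a := (Finset.univ.filter (fun s : Fin (N + 1) => (s, q) ∈ A)).min' hne with ha
    have hmem : ∀ s : Fin (N + 1), (s, q) ∈ A →
        s ∈ Finset.univ.filter (fun s : Fin (N + 1) => (s, q) ∈ A) := fun s hs =>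
      Finset.mem_filter.2 ⟨Finset.mem_univ _, hs⟩
    have haA : (a, q) ∈ A := (Finset.mem_filter.1 (Finset.min'_mem _ hne)).2
    have hat : a ≤ t := Finset.min'_le _ _ (hmem t htA)
    have hIn : InP A q a := by
      refine ⟨haA, fun t' ht' hA' => ?_⟩
      have := Finset.min'_le _ _ (hmem t' hA')
      exact absurd ht' (not_lt.2 this)
    have hab : a ∈ brk A := Finset.mem_biUnion.2 ⟨q, Finset.mem_univ _,
      Finset.mem_union_left _ (Finset.mem_filter.2 ⟨Finset.mem_univ _, hIn⟩)⟩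
    obtain ⟨i, hi⟩ := h a hab
    have h1 : i ≤ fl c t := le_fl c (by rw [hi]; exact hat)
    have h2 : a ≤ c (fl c t) := by rw [← hi]; exact c.le_iff_le.2 h1
    exact hA (a, q) haA (t, q) htA (c (fl c t), q) ⟨h2, le_rfl⟩ ⟨hle, le_rfl⟩
  · rintro ⟨_, hs⟩
    have hs' : (c (fl c t), q) ∈ A := hs
    by_contra htA
    have hlt : c (fl c t) < t := by
      refine lt_of_le_of_ne hle ?_
      intro he
      rw [he] at hs'
      exact htA hs'
    have hne : (Finset.univ.filter (fun s : Fin (N + 1) => c (fl c t) < s ∧ (s, q) ∉ A)).Nonempty :=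
      ⟨t, Finset.mem_filter.2 ⟨Finset.mem_univ _, hlt, htA⟩⟩
    set b := (Finset.univ.filter (fun s : Fin (N + 1) => c (fl c t) < s ∧ (s, q) ∉ A)).min' hne
      with hb
    have hmem : ∀ s : Fin (N + 1), c (fl c t) < s → (s, q) ∉ A →
        s ∈ Finset.univ.filter (fun s : Fin (N + 1) => c (fl c t) < s ∧ (s, q) ∉ A) :=
      fun s hs hs' => Finset.mem_filter.2 ⟨Finset.mem_univ _, hs, hs'⟩
    obtain ⟨hb1, hb2⟩ := (Finset.mem_filter.1 (Finset.min'_mem _ hne)).2
    have hbt : b ≤ t := Finset.min'_le _ _ (hmem t hlt htA)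
    have hb1' : (c (fl c t)).val < b.val := hb1
    have hOut : OutP A q b := by
      refine ⟨hb2, ⟨b.val - 1, by omega⟩, by simp only; omega, ?_⟩
      by_contra hc
      have hne' : (c (fl c t)).val ≠ b.val - 1 := by
        intro he
        apply hc
        have : (⟨b.val - 1, by omega⟩ : Fin (N + 1)) = c (fl c t) := Fin.ext he.symm
        rw [this]
        exact hs'
      have h3 : c (fl c t) < (⟨b.val - 1, by omega⟩ : Fin (N + 1)) := by
        show (c (fl c t)).val < b.val - 1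
        omega
      have h4 : b ≤ _ := Finset.min'_le _ _ (hmem _ h3 hc)
      have h5 : b.val ≤ b.val - 1 := h4
      omega
    have hbb : b ∈ brk A := Finset.mem_biUnion.2 ⟨q, Finset.mem_univ _,
      Finset.mem_union_right _ (Finset.mem_filter.2 ⟨Finset.mem_univ _, hOut⟩)⟩
    obtain ⟨i, hi⟩ := h b hbb
    have h1 : i ≤ fl c t := le_fl c (by rw [hi]; exact hbt)
    have h2 : b ≤ c (fl c t) := by rw [← hi]; exact c.le_iff_le.2 h1
    exact absurd hb1 (not_lt.2 h2)

open Classical in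
theorem smin_card [Fintype Q] (A : Set (Fin (N + 1) × Q)) :
    (Finset.univ.filter (fun p => p ∈ Smin A)).card ≤ Fintype.card Q := by
  rw [← Finset.card_univ]
  refine Finset.card_le_card_of_injOn (fun p => p.2) (fun _ _ => Finset.mem_univ _) ?_
  rintro ⟨a, q⟩ ha ⟨b, q'⟩ hb hab
  have hq : q = q' := hab
  subst hq
  have ha' : (a, q) ∈ Smin A := (Finset.mem_filter.1 (Finset.mem_coe.1 ha)).2
  have hb' : (b, q) ∈ Smin A := (Finset.mem_filter.1 (Finset.mem_coe.1 hb)).2
  rcases le_total a b with h | h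
  · exact hb'.2 _ ha'.1 ⟨h, le_rfl⟩
  · exact (ha'.2 _ hb'.1 ⟨h, le_rfl⟩).symm

end breaks

section uniform

variable {k : Type w} [Field k]

theorem finite_poset_bound' {P : Type u} [PartialOrder P] [Finite P] (F : SpFam P) {m : ℕ}
    (hm : F.m ≤ m) {M : PRep k P} (hM : FD M) : SpRes FD m M :=
  hasRes_to_spRes m M ((filtration (goodFam k F) Set.univ F.m (fun _ _ => all_simple F _)
    (finiteLength F hM) (fun _ hi => absurd trivial hi)).mono hm)

/-- the bound on the number of grid lines -/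
def bnd (q : ℕ) : ℕ := 1 + 2 * q + q * (2 * q) + q * (2 * q)

theorem simple_grid {Q : Type v} [PartialOrder Q] [Fintype Q] {N : ℕ}
    (F : SpFam (Fin (N + 1) × Q)) (i : Fin F.m) (m : ℕ)
    (hm : ∀ n, n < bnd (Fintype.card Q) → ∃ F' : SpFam (Fin (n + 1) × Q), F'.m ≤ m) :
    HasRes (fun i => XX k F ⟶ Kr k F i) (m + 2)
      (ModuleCat.of (GA k F) ((XX k F ⟶ Kr k F i) ⧸ radY (k := k) i)) := by
  classical
  set S := F.S i with hSdef
  have hS : IsSpread S := F.spread i
  let X1 : Finset (Fin (N + 1) × Q) := Finset.univ.filter (fun p => p ∈ Smin S)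
  let X2 : Finset (Fin (N + 1) × Q) := Finset.univ.filter (fun p => p ∈ Smin (Splus S))
  let C : Finset (Fin (N + 1)) := {0} ∪ brk S ∪ X1.biUnion (fun x => brk (S \ {x})) ∪
    X2.biUnion (fun y => brk (BB S y))
  have hcard : C.card ≤ bnd (Fintype.card Q) := by
    refine (Finset.card_union_le _ _).trans (Nat.add_le_add ((Finset.card_union_le _ _).trans
      (Nat.add_le_add ((Finset.card_union_le _ _).trans (Nat.add_le_add ?_ ?_)) ?_)) ?_)
    · simp
    · exact brk_card hS.convex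
    · refine Finset.card_biUnion_le.trans ?_
      calc _ ≤ ∑ _x ∈ X1, 2 * Fintype.card Q := Finset.sum_le_sum fun x hx =>
            brk_card (removal_convex hS.convex (Finset.mem_filter.1 hx).2)
        _ = X1.card * (2 * Fintype.card Q) := by rw [Finset.sum_const, smul_eq_mul]
        _ ≤ _ := Nat.mul_le_mul_right _ (smin_card S)
    · refine Finset.card_biUnion_le.trans ?_
      calc _ ≤ ∑ _x ∈ X2, 2 * Fintype.card Q := Finset.sum_le_sum fun x hx =>
            brk_card (BB_convex hS.convex (Finset.mem_filter.1 hx).2)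
        _ = X2.card * (2 * Fintype.card Q) := by rw [Finset.sum_const, smul_eq_mul]
        _ ≤ _ := Nat.mul_le_mul_right _ (smin_card (Splus S))
  have h0C : (0 : Fin (N + 1)) ∈ C := by simp [C]
  obtain ⟨n, hn⟩ : ∃ n, C.card = n + 1 :=
    ⟨C.card - 1, by have := Finset.card_pos.2 ⟨_, h0C⟩; omega⟩
  let c : Fin (n + 1) ↪o Fin (N + 1) := C.orderEmbOfFin hn
  have hr : ∀ t ∈ C, t ∈ Set.range c := by
    intro t ht
    rw [Finset.range_orderEmbOfFin]
    exact ht
  have hc0 : c 0 = 0 := by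
    obtain ⟨j, hj⟩ := hr 0 h0C
    have : c 0 ≤ c j := c.le_iff_le.2 (Fin.zero_le _)
    rw [hj] at this
    exact le_antisymm this (Fin.zero_le _)
  obtain ⟨F', hF'⟩ := hm n (by omega)
  have hclS : CSet c S := cset_of_brk hS.convex c hc0 (fun t ht => hr t (by
    simp only [C, Finset.mem_union]; left; left; right; exact ht))
  have hcl1 : ∀ x, x ∈ Smin S → CSet c (S \ {x}) := fun x hx =>
    cset_of_brk (removal_convex hS.convex hx) c hc0 (fun t ht => hr t (by
      simp only [C, Finset.mem_union]; left; right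
      exact Finset.mem_biUnion.2 ⟨x, Finset.mem_filter.2 ⟨Finset.mem_univ _, hx⟩, ht⟩))
  have hcl2 : ∀ y, y ∈ Smin (Splus S) → CSet c (BB S y) := fun y hy =>
    cset_of_brk (BB_convex hS.convex hy) c hc0 (fun t ht => hr t (by
      simp only [C, Finset.mem_union]; right
      exact Finset.mem_biUnion.2 ⟨y, Finset.mem_filter.2 ⟨Finset.mem_univ _, hy⟩, ht⟩))
  -- the index type
  obtain ⟨a, ⟨e⟩⟩ := Finite.exists_equiv_fin ({x // x ∈ Smin S} ⊕ {y // y ∈ Smin (Splus S)})
  let Y0 : ({x // x ∈ Smin S} ⊕ {y // y ∈ Smin (Splus S)}) → PRep k (Fin (N + 1) × Q) := fun j =>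
    match j with
    | Sum.inl x => convRep k (S \ {x.1}) (removal_convex hS.convex x.2)
    | Sum.inr y => convRep k (BB S y.1) (BB_convex hS.convex y.2)
  let g0 : ∀ j, Y0 j ⟶ Kr k F i := fun j =>
    match j with
    | Sum.inl x => g1 hS.convex x.1 x.2
    | Sum.inr y => g2 hS.convex y.1 y.2
  have hY0 : ∀ j, IsSum' (Y0 j) := by
    rintro (x | y)
    · exact isSum'_conv _
    · exact isSum'_conv _
  have hYc : ∀ j, ClosedR c (Y0 j) := by
    rintro (x | y)
    · exact closed_conv _ (hcl1 x.1 x.2)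
    · exact closed_conv _ (hcl2 y.1 y.2)
  have hYf : ∀ j, FD (Y0 j) := fun j => FD_of_isSum' (hY0 j)
  refine simple_of_sink F i m (J := Fin a) (Y := fun j => Y0 (e.symm j)) (fun j => hY0 _)
    (fun j => g0 (e.symm j)) ?_ ?_ ?_
  · intro j f
    have key : ∀ (j' : _) (f : Kr k F i ⟶ Y0 j'), f ≫ g0 j' = 0 := by
      rintro (x | y) f
      · exact g1_nonsplit hS x.1 x.2 f
      · exact g2_nonsplit hS y.1 y.2 f
    exact key _ f
  · intro i' hi' f
    have hne : F.S i' ≠ F.S i := fun h => hi' (F.inj h)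
    have key : ∃ (j' : _) (f' : Kr k F i' ⟶ Y0 j'), f = f' ≫ g0 j' := by
      rcases sink_factor hS (F.spread i') hne f with ⟨x, hx, f', hf'⟩ | ⟨y, hy, f', hf'⟩
      · exact ⟨Sum.inl ⟨x, hx⟩, f', hf'⟩
      · exact ⟨Sum.inr ⟨y, hy⟩, f', hf'⟩
    obtain ⟨j', f', hf'⟩ := key
    obtain ⟨j, rfl⟩ := e.symm.surjective j'
    exact ⟨j, f', hf'⟩
  · intro g'
    have hcl : ClosedR c (kerRep g') := closed_ker (isKer_kerι g')
      (closed_sum fun j => hYc _) (closed_conv _ hclS)
    have hfd : FD (kerRep g') := FD_ker (isKer_kerι g') (FD_sum fun j => hYf _)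
    obtain ⟨e'⟩ := closed_iso hcl
    have h1 : SpRes FD m (resG c (kerRep g')) := finite_poset_bound' F' hF' (FD_res hfd)
    exact SpRes.of_iso (fun M M' e h => h.of_iso e) e' (EE_spRes c (fun N hN => FD_EE hN) m _ h1)

theorem uniform (Q : Type v) [PartialOrder Q] [Finite Q] :
    ∃ m : ℕ, ∀ (k : Type w) [Field k] (N : ℕ) (M : PRep k (Fin (N + 1) × Q)), FD M →
      SpRes FD m M := by
  classical
  have := Fintype.ofFinite Q
  let Fn : ∀ n : ℕ, SpFam (Fin (n + 1) × Q) := fun n =>
    Classical.choice (exists_spFam (Fin (n + 1) × Q))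
  let m := (Finset.range (bnd (Fintype.card Q))).sup fun n => (Fn n).m
  refine ⟨m + 2, fun k _ N M hM => ?_⟩
  refine hasRes_to_spRes (F := Fn N) (m + 2) M (filtration (goodFam k (Fn N)) Set.univ (m + 2)
    (fun i _ => simple_grid (Fn N) i m ?_) (finiteLength (Fn N) hM)
    (fun _ hi => absurd trivial hi))
  intro n hn
  exact ⟨Fn n, Finset.le_sup (f := fun n => (Fn n).m) (Finset.mem_range.2 hn)⟩

end uniform

section final

variable {k : Type w} [Field k]

theorem IsFP.of_iso {P : Type u} [PartialOrder P] {M M' : PRep k P} (e : M ≅ M') (h : IsFP M) :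
    IsFP M' := by
  obtain ⟨Y₁, Y₀, f, h1, h0, ⟨e'⟩⟩ := h
  exact ⟨Y₁, Y₀, f, h1, h0, ⟨e.symm.trans e'⟩⟩

theorem main_spRes (Q : Type v) [PartialOrder Q] [Finite Q] :
    ∃ m : ℕ, ∀ (k : Type w) [Field k] (T : Type u) [LinearOrder T] [Nonempty T]
      (M : PRep k (T × Q)), IsFP M → SpRes IsFP m M := by
  obtain ⟨m, hm⟩ := uniform.{v, w} Q
  refine ⟨m, fun k _ T _ _ M hM => ?_⟩
  obtain ⟨n, c, N, hN, ⟨e⟩⟩ := exists_grid (isFP'_of_isFP hM)
  exact SpRes.of_iso (fun M M' e h => h.of_iso e) e (EE_spRes c (fun N hN => isFP_EE hN) m N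
    (hm k n N hN))

end final

end Pool.Agent.Lib.MP_467d59_al
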