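import Pool.Agent.Lib.MP_467d59_al.Gamma

namespace Pool.Agent.Lib.MP_467d59_al

open CategoryTheory CategoryTheory.Limits MulOpposite

universe u v w

variable {P : Type u} [PartialOrder P] {k : Type w} [Field k]

section decomposition

/-- the zigzag relation inside `V` -/
abbrev Zig (V : Set P) (x y : P) : Prop := Relation.ReflTransGen (fun a b => b ∈ V ∧ (a ≤ b ∨ b ≤ a)) x y

theorem Zig.mem {V : Set P} {x y : P} (hx : x ∈ V) (h : Zig V x y) : y ∈ V := by
  rcases Relation.ReflTransGen.cases_tail h with h | ⟨d, _, h⟩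
  · rw [h]; exact hx
  · exact h.1

theorem Zig.symm {V : Set P} {x y : P} (hx : x ∈ V) (h : Zig V x y) : Zig V y x := by
  induction h with
  | refl => exact Relation.ReflTransGen.refl
  | tail hab hbc ih =>
    exact Relation.ReflTransGen.head ⟨Zig.mem hx hab, hbc.2.symm⟩ ih

/-- the component of `x` in `V` -/
def compo (V : Set P) (x : P) : Set P := {y | Zig V x y}

theorem compo_subset {V : Set P} {x : P} (hx : x ∈ V) : compo V x ⊆ V := fun _ h => Zig.mem hx h

theorem compo_closed {V : Set P} {x y z : P} (hy : y ∈ compo V x) (hz : z ∈ V)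
    (h : y ≤ z ∨ z ≤ y) : z ∈ compo V x := Relation.ReflTransGen.tail hy ⟨hz, h⟩

theorem compo_spread {V : Set P} (hV : IsConvex V) {x : P} (hx : x ∈ V) : IsSpread (compo V x) where
  convex := by
    intro a ha b hb p hap hpb
    have hp : p ∈ V := hV a (compo_subset hx ha) b (compo_subset hx hb) p hap hpb
    exact compo_closed ha hp (Or.inl hap)
  nonempty := ⟨x, Relation.ReflTransGen.refl⟩
  connected := by
    have key : ∀ y ∈ compo V x, Relation.ReflTransGen
        (fun a b => b ∈ compo V x ∧ (a ≤ b ∨ b ≤ a)) x y := by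
      intro y hy
      induction hy with
      | refl => exact Relation.ReflTransGen.refl
      | tail hab hbc ih => exact ih.tail ⟨compo_closed hab hbc.1 hbc.2, hbc.2⟩
    intro y hy z hz
    have h1 : Zig (compo V x) y x := Zig.symm (V := compo V x) Relation.ReflTransGen.refl (key y hy)
    exact h1.trans (key z hz)

theorem compo_eq {V : Set P} {x y : P} (hx : x ∈ V) (hy : y ∈ compo V x) : compo V y = compo V x := by
  ext z
  constructor
  · intro hz; exact Relation.ReflTransGen.trans hy hz
  · intro hz; exact Relation.ReflTransGen.trans (Zig.symm hx hy) hz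

theorem coef_sum {S S' : Set P} {hS : IsConvex S} {hS' : IsConvex S'} {J : Type} (s : Finset J)
    (f : J → (convRep k S hS ⟶ convRep k S' hS')) (p : P) :
    coef (∑ j ∈ s, f j) p = ∑ j ∈ s, coef (f j) p := by
  classical
  induction s using Finset.induction_on with
  | empty => simp [coef_zero]
  | insert a s ha ih => rw [Finset.sum_insert ha, Finset.sum_insert ha, coef_add, ih]

/-- A convex set which is a disjoint union of finitely many spreads, with no relations between
different pieces. -/
theorem isSum'_conv_of {V : Set P} (hV : IsConvex V) {J : Type} [Finite J] (S : J → Set P)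
    (hS : ∀ j, IsSpread (S j)) (hSV : ∀ j, S j ⊆ V) (hcov : ∀ x ∈ V, ∃ j, x ∈ S j)
    (hdisj : ∀ i j x, x ∈ S i → x ∈ S j → i = j)
    (hcl : ∀ j x y, x ∈ S j → y ∈ V → (x ≤ y ∨ y ≤ x) → y ∈ S j) :
    IsSum' (convRep k V hV) := by
  classical
  have := Fintype.ofFinite J
  refine ⟨J, inferInstance, S, hS, ⟨?_⟩⟩
  let a : J → P → k := fun j p => if p ∈ S j then 1 else 0
  let ι : ∀ j, convRep k (S j) (hS j).convex ⟶ convRep k V hV := fun j =>
    cHom (a j) (fun p hp _ => if_neg hp)
      (fun p q hpq hp hq _ => by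
        have : q ∈ S j := hcl j p q hp hq (Or.inl hpq)
        simp only [a, hp, this])
      (fun p q _ hp _ hpV => absurd (hSV j hp) hpV)
  let π : ∀ j, convRep k V hV ⟶ convRep k (S j) (hS j).convex := fun j =>
    cHom (a j) (fun p hp hpj => absurd (hSV j hpj) hp)
      (fun p q hpq _ hq hp' => by simp only [a, hp', hq])
      (fun p q hpq hp hq hp' => absurd (hcl j q p hq hp (Or.inr hpq)) hp')
  have hι : ∀ j p, coef (ι j) p = a j p := by
    intro j p
    by_cases hp : p ∈ V
    · exact coef_cHom _ _ _ _ hp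
    · have h1 : coef (ι j) p = 0 := by
        by_contra hc; exact hp (coef_right hc)
      have h2 : p ∉ S j := fun h => hp (hSV j h)
      rw [h1]; exact (if_neg h2).symm
  have hπ : ∀ j p, coef (π j) p = a j p := by
    intro j p
    by_cases hp : p ∈ S j
    · exact coef_cHom _ _ _ _ hp
    · have h1 : coef (π j) p = 0 := by
        by_contra hc; exact hp (coef_right hc)
      rw [h1]; exact (if_neg hp).symm
  refine { hom := sumLift π, inv := sumDesc ι, hom_inv_id := ?_, inv_hom_id := ?_ }
  · have h1 : sumLift π ≫ sumDesc ι = ∑ j, π j ≫ ι j := by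
      rw [sumDesc, Preadditive.comp_sum]
      refine Finset.sum_congr rfl fun j _ => ?_
      rw [← Category.assoc, sumLift_π]
    rw [h1]
    apply coef_ext
    intro p
    rw [coef_sum]
    simp only [coef_comp, hι, hπ]
    by_cases hp : p ∈ V
    · rw [coef_id p hp]
      obtain ⟨j, hj⟩ := hcov p hp
      rw [Finset.sum_eq_single j]
      · simp [a, hj]
      · intro i _ hij
        have : p ∉ S i := fun h => hij (hdisj i j p h hj)
        simp [a, this]
      · intro h; exact absurd (Finset.mem_univ j) h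
    · have h2 : coef (𝟙 (convRep k V hV)) p = 0 := by
        by_contra hc; exact hp (coef_left hc)
      rw [h2]
      apply Finset.sum_eq_zero
      intro j _
      have : p ∉ S j := fun h => hp (hSV j h)
      simp [a, this]
  · apply sum_desc_ext
    intro i
    apply sum_hom_ext
    intro j
    rw [← Category.assoc, sumι_desc, Category.comp_id, Category.assoc, sumLift_π]
    by_cases hij : i = j
    · subst hij
      rw [sumι_π_self]
      apply coef_ext
      intro p
      rw [coef_comp, hι, hπ]
      by_cases hp : p ∈ S i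
      · rw [coef_id p hp]; simp [a, hp]
      · have h2 : coef (𝟙 (convRep k (S i) (hS i).convex)) p = 0 := by
          by_contra hc; exact hp (coef_left hc)
        rw [h2]; simp [a, hp]
    · rw [sumι_π_ne hij]
      apply coef_ext
      intro p
      rw [coef_comp, hι, hπ, coef_zero]
      by_cases hp : p ∈ S i
      · have : p ∉ S j := fun h => hij (hdisj i j p hp h)
        simp [a, this]
      · simp [a, hp]

theorem isSum'_conv [Finite P] {V : Set P} (hV : IsConvex V) : IsSum' (convRep k V hV) := by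
  classical
  -- the set of components
  set K : Set (Set P) := {T | ∃ x ∈ V, T = compo V x} with hK
  have hfin : Finite K := inferInstance
  obtain ⟨n, ⟨e⟩⟩ := Finite.exists_equiv_fin K
  refine isSum'_conv_of hV (J := Fin n) (fun j => (e.symm j).1) ?_ ?_ ?_ ?_ ?_
  · intro j
    obtain ⟨x, hx, h⟩ := (e.symm j).2
    rw [h]; exact compo_spread hV hx
  · intro j
    obtain ⟨x, hx, h⟩ := (e.symm j).2
    rw [h]; exact compo_subset hx
  · intro x hx
    refine ⟨e ⟨compo V x, x, hx, rfl⟩, ?_⟩
    rw [Equiv.symm_apply_apply]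
    exact Relation.ReflTransGen.refl
  · intro i j x hi hj
    obtain ⟨y, hy, h⟩ := (e.symm i).2
    obtain ⟨z, hz, h'⟩ := (e.symm j).2
    rw [h] at hi
    rw [h'] at hj
    apply e.symm.injective
    apply Subtype.ext
    rw [h, h', ← compo_eq hy hi, ← compo_eq hz hj]
  · intro j x y hx hy hxy
    obtain ⟨z, hz, h⟩ := (e.symm j).2
    rw [h] at hx ⊢
    exact compo_closed hx hy hxy

end decomposition

section layers

variable (F : SpFam P)

/-- the part of the spread `i` reached from the other spreads of `C` -/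
def VV (k : Type w) [Field k] (C : Set (Fin F.m)) (i : Fin F.m) : Set P :=
  {p | ∃ j ∈ C, j ≠ i ∧ ∃ f : Kr k F j ⟶ Kr k F i, coef f p ≠ 0}

theorem VV_subset (C : Set (Fin F.m)) (i : Fin F.m) : VV F k C i ⊆ F.S i := by
  rintro p ⟨j, _, _, f, hf⟩
  exact coef_right hf

theorem VV_up {C : Set (Fin F.m)} {i : Fin F.m} {p q : P} (hp : p ∈ VV F k C i) (hpq : p ≤ q)
    (hq : q ∈ F.S i) : q ∈ VV F k C i := by
  obtain ⟨j, hj, hji, f, hf⟩ := hp
  exact ⟨j, hj, hji, f, by rw [← coef_eq f hpq (coef_left hf) hq]; exact hf⟩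

theorem VV_convex (C : Set (Fin F.m)) (i : Fin F.m) : IsConvex (VV F k C i) := by
  intro x hx y hy p hxp hpy
  exact VV_up F hx hxp ((F.spread i).convex x (VV_subset F C i hx) y (VV_subset F C i hy) p hxp hpy)

theorem exists_VV_ne (C : Set (Fin F.m)) (hC : C.Nonempty) : ∃ i ∈ C, VV F k C i ≠ F.S i := by
  obtain ⟨i0, hi0⟩ := hC
  obtain ⟨x, hx⟩ := (F.spread i0).nonempty
  let r : Fin F.m → Fin F.m → Prop := fun j i => j ≠ i ∧ ∃ f : Kr k F j ⟶ Kr k F i, coef f x ≠ 0
  have hanti : ∀ i j, r i j → r j i → False := by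
    rintro i j ⟨hne, f, hf⟩ ⟨_, g, hg⟩
    exact hne (F.inj (retract (F.spread i) (F.spread j) f g hf hg))
  have htrans : IsTrans _ r := by
    constructor
    rintro a b c ⟨hab, f, hf⟩ ⟨hbc, g, hg⟩
    refine ⟨?_, f ≫ g, by rw [coef_comp]; exact mul_ne_zero hf hg⟩
    rintro rfl
    exact hanti a b ⟨hab, f, hf⟩ ⟨hbc, g, hg⟩
  have hirr : Std.Irrefl r := ⟨fun a h => h.1 rfl⟩
  have hwf : WellFounded r := Finite.wellFounded_of_trans_of_irrefl r
  obtain ⟨i, ⟨hiC, hix⟩, hmin⟩ := hwf.has_min {i | i ∈ C ∧ x ∈ F.S i} ⟨i0, hi0, hx⟩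
  refine ⟨i, hiC, ?_⟩
  intro h
  rw [← h] at hix
  obtain ⟨j, hj, hji, f, hf⟩ := hix
  exact hmin j ⟨hj, coef_left hf⟩ ⟨hji, f, hf⟩

/-- the inclusion of the reached part -/
noncomputable def incl {S V : Set P} (hS : IsConvex S) (hV : IsConvex V) (hVS : V ⊆ S)
    (hup : ∀ p q, p ∈ V → p ≤ q → q ∈ S → q ∈ V) : convRep k V hV ⟶ convRep k S hS := by
  classical
  exact cHom (fun p => if p ∈ V then 1 else 0) (fun p hp _ => if_neg hp)
    (fun p q hpq hp hq _ => by
      have : q ∈ V := hup p q hp hpq hq
      simp only [hp, this])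
    (fun p q _ hp _ hpS => absurd (hVS hp) hpS)

theorem coef_incl {S V : Set P} (hS : IsConvex S) (hV : IsConvex V) (hVS : V ⊆ S)
    (hup : ∀ p q, p ∈ V → p ≤ q → q ∈ S → q ∈ V) {p : P} (hp : p ∈ V) :
    coef (incl (k := k) hS hV hVS hup) p = 1 := by
  classical
  rw [incl, coef_cHom _ _ _ _ (hVS hp)]
  exact if_pos hp

theorem incl_mono {S V : Set P} (hS : IsConvex S) (hV : IsConvex V) (hVS : V ⊆ S)
    (hup : ∀ p q, p ∈ V → p ≤ q → q ∈ S → q ∈ V) {M : PRep k P} {a b : M ⟶ convRep k V hV}
    (h : a ≫ incl (k := k) hS hV hVS hup = b ≫ incl (k := k) hS hV hVS hup) : a = b := by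
  refine NatTrans.ext (funext fun p => ModuleCat.hom_ext (LinearMap.ext fun x => ?_))
  funext t
  have h1 := congrArg (fun t : M ⟶ convRep k S hS => evS k S p ((t.app p).hom x)) h
  have h2 : ∀ c : M ⟶ convRep k V hV, evS k S p (((c ≫ incl (k := k) hS hV hVS hup).app p).hom x) =
      evS k V p ((c.app p).hom x) := by
    intro c
    have h3 : ((c ≫ incl (k := k) hS hV hVS hup).app p).hom x =
        ((incl (k := k) hS hV hVS hup).app p).hom ((c.app p).hom x) := rfl
    rw [h3, app_eq]
    refine (map_smul (evS k S p) _ _).trans ?_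
    have h4 : evS k S p (secOf (incl (k := k) hS hV hVS hup) p) = 1 := coef_incl hS hV hVS hup t.down
    rw [h4, smul_eq_mul, mul_one]
  simp only [h2] at h1
  exact congrFun (evS_injective h1) t

theorem simple_step [Finite P] (C : Set (Fin F.m)) (n : ℕ)
    (hC : ∀ i ∉ C, HasRes (fun i => XX k F ⟶ Kr k F i) n
      (ModuleCat.of (GA k F) ((XX k F ⟶ Kr k F i) ⧸ radY (k := k) i)))
    (i : Fin F.m) (hV : VV F k C i ≠ F.S i) :
    HasRes (fun i => XX k F ⟶ Kr k F i) (n + 1)
      (ModuleCat.of (GA k F) ((XX k F ⟶ Kr k F i) ⧸ radY (k := k) i)) := by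
  classical
  have hup : ∀ p q, p ∈ VV F k C i → p ≤ q → q ∈ F.S i → q ∈ VV F k C i := fun p q hp hpq hq =>
    VV_up F hp hpq hq
  set ιV := incl (k := k) (F.spread i).convex (VV_convex (k := k) F C i) (VV_subset F C i) hup with hιV
  have hinj : Function.Injective (yMap (F := F) ιV) := fun a b hab =>
    incl_mono _ _ _ _ hab
  refine layer_step (goodFam k F) Cᶜ n (fun j hj => hC j hj) i (finiteLength F (FD_conv _))
    (LinearMap.range (yMap (F := F) ιV)) ?_ ?_ ?_
  · rintro _ ⟨h, rfl⟩
    show inj i ≫ h ≫ ιV = 0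
    by_contra hc
    obtain ⟨c, hc0, hc1⟩ := Kr_hom_zero _ hc
    apply hV
    apply Set.Subset.antisymm (VV_subset F C i)
    intro p hp
    have h1 := congrArg (fun f => coef f p) hc1
    simp only [coef_smul] at h1
    rw [coef_id p hp, mul_one] at h1
    have h2 : coef (inj i ≫ h ≫ ιV) p = coef (inj i ≫ h) p * coef ιV p := by
      rw [← Category.assoc, coef_comp]
    rw [h2] at h1
    have h3 : coef (inj i ≫ h) p ≠ 0 := by
      intro h4; rw [h4, zero_mul] at h1; exact hc0 h1.symm
    exact coef_right h3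
  · refine HasRes.congr (LinearEquiv.ofInjective (yMap (F := F) ιV) hinj) ?_
    exact hasRes_sum F (isSum'_conv _)
  · intro j hj f hf x
    have hjC : j ∈ C := by
      by_contra h; exact hj h
    obtain ⟨g, hg⟩ := full f
    by_cases hji : j = i
    · subst hji
      have hg0 : g = 0 := by
        by_contra hc
        obtain ⟨c, hc0, hc1⟩ := Kr_hom_zero _ hc
        have h1 := hf (pr j)
        rw [hg, mem_radY, ← Category.assoc, inj_pr, Category.id_comp] at h1
        exact hc h1
      rw [hg, hg0, comp_zero]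
      exact Submodule.zero_mem _
    · have hsupp : ∀ p, coef g p ≠ 0 → p ∈ VV F k C i := fun p hp => ⟨j, hjC, hji, g, hp⟩
      let g' : Kr k F j ⟶ convRep k (VV F k C i) (VV_convex (k := k) F C i) :=
        cHom (coef g) (fun p hp _ => by by_contra hc; exact hp (coef_left hc))
          (fun p q hpq hp hq _ => coef_eq g hpq hp (VV_subset F C i hq))
          (fun p q hpq hp hq hp' => by
            rw [← coef_eq g hpq hp (VV_subset F C i hq)]
            by_contra hc
            exact hp' (hsupp p hc))
      have hgg : g = g' ≫ ιV := by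
        apply coef_ext
        intro p
        rw [coef_comp]
        by_cases hp : p ∈ VV F k C i
        · rw [coef_cHom _ _ _ _ hp, hιV, coef_incl _ _ _ _ hp, mul_one]
        · have h1 : coef g p = 0 := by by_contra hc; exact hp (hsupp p hc)
          have h2 : coef g' p = 0 := by by_contra hc; exact hp (coef_right hc)
          rw [h1, h2, zero_mul]
      refine ⟨x ≫ g', ?_⟩
      rw [hg, hgg]
      exact Category.assoc x g' ιV

theorem all_simple [Finite P] (F : SpFam P) (i : Fin F.m) :
    HasRes (fun i => XX k F ⟶ Kr k F i) F.m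
      (ModuleCat.of (GA k F) ((XX k F ⟶ Kr k F i) ⧸ radY (k := k) i)) := by
  classical
  have key : ∀ (n : ℕ) (C : Finset (Fin F.m)), C.card = n → n ≤ F.m →
      (∀ i ∉ C, HasRes (fun i => XX k F ⟶ Kr k F i) (F.m - n)
        (ModuleCat.of (GA k F) ((XX k F ⟶ Kr k F i) ⧸ radY (k := k) i))) →
      ∀ i, HasRes (fun i => XX k F ⟶ Kr k F i) F.m
        (ModuleCat.of (GA k F) ((XX k F ⟶ Kr k F i) ⧸ radY (k := k) i)) := by
    intro n
    induction n with
    | zero =>
      intro C hC _ h i
      rw [Finset.card_eq_zero] at hC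
      subst hC
      exact h i (by simp)
    | succ n ih =>
      intro C hC hn h
      obtain ⟨i, hiC, hi⟩ := exists_VV_ne (k := k) F (C : Set (Fin F.m)) (by
        rw [Finset.coe_nonempty, ← Finset.card_pos]; omega)
      have h1 := simple_step F (C : Set (Fin F.m)) (F.m - (n + 1)) (fun j hj => h j hj) i hi
      refine ih (C.erase i) ?_ (by omega) ?_
      · rw [Finset.card_erase_of_mem hiC, hC]; omega
      · intro j hj
        by_cases hji : j = i
        · subst hji
          exact h1.mono (by omega)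
        · have : j ∉ C := fun h' => hj (Finset.mem_erase.2 ⟨hji, h'⟩)
          exact (h j this).mono (by omega)
  exact key F.m Finset.univ (by simp) le_rfl (fun i hi => absurd (Finset.mem_univ i) hi) i

theorem finite_poset_bound [Finite P] (F : SpFam P) {M : PRep k P} (hM : FD M) :
    SpRes FD F.m M :=
  hasRes_to_spRes F.m M (filtration (goodFam k F) Set.univ F.m (fun i _ => all_simple F i)
    (finiteLength F hM) (fun i hi => absurd trivial hi))

theorem exists_spFam (P : Type u) [PartialOrder P] [Finite P] : Nonempty (SpFam P) := by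
  have : Finite {S : Set P // IsSpread S} := inferInstance
  obtain ⟨n, ⟨e⟩⟩ := Finite.exists_equiv_fin {S : Set P // IsSpread S}
  exact ⟨{ m := n
           S := fun i => (e.symm i).1
           spread := fun i => (e.symm i).2
           inj := fun i j h => e.symm.injective (Subtype.ext h)
           surj := fun T hT => ⟨e ⟨T, hT⟩, by rw [Equiv.symm_apply_apply]⟩ }⟩

end layers

end Pool.Agent.Lib.MP_467d59_al
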