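import Pool.Agent.Lib.MP_467d59_al.Ext

namespace Pool.Agent.Lib.MP_467d59_al

open CategoryTheory CategoryTheory.Limits

attribute [-instance] CategoryTheory.prod CategoryTheory.prod'

universe u v w

variable {k : Type w} [Field k]

theorem SpSurj.lift_sum {P : Type u} [PartialOrder P] {Y M Z : PRep k P} {g : Y ⟶ M} (h : SpSurj g)
    (hZ : IsSum' Z) (f : Z ⟶ M) : ∃ f' : Z ⟶ Y, f' ≫ g = f := by
  obtain ⟨J, hJ, S, hS, ⟨e⟩⟩ := hZ
  have := Fintype.ofFinite J
  choose f' hf' using fun j => h (S j) (hS j)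
    (sumι (fun j => convRep k (S j) (hS j).convex) j ≫ e.inv ≫ f)
  refine ⟨e.hom ≫ sumDesc f', ?_⟩
  have h1 : sumDesc f' ≫ g = e.inv ≫ f := by
    apply sum_desc_ext
    intro j
    rw [← Category.assoc, sumι_desc, hf']
  rw [Category.assoc, h1, e.hom_inv_id_assoc]

theorem map_inj_of_eq {P : Type u} [PartialOrder P] (N : PRep k P) {a b : P} (f : a ⟶ b) (h : a = b) :
    Function.Injective (N.map f).hom := by
  subst h
  have : f = 𝟙 a := Subsingleton.elim _ _
  rw [this, N.map_id]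
  exact fun x y h => h

theorem map_self {P : Type u} [PartialOrder P] (N : PRep k P) {a : P} (f : a ⟶ a) (x : N.obj a) :
    (N.map f).hom x = x := by
  have : f = 𝟙 a := Subsingleton.elim _ _
  rw [this, N.map_id]
  rfl

section lift

variable {T : Type u} [LinearOrder T] {Q : Type v} [PartialOrder Q] {n : ℕ}

/-- the part of `S` with nothing below the first block -/
def S1 (c : Fin (n + 1) ↪o T) (S : Set (T × Q)) : Set (T × Q) :=
  {p | p ∈ S ∧ ∀ s ∈ S, s ≤ p → c 0 ≤ s.1}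

/-- the tail of the block lies in `S1` -/
def GoodS (c : Fin (n + 1) ↪o T) (S : Set (T × Q)) (p : T × Q) : Prop :=
  p ∈ S1 c S ∧ ∀ t', p.1 ≤ t' → fl c t' = fl c p.1 → (t', p.2) ∈ S1 c S

/-- the grid set attached to `S` -/
def S2 (c : Fin (n + 1) ↪o T) (S : Set (T × Q)) : Set (Fin (n + 1) × Q) :=
  {r | ∃ p, GoodS c S p ∧ ph c p = r}

variable {c : Fin (n + 1) ↪o T} {S : Set (T × Q)}

theorem S1_pos {p : T × Q} (hp : p ∈ S1 c S) : c 0 ≤ p.1 := hp.2 p hp.1 le_rfl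

theorem S1_convex (hS : IsConvex S) : IsConvex (S1 c S) := by
  intro x hx y hy p hxp hpy
  exact ⟨hS x hx.1 y hy.1 p hxp hpy, fun s hs hsp => hy.2 s hs (hsp.trans hpy)⟩

theorem good_down (hS : IsConvex S) {p p' : T × Q} (hp : p ∈ S1 c S) (hp' : GoodS c S p')
    (h : p ≤ p') : GoodS c S p := by
  refine ⟨hp, fun t2 ht2 hfl => ?_⟩
  rcases lt_or_ge (fl c p.1) (fl c p'.1) with hlt | hge
  · have h1 : t2 < p'.1 := lt_of_fl_lt c (by rw [hfl]; exact hlt)
    exact S1_convex hS p hp p' hp'.1 (t2, p.2) ⟨ht2, le_rfl⟩ ⟨h1.le, h.2⟩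
  · have heq : fl c p.1 = fl c p'.1 := le_antisymm (fl_mono c h.1) hge
    have h1 : (max t2 p'.1, p'.2) ∈ S1 c S := by
      apply hp'.2 _ (le_max_right _ _)
      rw [fl_max, hfl, heq, max_self]
    exact S1_convex hS p hp _ h1 (t2, p.2) ⟨ht2, le_rfl⟩ ⟨le_max_left _ _, h.2⟩

theorem mem_of_le (hS : IsConvex S) {p q : T × Q} (hp : p ∈ S1 c S) (h : p ≤ q)
    (hq : ph c q ∈ S2 c S) : GoodS c S q := by
  obtain ⟨p', hp', he⟩ := hq
  have e1 : fl c p'.1 = fl c q.1 := congrArg Prod.fst he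
  have e2 : (ph c p').2 = (ph c q).2 := by rw [he]
  replace e2 : p'.2 = q.2 := e2
  have h1 : (max q.1 p'.1, p'.2) ∈ S1 c S := by
    apply hp'.2 _ (le_max_right _ _)
    rw [fl_max, e1, max_self]
  have h2 : GoodS c S (max q.1 p'.1, p'.2) := by
    refine ⟨h1, fun t' ht' hfl => ?_⟩
    apply hp'.2 t' ((le_max_right _ _).trans ht')
    rw [hfl]
    show fl c (max q.1 p'.1) = _
    rw [fl_max, e1, max_self]
  have h3 : q ≤ (max q.1 p'.1, p'.2) := ⟨le_max_left _ _, e2.ge⟩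
  exact good_down hS (S1_convex hS p hp _ h1 q h h3) h2 h3

/-- an element of the fibre of `m` above `p` -/
theorem exists_mid {p : T × Q} {m : Fin (n + 1) × Q} (h : ph c p ≤ m) :
    ∃ q, ph c q = m ∧ p ≤ q := by
  refine ⟨(max p.1 (c m.1), m.2), ?_, ⟨le_max_left _ _, h.2⟩⟩
  have h1 : fl c p.1 ≤ m.1 := h.1
  show (fl c (max p.1 (c m.1)), m.2) = m
  rw [fl_max, fl_c, max_eq_right h1]

theorem S2_convex (hS : IsConvex S) : IsConvex (S2 c S) := by
  rintro r ⟨p, hp, rfl⟩ r' ⟨p', hp', rfl⟩ m hm hm'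
  obtain ⟨q, rfl, hpq⟩ := exists_mid hm
  have h1 : fl c q.1 ≤ fl c p'.1 := hm'.1
  have h2 : q.2 ≤ p'.2 := hm'.2
  have h3 : (max q.1 p'.1, p'.2) ∈ S1 c S := by
    apply hp'.2 _ (le_max_right _ _)
    rw [fl_max, max_eq_right h1]
  have h4 : q ≤ (max q.1 p'.1, p'.2) := ⟨le_max_left _ _, h2⟩
  have h5 : q ∈ S1 c S := S1_convex hS p hp.1 _ h3 q hpq h4
  have h6 : GoodS c S (max q.1 p'.1, p'.2) := by
    apply mem_of_le hS h5 h4
    refine ⟨p', hp', ?_⟩
    show (fl c p'.1, p'.2) = (fl c (max q.1 p'.1), p'.2)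
    rw [fl_max, max_eq_right h1]
  exact ⟨q, good_down hS h5 h6 h4, rfl⟩

theorem z_zero {N : PRep k (Fin (n + 1) × Q)} (z : ∀ p : T × Q, N.obj (ph c p))
    (hz1 : ∀ p ∉ S1 c S, z p = 0)
    (hz2 : ∀ p ∈ S, ∀ q (h : p ≤ q), (N.map (homOfLE (ph_mono c h))).hom (z p) = z q)
    {p : T × Q} (hp : ¬ GoodS c S p) : z p = 0 := by
  by_cases h1 : p ∈ S1 c S
  · have h2 : ∃ t', p.1 ≤ t' ∧ fl c t' = fl c p.1 ∧ (t', p.2) ∉ S1 c S := by
      by_contra hc
      push Not at hc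
      exact hp ⟨h1, hc⟩
    obtain ⟨t', ht', hfl, hn⟩ := h2
    have hle : p ≤ (t', p.2) := ⟨ht', le_rfl⟩
    have h3 := hz2 p h1.1 (t', p.2) hle
    rw [hz1 _ hn] at h3
    apply map_inj_of_eq N (homOfLE (ph_mono c hle))
    · show (fl c p.1, p.2) = (fl c t', p.2)
      rw [hfl]
    · rw [h3, map_zero]
  · exact hz1 p h1

theorem exists_w (hS : IsConvex S) {N : PRep k (Fin (n + 1) × Q)}
    (z : ∀ p : T × Q, N.obj (ph c p)) (hz1 : ∀ p ∉ S1 c S, z p = 0)
    (hz2 : ∀ p ∈ S, ∀ q (h : p ≤ q), (N.map (homOfLE (ph_mono c h))).hom (z p) = z q) :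
    ∃ w : ∀ r, N.obj r, IsSec (S2 c S) N w ∧ ∀ p, GoodS c S p → w (ph c p) = z p := by
  classical
  let w : ∀ r, N.obj r := fun r => if h : r ∈ S2 c S then
    (N.map (homOfLE (le_of_eq h.choose_spec.2))).hom (z h.choose) else 0
  have hw : ∀ p, GoodS c S p → w (ph c p) = z p := by
    intro p hp
    have h : ph c p ∈ S2 c S := ⟨p, hp, rfl⟩
    have e : w (ph c p) = (N.map (homOfLE (le_of_eq h.choose_spec.2))).hom (z h.choose) := dif_pos h
    rw [e]
    obtain ⟨hg, he⟩ := h.choose_spec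
    set p0 := h.choose with hp0
    have e2 : (ph c p0).2 = (ph c p).2 := by rw [he]
    replace e2 : p0.2 = p.2 := e2
    rcases le_total p0.1 p.1 with hle | hle
    · have hle' : p0 ≤ p := ⟨hle, e2.le⟩
      have := hz2 p0 hg.1.1 p hle'
      rw [← this]
    · have hle' : p ≤ p0 := ⟨hle, e2.ge⟩
      have := hz2 p hp.1.1 p0 hle'
      rw [← this]
      have e3 : (N.map (homOfLE (le_of_eq h.choose_spec.2))).hom
          ((N.map (homOfLE (ph_mono c hle'))).hom (z p)) =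
          (N.map (homOfLE (ph_mono c hle') ≫ homOfLE (le_of_eq h.choose_spec.2))).hom (z p) := by
        rw [N.map_comp]; rfl
      rw [e3, map_self]
  refine ⟨w, ⟨fun r hr => dif_neg hr, ?_⟩, hw⟩
  rintro r m f ⟨p, hp, rfl⟩
  obtain ⟨q, rfl, hpq⟩ := exists_mid (leOfHom f)
  rw [hw p hp]
  have e1 : f = homOfLE (ph_mono c hpq) := Subsingleton.elim _ _
  rw [e1, hz2 p hp.1.1 q hpq]
  by_cases hq : ph c q ∈ S2 c S
  · rw [hw q (mem_of_le hS hp.1 hpq hq)]
  · have e2 : w (ph c q) = 0 := dif_neg hq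
    rw [e2]
    exact z_zero z hz1 hz2 (fun hg => hq ⟨q, hg, rfl⟩)

theorem Emap_SpSurj [Finite Q] {N₁ N₂ : PRep k (Fin (n + 1) × Q)} {g : N₁ ⟶ N₂} (hg : SpSurj g) :
    SpSurj (Emap c g : EE c N₁ ⟶ EE c N₂) := by
  classical
  intro S hS f
  have hSc := hS.convex
  let z : ∀ p : T × Q, N₂.obj (ph c p) := fun p => evE N₂ p (secOf f p)
  have hz2 : ∀ p ∈ S, ∀ q (h : p ≤ q), (N₂.map (homOfLE (ph_mono c h))).hom (z p) = z q := by
    intro p hp q h
    have := (secOf_isSec f).2 p q (homOfLE h) hp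
    show _ = evE N₂ q (secOf f q)
    rw [← this, evE_map (homOfLE h) (homOfLE (ph_mono c h))]
  have hz1 : ∀ p ∉ S1 c S, z p = 0 := by
    intro p hp
    by_cases hpS : p ∈ S
    · have h1 : ∃ s ∈ S, s ≤ p ∧ ¬ c 0 ≤ s.1 := by
        by_contra hc
        push Not at hc
        exact hp ⟨hpS, fun s hs hsp => by
          have := hc s hs hsp
          exact this⟩
      obtain ⟨s, hs, hsp, hsc⟩ := h1
      rw [← hz2 s hs p hsp]
      have : z s = 0 := evE_neg hsc _
      rw [this, map_zero]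
    · show evE N₂ p (secOf f p) = 0
      rw [(secOf_isSec f).1 p hpS, map_zero]
  obtain ⟨w, hw1, hw2⟩ := exists_w hSc z hz1 hz2
  obtain ⟨f', hf'⟩ := hg.lift_sum (isSum'_conv (S2_convex hSc)) (mkHom (S2_convex hSc) w hw1)
  -- the lifted section
  let y : ∀ r, N₁.obj r := fun r => secOf f' r
  have hy : ∀ r, (g.app r).hom (y r) = w r := by
    intro r
    have : (g.app r).hom (secOf f' r) = secOf (f' ≫ g) r := rfl
    show (g.app r).hom (secOf f' r) = w r
    rw [this, hf', secOf_mkHom]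
  have hys := secOf_isSec f'
  let u : ∀ p, (EE c N₁).obj p := fun p =>
    if GoodS c S p then (show PLift (c 0 ≤ p.1) → N₁.obj (ph c p) from fun _ => y (ph c p)) else 0
  have hu1 : ∀ p, GoodS c S p → evE N₁ p (u p) = y (ph c p) := by
    intro p hp
    have : u p = (show PLift (c 0 ≤ p.1) → N₁.obj (ph c p) from fun _ => y (ph c p)) := if_pos hp
    rw [this]
    exact evF_pos (S1_pos hp.1) _
  have hu0 : ∀ p, ¬ GoodS c S p → u p = 0 := fun p hp => if_neg hp
  have hus : IsSec S (EE c N₁) u := by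
    constructor
    · intro p hp
      exact hu0 p (fun h => hp h.1.1)
    · intro p q h hp
      by_cases hgp : GoodS c S p
      · apply evE_injective
        rw [evE_map h (homOfLE (ph_mono c (leOfHom h))), hu1 p hgp]
        have h1 := hys.2 (ph c p) (ph c q) (homOfLE (ph_mono c (leOfHom h))) ⟨p, hgp, rfl⟩
        refine h1.trans ?_
        by_cases hgq : GoodS c S q
        · rw [hu1 q hgq]
        · rw [hu0 q hgq, map_zero]
          apply hys.1
          intro hq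
          exact hgq (mem_of_le hSc hgp.1 (leOfHom h) hq)
      · rw [hu0 p hgp, map_zero]
        have hgq : ¬ GoodS c S q := by
          intro hgq
          apply hgp
          refine good_down hSc ⟨hp, fun s hs hsp => ?_⟩ hgq (leOfHom h)
          exact hgq.1.2 s hs (hsp.trans (leOfHom h))
        rw [hu0 q hgq]
  refine ⟨mkHom hSc u hus, ?_⟩
  apply conv_hom_ext
  intro p hp
  rw [secOf_comp, secOf_mkHom]
  apply evE_injective
  rw [evE_Emap]
  by_cases hgp : GoodS c S p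
  · rw [hu1 p hgp, hy, hw2 p hgp]
  · rw [hu0 p hgp, map_zero, map_zero]
    exact (z_zero z hz1 hz2 hgp).symm

theorem EE_spRes [Finite Q] (c : Fin (n + 1) ↪o T) {good : PRep k (T × Q) → Prop}
    (hgood : ∀ N : PRep k (Fin (n + 1) × Q), FD N → good (EE c N)) (m : ℕ) :
    ∀ N : PRep k (Fin (n + 1) × Q), SpRes FD m N → SpRes good m (EE c N) := by
  induction m with
  | zero =>
    rintro N ⟨h1, h2⟩
    exact ⟨EE_isSum' h1, hgood N h2⟩
  | succ m ih =>
    rintro N ⟨Y, K, i, g, hY, hYg, hK, hg, hKn⟩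
    exact ⟨EE c Y, EE c K, Emap c i, Emap c g, EE_isSum' hY, hgood Y hYg, Emap_isKer hK,
      Emap_SpSurj hg, ih K hKn⟩

end lift

end Pool.Agent.Lib.MP_467d59_al
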