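import Pool.Agent.Lib.MP_467d59_al.Closed

namespace Pool.Agent.Lib.MP_467d59_al

open CategoryTheory CategoryTheory.Limits

attribute [-instance] CategoryTheory.prod CategoryTheory.prod'

universe u v w

variable {k : Type w} [Field k]

section sink

variable {P : Type u} [PartialOrder P]

/-- minimal elements of `S` -/
def Smin (S : Set P) : Set P := {x | x ∈ S ∧ ∀ s ∈ S, s ≤ x → s = x}

/-- the strict upper part of `S` -/
def Splus (S : Set P) : Set P := {p | p ∉ S ∧ ∃ s ∈ S, s ≤ p}

/-- the enlargement of `S` by `y` and everything below `y` unrelated to `S` -/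
def BB (S : Set P) (y : P) : Set P := {p | p ∈ S ∨ p = y ∨ (p ≤ y ∧ ∀ s ∈ S, ¬ s ≤ p ∧ ¬ p ≤ s)}

variable {S : Set P}

theorem removal_convex (hS : IsConvex S) {x : P} (hx : x ∈ Smin S) : IsConvex (S \ {x}) := by
  rintro a ⟨ha, hax⟩ b ⟨hb, hbx⟩ p hap hpb
  refine ⟨hS a ha b hb p hap hpb, ?_⟩
  intro h
  have h' : p = x := h
  subst h'
  exact hax (hx.2 a ha hap)

theorem removal_up {x : P} (hx : x ∈ Smin S) (p q : P) (hp : p ∈ S \ {x}) (hpq : p ≤ q)
    (hq : q ∈ S) : q ∈ S \ {x} := by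
  refine ⟨hq, ?_⟩
  intro h
  have h' : q = x := h
  subst h'
  exact hp.2 (hx.2 p hp.1 hpq)

/-- first kind of map to `k_S` -/
noncomputable def g1 (hS : IsConvex S) (x : P) (hx : x ∈ Smin S) :
    convRep k (S \ {x}) (removal_convex hS hx) ⟶ convRep k S hS :=
  incl hS (removal_convex hS hx) Set.sdiff_subset (removal_up hx)

theorem BB_convex (hS : IsConvex S) {y : P} (hy : y ∈ Smin (Splus S)) : IsConvex (BB S y) := by
  obtain ⟨⟨hyS, s0, hs0, hs0y⟩, hmin⟩ := hy
  have hup : ∀ s ∈ S, ¬ y ≤ s := fun s hs h => hyS (hS s0 hs0 s hs y hs0y h)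
  have key : ∀ p, p ≤ y → p ∉ S → (∀ s ∈ S, ¬ p ≤ s) → p ∈ BB S y := by
    intro p hpy hpS hps
    by_cases h : ∃ s ∈ S, s ≤ p
    · obtain ⟨s, hs, hsp⟩ := h
      right; left
      exact hmin p ⟨hpS, s, hs, hsp⟩ hpy
    · push Not at h
      right; right
      exact ⟨hpy, fun s hs => ⟨h s hs, hps s hs⟩⟩
  intro a ha b hb p hap hpb
  -- everything in `BB` outside `S` is below `y` and not below `S`
  have hout : ∀ z, z ∈ BB S y → z ∉ S → z ≤ y ∧ ∀ s ∈ S, ¬ z ≤ s := by
    rintro z (hz | rfl | ⟨h1, h2⟩) hzS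
    · exact absurd hz hzS
    · exact ⟨le_rfl, hup⟩
    · exact ⟨h1, fun s hs => (h2 s hs).2⟩
  by_cases hpS : p ∈ S
  · left; exact hpS
  · by_cases haS : a ∈ S
    · by_cases hbS : b ∈ S
      · exact absurd (hS a haS b hbS p hap hpb) hpS
      · obtain ⟨h1, h2⟩ := hout b hb hbS
        refine key p (hpb.trans h1) hpS ?_
        intro s hs hps
        exact hpS (hS a haS s hs p hap hps)
    · obtain ⟨h1, h2⟩ := hout a ha haS
      by_cases hbS : b ∈ S
      · exact absurd (hap.trans hpb) (h2 b hbS)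
      · obtain ⟨h3, h4⟩ := hout b hb hbS
        refine key p (hpb.trans h3) hpS ?_
        intro s hs hps
        exact h2 s hs (hap.trans hps)

theorem BB_down (hS : IsConvex S) {y : P} (hy : y ∈ Smin (Splus S)) {p q : P} (hp : p ∈ BB S y)
    (hq : q ∈ S) (hpq : p ≤ q) : p ∈ S := by
  obtain ⟨⟨hyS, s0, hs0, hs0y⟩, hmin⟩ := hy
  rcases hp with h | rfl | ⟨_, h⟩
  · exact h
  · exact absurd (hS s0 hs0 q hq p hs0y hpq) hyS
  · exact absurd hpq (h q hq).2

/-- second kind of map to `k_S` -/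
noncomputable def g2 (hS : IsConvex S) (y : P) (hy : y ∈ Smin (Splus S)) :
    convRep k (BB S y) (BB_convex hS hy) ⟶ convRep k S hS := by
  classical
  exact cHom (fun p => if p ∈ S then 1 else 0) (fun p hp hpS => absurd (Or.inl hpS) hp)
    (fun p q _ _ hq hp => by simp only [hp, hq])
    (fun p q hpq hp hq hpS => absurd (BB_down hS hy hp hq hpq) hpS)

theorem coef_g2 (hS : IsConvex S) (y : P) (hy : y ∈ Smin (Splus S)) {p : P} (hp : p ∈ S) :
    coef (g2 (k := k) hS y hy) p = 1 := by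
  classical
  rw [g2, coef_cHom _ _ _ _ hp]
  exact if_pos hp

theorem g1_nonsplit (hS : IsSpread S) (x : P) (hx : x ∈ Smin S)
    (f : convRep k S hS.convex ⟶ convRep k (S \ {x}) (removal_convex hS.convex hx)) :
    f ≫ g1 hS.convex x hx = 0 := by
  apply coef_ext
  intro p
  rw [coef_zero]
  by_contra hc
  have hp : p ∈ S := coef_left hc
  have h1 := coef_const hS (f ≫ g1 hS.convex x hx) hx.1 hp
  rw [← h1, coef_comp] at hc
  have h2 : coef f x ≠ 0 := left_ne_zero_of_mul hc
  exact (coef_right h2).2 rfl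

theorem g2_nonsplit (hS : IsSpread S) (y : P) (hy : y ∈ Smin (Splus S))
    (f : convRep k S hS.convex ⟶ convRep k (BB S y) (BB_convex hS.convex hy)) :
    f ≫ g2 hS.convex y hy = 0 := by
  apply coef_ext
  intro p
  rw [coef_zero]
  by_contra hc
  have hp : p ∈ S := coef_left hc
  obtain ⟨⟨hyS, s0, hs0, hs0y⟩, hmin⟩ := hy
  have h1 := coef_const hS (f ≫ g2 hS.convex y ⟨⟨hyS, s0, hs0, hs0y⟩, hmin⟩) hs0 hp
  rw [← h1, coef_comp] at hc
  have h2 : coef f s0 ≠ 0 := left_ne_zero_of_mul hc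
  rw [coef_eq f hs0y hs0 (Or.inr (Or.inl rfl))] at h2
  exact hyS (coef_left h2)

theorem coef_const' {S' : Set P} {hS' : IsConvex S'} (hS : IsSpread S)
    (f : convRep k S' hS' ⟶ convRep k S hS.convex) (hsub : S ⊆ S') {p q : P} (hp : p ∈ S)
    (hq : q ∈ S) : coef f p = coef f q := by
  have h := hS.connected p hp q hq
  have : q ∈ S ∧ coef f p = coef f q := by
    induction h with
    | refl => exact ⟨hp, rfl⟩
    | tail hab hbc ih =>
      obtain ⟨hc, hbc⟩ := hbc
      have hb := Zig.mem hp hab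
      obtain ⟨_, ih⟩ := ih hb
      refine ⟨hc, ih.trans ?_⟩
      rcases hbc with h | h
      · exact coef_eq f h (hsub hb) hc
      · exact (coef_eq f h (hsub hc) hb).symm
  exact this.2

theorem exists_min [Finite P] {A : Set P} (hA : A.Nonempty) : (Smin A).Nonempty := by
  obtain ⟨x, hx⟩ := A.toFinite.exists_minimal hA
  exact ⟨x, hx.1, fun s hs hsx => le_antisymm hsx (hx.2 hs hsx)⟩

/-- every morphism from another spread factors through one of the basic maps -/
theorem sink_factor [Finite P] (hS : IsSpread S) {S' : Set P} (hS' : IsSpread S') (hne : S' ≠ S)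
    (f : convRep k S' hS'.convex ⟶ convRep k S hS.convex) :
    (∃ (x : P) (hx : x ∈ Smin S) (f' : _), f = f' ≫ g1 hS.convex x hx) ∨
    (∃ (y : P) (hy : y ∈ Smin (Splus S)) (f' : _), f = f' ≫ g2 hS.convex y hy) := by
  classical
  by_cases hU : ∃ p ∈ S, coef f p = 0
  · left
    obtain ⟨x, ⟨hxS, hx0⟩, hxmin⟩ := exists_min (A := {p | p ∈ S ∧ coef f p = 0}) hU
    have hx : x ∈ Smin S := by
      refine ⟨hxS, fun s hs hsx => ?_⟩
      by_cases h0 : coef f s = 0
      · exact hxmin s ⟨hs, h0⟩ hsx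
      · exfalso
        apply h0
        rw [coef_eq f hsx (coef_left h0) hxS, hx0]
    refine ⟨x, hx, cHom (coef f) (fun p hp _ => by by_contra hc; exact hp (coef_left hc))
      (fun p q hpq hp hq _ => coef_eq f hpq hp hq.1) (fun p q hpq hp hq hpn => ?_), ?_⟩
    · rw [← coef_eq f hpq hp hq.1]
      by_contra hc
      have h1 := coef_right hc
      apply hpn
      refine ⟨h1, ?_⟩
      intro h2
      have h2' : p = x := h2
      subst h2'
      exact hc hx0
    · apply coef_ext
      intro p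
      rw [coef_comp]
      by_cases hp : p ∈ S \ {x}
      · rw [coef_cHom _ _ _ _ hp, g1, coef_incl _ _ _ _ hp, mul_one]
      · have h1 : coef f p = 0 := by
          by_contra hc
          apply hp
          refine ⟨coef_right hc, ?_⟩
          intro h2
          have h2' : p = x := h2
          subst h2'
          exact hc hx0
        rw [h1]
        symm
        apply mul_eq_zero_of_left
        by_contra hc
        exact hp (coef_right hc)
  · right
    push Not at hU
    have hsub : S ⊆ S' := fun p hp => coef_left (hU p hp)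
    have hdown : ∀ p q, p ∈ S' → q ∈ S → p ≤ q → p ∈ S := by
      intro p q hp hq hpq
      apply coef_right (f := f)
      rw [coef_eq f hpq hp hq]
      exact hU q hq
    -- a comparable pair crossing the boundary
    have hex : ∃ p ∈ S', p ∉ S := by
      by_contra hc
      push Not at hc
      exact hne (Set.Subset.antisymm hc hsub)
    obtain ⟨p0, hp0, hp0S⟩ := hex
    obtain ⟨s1, hs1⟩ := hS.nonempty
    have hW : {p | p ∈ S' ∧ p ∉ S ∧ ∃ s ∈ S, s ≤ p}.Nonempty := by
      by_contra hc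
      rw [Set.not_nonempty_iff_eq_empty] at hc
      have hc' : ∀ p ∈ S', p ∉ S → ∀ s ∈ S, ¬ s ≤ p := by
        intro p hp hpS s hs hsp
        have : p ∈ {p | p ∈ S' ∧ p ∉ S ∧ ∃ s ∈ S, s ≤ p} := ⟨hp, hpS, s, hs, hsp⟩
        rw [hc] at this
        exact this
      have h := hS'.connected s1 (hsub hs1) p0 hp0
      have : p0 ∈ S := by
        clear hp0S
        induction h with
        | refl => exact hs1
        | tail hab hbc ih =>
          have hb := ih (Zig.mem (hsub hs1) hab)
          by_contra hcS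
          rcases hbc.2 with h | h
          · exact hc' _ hbc.1 hcS _ hb h
          · exact hcS (hdown _ _ hbc.1 hb h)
      exact hp0S this
    obtain ⟨y, ⟨hyS', hyS, s0, hs0, hs0y⟩, hymin⟩ := exists_min hW
    have hy : y ∈ Smin (Splus S) := by
      refine ⟨⟨hyS, s0, hs0, hs0y⟩, ?_⟩
      rintro z ⟨hzS, s, hs, hsz⟩ hzy
      exact hymin z ⟨hS'.convex s (hsub hs) y hyS' z hsz hzy, hzS, s, hs, hsz⟩ hzy
    have hBy : ∀ q, q ∈ BB S y → q ∈ S ∨ q ≤ y := by
      rintro q (h | rfl | ⟨h, _⟩)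
      · exact Or.inl h
      · exact Or.inr le_rfl
      · exact Or.inr h
    refine ⟨y, hy, cHom (fun p => if p ∈ S' ∧ p ∈ BB S y then coef f s1 else 0)
      (fun p hp _ => if_neg fun h => hp h.1) (fun p q hpq hp hq hpB => ?_)
      (fun p q hpq hp hq hpB => ?_), ?_⟩
    · have hqS' : q ∈ S' := by
        rcases hBy q hq with h | h
        · exact hsub h
        · exact hS'.convex p hp y hyS' q hpq h
      simp only [hp, hpB, hq, hqS', and_self]
    · refine if_neg ?_
      rintro ⟨hqS', _⟩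
      apply hpB
      by_cases hpS : p ∈ S
      · left; exact hpS
      · rcases hBy q hq with h | h
        · exact absurd (hdown p q hp h hpq) hpS
        · by_cases h2 : ∃ s ∈ S, s ≤ p
          · obtain ⟨s, hs, hsp⟩ := h2
            right; left
            exact hymin p ⟨hp, hpS, s, hs, hsp⟩ (hpq.trans h)
          · push Not at h2
            right; right
            exact ⟨hpq.trans h, fun s hs => ⟨h2 s hs, fun hps => hpS (hdown p s hp hs hps)⟩⟩
    · apply coef_ext
      intro p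
      rw [coef_comp]
      by_cases hp : p ∈ S
      · have hpB : p ∈ BB S y := Or.inl hp
        rw [coef_cHom _ _ _ _ hpB, coef_g2 _ _ _ hp, mul_one, if_pos ⟨hsub hp, hpB⟩]
        exact coef_const' hS f hsub hp hs1
      · have h1 : coef f p = 0 := by by_contra hc; exact hp (coef_right hc)
        rw [h1]
        symm
        apply mul_eq_zero_of_right
        by_contra hc
        exact hp (coef_right hc)

theorem sum_sigma {J : Type} {J' : J → Type} (Z : ∀ j, J' j → PRep k P) :
    Nonempty (sumRep (fun j => sumRep (Z j)) ≅ sumRep (fun x : Σ j, J' j => Z x.1 x.2)) := by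
  let g : sumRep (fun x : Σ j, J' j => Z x.1 x.2) ⟶ sumRep (fun j => sumRep (Z j)) :=
    sumLift fun j => sumLift fun i => sumπ (fun x : Σ j, J' j => Z x.1 x.2) ⟨j, i⟩
  have hg : IsIso g := by
    apply isIso_of_bijective
    intro p
    constructor
    · intro a b hab
      funext x
      exact congrFun (congrFun hab x.1) x.2
    · intro b
      exact ⟨fun x => b x.1 x.2, rfl⟩
  exact ⟨(asIso g).symm⟩

theorem isSum'_sum {J : Type} [Finite J] {Y : J → PRep k P} (h : ∀ j, IsSum' (Y j)) :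
    IsSum' (sumRep Y) := by
  choose J' hJ' S hS e using h
  obtain ⟨e1⟩ := sum_iso e
  obtain ⟨e2⟩ := sum_sigma (fun j (i : J' j) => convRep k (S j i) (hS j i).convex)
  exact ⟨Σ j, J' j, inferInstance, fun x => S x.1 x.2, fun x => hS x.1 x.2, ⟨e1.trans e2⟩⟩

theorem SpRes.of_iso {good : PRep k P → Prop} (hgood : ∀ M M' : PRep k P, (M ≅ M') → good M → good M')
    {n : ℕ} {M M' : PRep k P} (e : M ≅ M') (h : SpRes good n M) : SpRes good n M' := by
  cases n with
  | zero =>
    obtain ⟨⟨J, hJ, S, hS, ⟨e'⟩⟩, h2⟩ := h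
    exact ⟨⟨J, hJ, S, hS, ⟨e.symm.trans e'⟩⟩, hgood _ _ e h2⟩
  | succ n =>
    obtain ⟨Y, K, i, g, hY, hYg, hK, hg, hKn⟩ := h
    refine ⟨Y, K, i, g ≫ e.hom, hY, hYg, ⟨hK.inj, ?_⟩, ?_, hKn⟩
    · intro p y
      rw [← hK.exact p y]
      constructor
      · intro h
        have h' : (e.hom.app p).hom ((g.app p).hom y) = 0 := h
        rw [← map_zero (e.hom.app p).hom] at h'
        exact (bijective_of_isIso e p).1 h'
      · intro h
        show (e.hom.app p).hom ((g.app p).hom y) = 0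
        rw [h, map_zero]
    · intro S hS f
      obtain ⟨f', hf'⟩ := hg S hS (f ≫ e.inv)
      exact ⟨f', by rw [← Category.assoc, hf', Category.assoc, e.inv_hom_id, Category.comp_id]⟩

/-- the radical as the image of a map from a sum -/
theorem simple_of_sink [Finite P] (F : SpFam P) (i : Fin F.m) (m : ℕ) {J : Type} [Finite J]
    {Y : J → PRep k P} (hY : ∀ j, IsSum' (Y j)) (g : ∀ j, Y j ⟶ Kr k F i)
    (hns : ∀ j (f : Kr k F i ⟶ Y j), f ≫ g j = 0)
    (hfac : ∀ i', i' ≠ i → ∀ f : Kr k F i' ⟶ Kr k F i, ∃ j, ∃ f' : Kr k F i' ⟶ Y j, f = f' ≫ g j)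
    (hK : ∀ (g' : sumRep Y ⟶ Kr k F i), SpRes FD m (kerRep g')) :
    HasRes (fun i => XX k F ⟶ Kr k F i) (m + 2)
      (ModuleCat.of (GA k F) ((XX k F ⟶ Kr k F i) ⧸ radY (k := k) i)) := by
  classical
  have := Fintype.ofFinite J
  let G : sumRep Y ⟶ Kr k F i := sumDesc g
  have hG : ∀ h : XX k F ⟶ sumRep Y, h ≫ G ∈ radY i := by
    intro h
    rw [mem_radY]
    show inj i ≫ h ≫ ∑ j, sumπ Y j ≫ g j = 0
    rw [Preadditive.comp_sum, Preadditive.comp_sum]
    refine Finset.sum_eq_zero fun j _ => ?_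
    have : inj i ≫ h ≫ sumπ Y j ≫ g j = (inj i ≫ h ≫ sumπ Y j) ≫ g j := by
      simp only [Category.assoc]
    rw [this, hns]
  let a : (XX k F ⟶ sumRep Y) →ₗ[GA k F] radY (k := k) (F := F) i :=
    LinearMap.codRestrict _ (yMap G) hG
  have ha : Function.Surjective a := by
    rintro ⟨h, hh⟩
    rw [mem_radY] at hh
    have h1 : ∀ i' : Fin F.m, ∃ f' : Kr k F i' ⟶ sumRep Y, f' ≫ G = inj i' ≫ h := by
      intro i'
      by_cases hi : i' = i
      · subst hi
        exact ⟨0, by rw [zero_comp, hh]⟩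
      · obtain ⟨j, f', hf'⟩ := hfac i' hi (inj i' ≫ h)
        refine ⟨f' ≫ sumι Y j, ?_⟩
        rw [Category.assoc, sumι_desc, hf']
    choose f' hf' using h1
    refine ⟨∑ i', pr i' ≫ f' i', ?_⟩
    apply Subtype.ext
    show (∑ i', pr i' ≫ f' i') ≫ G = h
    rw [Preadditive.sum_comp]
    calc _ = ∑ i', (pr i' ≫ inj i') ≫ h := Finset.sum_congr rfl fun i' _ => by
            rw [Category.assoc, hf', Category.assoc]
      _ = h := by rw [← Preadditive.sum_comp, total, Category.id_comp]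
  obtain ⟨eK⟩ := yKer (F := F) (isKer_kerι G)
  have hK1 : HasRes (fun i => XX k F ⟶ Kr k F i) m
      (ModuleCat.of (GA k F) (LinearMap.ker (yMap (F := F) G))) :=
    HasRes.congr eK (spRes_to_hasRes F m _ (hK G))
  have hrad : HasRes (fun i => XX k F ⟶ Kr k F i) (m + 1)
      (ModuleCat.of (GA k F) (radY (k := k) (F := F) i)) := by
    refine cone yproj m (LinearMap.ker (yMap (F := F) G)).subtype a (Submodule.injective_subtype _)
      ha ?_ hK1 ((hasRes_sum F (isSum'_sum hY)).mono (Nat.zero_le _))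
    intro x
    constructor
    · intro hx
      exact ⟨⟨x, congrArg Subtype.val hx⟩, rfl⟩
    · rintro ⟨⟨y, hy⟩, rfl⟩
      exact Subtype.ext hy
  refine cone yproj (m + 1) (radY (k := k) (F := F) i).subtype (radY (k := k) (F := F) i).mkQ
    (Submodule.injective_subtype _) (Submodule.mkQ_surjective _) ?_ hrad ?_
  · intro x
    rw [Submodule.mkQ_apply, Submodule.Quotient.mk_eq_zero]
    exact ⟨fun h => ⟨⟨x, h⟩, rfl⟩, fun ⟨y, hy⟩ => hy ▸ y.2⟩
  · refine HasRes.mono (n := 0) (Nat.zero_le _) ?_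
    exact ⟨Unit, inferInstance, fun _ => i, ⟨(LinearEquiv.funUnique Unit (GA k F) _).symm⟩⟩

end sink

end Pool.Agent.Lib.MP_467d59_al
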